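import Pool.Agent.H67R2.Tree

set_option autoImplicit false

namespace Pool.Agent.H67R2

open MeasureTheory Topology Set SimpleGraph

/-- The conclusion: existence of a free pmp action with almost treeable orbit relation. -/
def Concl (Γ : Type) [Group Γ] : Prop :=
    ∃ (X : Type) (_ : MeasurableSpace X) (_ : StandardBorelSpace X)
      (μ : Measure X) (_ : IsProbabilityMeasure μ) (_ : MulAction Γ X),
      (∀ g : Γ, MeasurePreserving (fun x : X => g • x) μ μ) ∧
      (∀ᵐ x ∂μ, ∀ g : Γ, g • x = x → g = 1) ∧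
      ∃ S : ℕ → Set (X × X),
        (∀ n, MeasurableSet (S n)) ∧
        (∀ n, ∀ x : X, (x, x) ∈ S n) ∧
        (∀ n, ∀ x y : X, (x, y) ∈ S n → (y, x) ∈ S n) ∧
        (∀ n, ∀ x y z : X, (x, y) ∈ S n → (y, z) ∈ S n → (x, z) ∈ S n) ∧
        (∀ n, S n ⊆ S (n + 1)) ∧
        (∀ x y : X, (∃ n, (x, y) ∈ S n) ↔ ∃ g : Γ, g • x = y) ∧
        (∀ n, ∃ G : Set (X × X), MeasurableSet G ∧ G ⊆ S n ∧
          ∃ Y : Set X, MeasurableSet Y ∧ μ Yᶜ = 0 ∧
            (∀ g : Γ, ∀ x ∈ Y, g • x ∈ Y) ∧
            ((SimpleGraph.fromRel (fun x y : X => (x, y) ∈ G)).induce Y).IsAcyclic ∧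
            (∀ x y : Y,
              (((x : X), (y : X)) ∈ S n ↔
                ((SimpleGraph.fromRel (fun x y : X => (x, y) ∈ G)).induce Y).Reachable x y)))

section Ret

variable {V G : Type*} [Group G] [MulAction G V] (D : Set V) (hD : ∀ v : V, ∃! g : G, g • v ∈ D)

/-- representative in a strict fundamental domain -/
noncomputable def ret (v : V) : V := (hD v).choose • v

theorem ret_mem (v : V) : ret D hD v ∈ D := (hD v).choose_spec.1

theorem ret_eq {v : V} {g : G} (h : g • v ∈ D) : ret D hD v = g • v := by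
  unfold ret; rw [(hD v).choose_spec.2 g h]

theorem exists_ret (v : V) : ∃ g : G, ret D hD v = g • v := ⟨_, rfl⟩

theorem ret_of_mem {v : V} (h : v ∈ D) : ret D hD v = v := by
  have : (1 : G) • v ∈ D := by rwa [one_smul]
  rw [ret_eq D hD this, one_smul]

theorem ret_smul (g : G) (v : V) : ret D hD (g • v) = ret D hD v := by
  obtain ⟨δ, hδ⟩ := exists_ret D hD (g • v)
  have h := ret_mem D hD (g • v)
  rw [hδ, smul_smul] at h
  rw [ret_eq D hD h, hδ, smul_smul]

theorem measurable_ret [MeasurableSpace V] [Countable G]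
    (hm : ∀ g : G, Measurable (fun v : V => g • v)) (hDm : MeasurableSet D) :
    Measurable (ret D hD) := by
  intro E hE
  have : ret D hD ⁻¹' E = ⋃ g : G, (fun v : V => g • v) ⁻¹' (D ∩ E) := by
    ext v
    simp only [mem_preimage, mem_iUnion, mem_inter_iff]
    constructor
    · intro h
      obtain ⟨g, hg⟩ := exists_ret D hD v
      refine ⟨g, ?_, ?_⟩
      · rw [← hg]; exact ret_mem D hD v
      · rw [← hg]; exact h
    · rintro ⟨g, h1, h2⟩
      rw [ret_eq D hD h1]; exact h2
  rw [this]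
  exact MeasurableSet.iUnion fun g => (hm g) (hDm.inter hE)

end Ret

section Main

variable {Γ V : Type} [Group Γ] [Countable Γ] [MeasurableSpace V] [StandardBorelSpace V]
  [MulAction Γ V] [MulAction W V] (c : Cpl Γ V) (m : Measure V)
  (hmΓ : ∀ γ : Γ, MeasurePreserving (fun v : V => γ • v) m m)
  (hmW : ∀ w : W, MeasurePreserving (fun v : V => w • v) m m)
  (hlv : Measurable c.lv) (hUm : MeasurableSet c.U)
  (D : Set V) (hDm : MeasurableSet D) (hD : ∀ v : V, ∃! w : W, w • v ∈ D)
  (hD0 : m D ≠ 0) (hDtop : m D ≠ ⊤)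
  (hgood : ∀ (v : V) (j : ℤ), (c.lv v).2 ≠ (j : Od))

include c in
theorem ret_comm (γ : Γ) (v : V) : ret D hD (γ • ret D hD v) = ret D hD (γ • v) := by
  obtain ⟨w, hw⟩ := exists_ret D hD v
  rw [hw, c.comm, ret_smul]

/-- the induced action -/
@[reducible] noncomputable def indAct : MulAction Γ D where
  smul γ x := ⟨ret D hD (γ • x.1), ret_mem D hD _⟩
  one_smul x := by
    apply Subtype.ext
    show ret D hD ((1 : Γ) • x.1) = x.1
    rw [one_smul, ret_of_mem D hD x.2]
  mul_smul γ γ' x := by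
    apply Subtype.ext
    show ret D hD ((γ * γ') • x.1) = ret D hD (γ • ret D hD (γ' • x.1))
    rw [ret_comm c D hD, mul_smul]

include hmΓ hmW hDm c in
theorem meas_ret (γ : Γ) (E : Set V) (hE : MeasurableSet E) (hED : E ⊆ D) :
    m {v | v ∈ D ∧ ret D hD (γ • v) ∈ E} = m E := by
  have hretm : Measurable (ret D hD) := measurable_ret D hD (fun w => (hmW w).measurable) hDm
  set A : Set V := ret D hD ⁻¹' E with hA
  have hAm : MeasurableSet A := hretm hE
  have hAinv : ∀ w : W, (fun v => w • v) ⁻¹' A = A := by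
    intro w; ext v
    simp only [hA, mem_preimage, ret_smul]
  haveI : SMulInvariantMeasure W V m :=
    ⟨fun w s hs => (hmW w).measure_preimage hs.nullMeasurableSet⟩
  haveI : MeasurableConstSMul W V := ⟨fun w => (hmW w).measurable⟩
  have hfd1 : IsFundamentalDomain W D m := IsFundamentalDomain.mk' hDm.nullMeasurableSet hD
  set D' : Set V := (fun v => γ⁻¹ • v) ⁻¹' D with hD'
  have hD'm : MeasurableSet D' := (hmΓ γ⁻¹).measurable hDm
  have hfd2 : IsFundamentalDomain W D' m := by
    refine IsFundamentalDomain.mk' hD'm.nullMeasurableSet ?_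
    intro v
    obtain ⟨w, hw, hw'⟩ := hD (γ⁻¹ • v)
    refine ⟨w, ?_, ?_⟩
    · show γ⁻¹ • w • v ∈ D
      rw [c.comm]; exact hw
    · intro w' h
      apply hw'
      have h' : γ⁻¹ • w' • v ∈ D := h
      rw [c.comm] at h'; exact h'
  have h1 := hfd1.measure_set_eq hfd2 hAm hAinv
  have h2 : A ∩ D = E := by
    ext v
    constructor
    · rintro ⟨h, h'⟩
      have h3 : ret D hD v ∈ E := h
      rwa [ret_of_mem D hD h'] at h3
    · intro h
      refine ⟨?_, hED h⟩
      show ret D hD v ∈ E
      rw [ret_of_mem D hD (hED h)]; exact h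
  rw [h2] at h1
  rw [h1, ← (hmΓ γ).measure_preimage (hAm.inter hD'm).nullMeasurableSet]
  congr 1
  ext v
  simp only [mem_ofPred_eq, mem_preimage, mem_inter_iff, hA, hD', inv_smul_smul]
  tauto

/-- sub-relations -/
def SR (n : ℕ) : Set (D × D) :=
  {p | (∃ w : W, ∃ γ : Γ, p.2.1 = γ • w • p.1.1) ∧ blk (n + 1) (c.lv p.1.1).2 (c.lv p.2.1).2}

theorem measurable_blk (n : ℕ) : MeasurableSet {p : Od × Od | blk n p.1 p.2} := by
  have h1 : Measurable (fun p : Od × Od => p.1 + ((rr n p.2 - rr n p.1 : ℤ) : Od)) := by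
    have h2 : Measurable (fun k : ℤ => (k : Od)) := measurable_of_countable _
    have h3 : Measurable (fun p : Od × Od => rr n p.2 - rr n p.1) :=
      ((measurable_rr n).comp measurable_snd).sub ((measurable_rr n).comp measurable_fst)
    exact measurable_fst.add (h2.comp h3)
  exact measurableSet_eq_fun measurable_snd h1

include hmΓ hmW hlv in
theorem measurable_orb (n : ℕ) : MeasurableSet {p : V × V |
    (∃ w : W, ∃ γ : Γ, p.2 = γ • w • p.1) ∧ blk (n + 1) (c.lv p.1).2 (c.lv p.2).2} := by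
  have : {p : V × V | (∃ w : W, ∃ γ : Γ, p.2 = γ • w • p.1) ∧
      blk (n + 1) (c.lv p.1).2 (c.lv p.2).2} =
      (⋃ w : W, ⋃ γ : Γ, {p : V × V | p.2 = γ • w • p.1}) ∩
      {p : V × V | blk (n + 1) (c.lv p.1).2 (c.lv p.2).2} := by
    ext p; simp
  rw [this]
  refine MeasurableSet.inter ?_ ?_
  · refine MeasurableSet.iUnion fun w => MeasurableSet.iUnion fun γ => ?_
    exact measurableSet_eq_fun measurable_snd
      ((hmΓ γ).measurable.comp ((hmW w).measurable.comp measurable_fst))
  · have h1 : Measurable (fun p : V × V => ((c.lv p.1).2, (c.lv p.2).2)) :=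
      (measurable_snd.comp (hlv.comp measurable_fst)).prodMk
        (measurable_snd.comp (hlv.comp measurable_snd))
    exact h1 (measurable_blk (n + 1))

include hmΓ hmW hlv hUm in
theorem measurable_dn (n : ℕ) : MeasurableSet {p : V × V | c.dn n p.1 p.2} := by
  have hq : Measurable c.q := measurable_ret c.U c.hU (fun γ => (hmΓ γ).measurable) hUm
  have hL : Measurable (c.L n) := (measurable_rr (n + 1)).comp (measurable_snd.comp hlv)
  have hpar : Measurable (fun v => (c.lv v).1) := measurable_fst.comp hlv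
  have : {p : V × V | c.dn n p.1 p.2} =
      ({p : V × V | p.1 ∉ c.U} ∩ {p : V × V | p.2 = c.q p.1}) ∪
      ⋃ s : Gen, ({p : V × V | p.1 ∈ c.U} ∩ ({p : V × V | isUp s (c.lv p.1).1 = false} ∩
        ({p : V × V | p.2 = c.q (gen s • p.1)} ∩
        ({p : V × V | c.L n p.1 = 1} ∪ ({p : V × V | 2 ≤ c.L n p.1} ∩
          {p : V × V | s = dS (c.lv p.1).1}))))) := by
    ext p
    unfold Cpl.dn
    simp only [mem_ofPred_eq, mem_union, mem_inter_iff, mem_iUnion]
    constructor
    · rintro (h | ⟨h1, s, h2, h3, h4⟩)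
      · left; exact h
      · right; exact ⟨s, h1, h2, h3, h4⟩
    · rintro (h | ⟨s, h1, h2, h3, h4⟩)
      · left; exact h
      · right; exact ⟨h1, s, h2, h3, h4⟩
  rw [this]
  refine MeasurableSet.union (MeasurableSet.inter ?_ ?_) (MeasurableSet.iUnion fun s =>
    MeasurableSet.inter ?_ (MeasurableSet.inter ?_ (MeasurableSet.inter ?_
      (MeasurableSet.union ?_ (MeasurableSet.inter ?_ ?_)))))
  · exact (measurable_fst hUm).compl
  · exact measurableSet_eq_fun measurable_snd (hq.comp measurable_fst)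
  · exact measurable_fst hUm
  · have : MeasurableSet {e : Par | isUp s e = false} := MeasurableSet.of_discrete
    exact (hpar.comp measurable_fst) this
  · exact measurableSet_eq_fun measurable_snd
      (hq.comp ((hmW (gen s)).measurable.comp measurable_fst))
  · exact (hL.comp measurable_fst) (measurableSet_singleton 1)
  · exact (hL.comp measurable_fst) (measurableSet_Ici (a := (2 : ℤ)))
  · have : MeasurableSet {e : Par | s = dS e} := MeasurableSet.of_discrete
    exact (hpar.comp measurable_fst) this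

include hmΓ hmW hlv hUm hDm in
/-- treeing of the sub-relation on `D` -/
theorem exists_treeing (n : ℕ) : ∃ G : SimpleGraph D, MeasurableSet {p : D × D | G.Adj p.1 p.2} ∧
    G.IsAcyclic ∧ ∀ x y : D, G.Reachable x y ↔ (x, y) ∈ SR c D n := by
  obtain ⟨e, he⟩ := exists_surjective_nat (Γ × W)
  have hTm : MeasurableSet {p : V × V | (c.T n).Adj p.1 p.2} := by
    have h1 := measurable_dn c m hmΓ hmW hlv hUm n
    have h2 : MeasurableSet {p : V × V | c.dn n p.2 p.1} := measurable_swap h1
    exact h1.union h2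
  obtain ⟨G, hG1, hG2, hG3, hG4, hG5⟩ := contraction (fun i v => (e i).1 • (e i).2 • v)
    (fun i => (hmΓ _).measurable.comp (hmW _).measurable) (c.T n) hTm (by
      intro v v' h
      obtain ⟨⟨w, γ, rfl⟩, -⟩ := (c.reach_iff n v v').1 h
      obtain ⟨i, hi⟩ := he (γ, w)
      exact ⟨i, by rw [hi]⟩) (c.T_acyclic n) D hDm
  refine ⟨G.comap (Subtype.val : D → V), ?_, ?_, ?_⟩
  · have : {p : D × D | (G.comap (Subtype.val : D → V)).Adj p.1 p.2} =
        (fun p : D × D => (p.1.1, p.2.1)) ⁻¹' {p : V × V | G.Adj p.1 p.2} := by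
      ext p; simp
    rw [this]
    exact ((measurable_subtype_coe.comp measurable_fst).prodMk
      (measurable_subtype_coe.comp measurable_snd)) hG1
  · exact hG5.of_comap (Function.Embedding.subtype _)
  · intro x y
    have key : (G.comap (Subtype.val : D → V)).Reachable x y ↔ G.Reachable x.1 y.1 := by
      constructor
      · intro h
        exact h.map (SimpleGraph.Hom.comap Subtype.val G)
      · rintro ⟨p⟩
        have : ∀ (a b : V) (_ : G.Walk a b) (ha : a ∈ D) (hb : b ∈ D),
            (G.comap (Subtype.val : D → V)).Reachable ⟨a, ha⟩ ⟨b, hb⟩ := by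
          intro a b p
          induction p with
          | nil => intro ha hb; exact Reachable.refl _
          | @cons a' b' c' hadj p ih =>
            intro ha hb
            have hb' := (hG2 _ _ hadj).2
            refine Reachable.trans ?_ (ih hb' hb)
            apply Adj.reachable
            show G.Adj a' b'
            exact hadj
        exact this _ _ p x.2 y.2
    rw [key]
    constructor
    · rintro ⟨p⟩
      have hT : (c.T n).Reachable x.1 y.1 := by
        have : ∀ (a b : V) (_ : G.Walk a b), (c.T n).Reachable a b := by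
          intro a b p
          induction p with
          | nil => exact Reachable.refl _
          | cons hadj p ih => exact (hG3 _ _ hadj).trans ih
        exact this _ _ p
      exact (c.reach_iff n _ _).1 hT
    · intro h
      exact hG4 _ x.2 _ y.2 ((c.reach_iff n _ _).2 h)

include c hmΓ hmW hlv hUm hDm hD hD0 hDtop hgood in
theorem concl : Concl Γ := by
  classical
  letI act : MulAction Γ D := indAct c D hD
  have hact : ∀ (γ : Γ) (x : D), (γ • x : D).1 = ret D hD (γ • x.1) := fun γ x => rfl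
  have hretm : Measurable (ret D hD) := measurable_ret D hD (fun w => (hmW w).measurable) hDm
  haveI : StandardBorelSpace D := hDm.standardBorel
  have hcomap : ∀ E : Set D, MeasurableSet E →
      (m.comap (Subtype.val : D → V)) E = m (Subtype.val '' E) := fun E hE =>
    (MeasurableEmbedding.subtype_coe hDm).comap_apply m E
  set μ : Measure D := (m D)⁻¹ • m.comap (Subtype.val : D → V) with hμ
  have hμE : ∀ E : Set D, MeasurableSet E → μ E = (m D)⁻¹ * m (Subtype.val '' E) := by
    intro E hE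
    rw [hμ, Measure.smul_apply, hcomap E hE, smul_eq_mul]
  haveI hprob : IsProbabilityMeasure μ := by
    constructor
    rw [hμE _ MeasurableSet.univ, image_univ, Subtype.range_coe]
    exact ENNReal.inv_mul_cancel hD0 hDtop
  have hsm : ∀ γ : Γ, Measurable (fun x : D => γ • x) := by
    intro γ
    apply Measurable.subtype_mk
    exact hretm.comp ((hmΓ γ).measurable.comp measurable_subtype_coe)
  have horb : ∀ x y : D, (∃ g : Γ, g • x = y) ↔ ∃ w : W, ∃ γ : Γ, y.1 = γ • w • x.1 := by
    intro x y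
    constructor
    · rintro ⟨γ, rfl⟩
      obtain ⟨w, hw⟩ := exists_ret D hD (γ • x.1)
      exact ⟨w, γ, by rw [hact, hw, c.comm]⟩
    · rintro ⟨w, γ, h⟩
      refine ⟨γ, Subtype.ext ?_⟩
      rw [hact]
      have : w • γ • x.1 ∈ D := by rw [← c.comm, ← h]; exact y.2
      rw [ret_eq D hD this, h, c.comm]
  refine ⟨D, inferInstance, inferInstance, μ, hprob, act, ?_, ?_, fun n => SR c D n, ?_, ?_, ?_,
    ?_, ?_, ?_, ?_⟩
  · intro γ
    refine ⟨hsm γ, ?_⟩
    ext E hE
    rw [Measure.map_apply (hsm γ) hE, hμE _ ((hsm γ) hE), hμE _ hE]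
    congr 1
    have hE' : MeasurableSet (Subtype.val '' E : Set V) := hDm.subtype_image hE
    have h1 := meas_ret c m hmΓ hmW D hDm hD γ (Subtype.val '' E) hE' (by
      rintro _ ⟨x, -, rfl⟩; exact x.2)
    rw [← h1]
    congr 1
    ext v
    constructor
    · rintro ⟨x, hx, rfl⟩
      exact ⟨x.2, ⟨γ • x, hx, rfl⟩⟩
    · rintro ⟨hv, y, hy, hyv⟩
      refine ⟨⟨v, hv⟩, ?_, rfl⟩
      show γ • (⟨v, hv⟩ : D) ∈ E
      have : γ • (⟨v, hv⟩ : D) = y := Subtype.ext hyv.symm
      rw [this]; exact hy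
  · refine Filter.Eventually.of_forall fun x γ hx => ?_
    have h1 : ret D hD (γ • x.1) = x.1 := congrArg Subtype.val hx
    obtain ⟨w, hw⟩ := exists_ret D hD (γ • x.1)
    rw [hw, ← c.comm] at h1
    exact (c.free γ w x.1 h1).1
  · intro n
    have h1 := measurable_orb c m hmΓ hmW hlv n
    exact ((measurable_subtype_coe.comp measurable_fst).prodMk
      (measurable_subtype_coe.comp measurable_snd)) h1
  · intro n x
    exact ⟨⟨1, 1, by simp⟩, blk_refl _ _⟩
  · rintro n x y ⟨⟨w, γ, h⟩, hb⟩
    refine ⟨⟨w⁻¹, γ⁻¹, ?_⟩, blk_symm hb⟩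
    show x.1 = γ⁻¹ • w⁻¹ • y.1
    have h' : y.1 = γ • w • x.1 := h
    rw [h', ← c.comm γ w⁻¹]
    simp
  · rintro n x y z ⟨⟨w, γ, h⟩, hb⟩ ⟨⟨w', γ', h'⟩, hb'⟩
    refine ⟨⟨w' * w, γ' * γ, ?_⟩, blk_trans hb hb'⟩
    show z.1 = (γ' * γ) • (w' * w) • x.1
    have e1 : y.1 = γ • w • x.1 := h
    have e2 : z.1 = γ' • w' • y.1 := h'
    rw [e2, e1, mul_smul, mul_smul, c.comm γ w']
  · rintro n ⟨x, y⟩ ⟨h, hb⟩
    exact ⟨h, blk_succ hb⟩
  · intro x y
    rw [horb]
    constructor
    · rintro ⟨n, h, -⟩; exact h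
    · rintro ⟨w, γ, h⟩
      have h1 := actP_compare (A := Od) w (c.lv x.1).1 0 ((c.lv x.1).2)
      simp only [Int.cast_zero, add_zero] at h1
      have h2 : (c.lv y.1).2 = (c.lv x.1).2 +
          (((actP ℤ w ((c.lv x.1).1, 0)).2 : ℤ) : Od) := by
        rw [h, c.lv_G, c.lv_W]
        exact congrArg Prod.snd h1
      obtain ⟨n, hn⟩ := exists_blk (c.lv x.1).2 (hgood x.1) (actP ℤ w ((c.lv x.1).1, 0)).2
      rw [← h2] at hn
      exact ⟨n, ⟨w, γ, h⟩, hn⟩
  · intro n
    obtain ⟨G, hG1, hG2, hG3⟩ := exists_treeing c m hmΓ hmW hlv hUm D hDm n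
    have hfr : SimpleGraph.fromRel (fun x y : D => (x, y) ∈ {p : D × D | G.Adj p.1 p.2}) = G := by
      ext x y
      simp only [SimpleGraph.fromRel_adj, mem_ofPred_eq]
      constructor
      · rintro ⟨-, h | h⟩
        · exact h
        · exact h.symm
      · intro h; exact ⟨h.ne, Or.inl h⟩
    refine ⟨{p : D × D | G.Adj p.1 p.2}, hG1, ?_, univ, MeasurableSet.univ, by simp,
      fun _ _ _ => mem_univ _, ?_, ?_⟩
    · rintro ⟨x, y⟩ h
      exact (hG3 x y).1 (Adj.reachable h)
    · rw [hfr]; exact hG2.induce _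
    · intro x y
      rw [hfr, ← (SimpleGraph.induceUnivIso G).reachable_iff, ← hG3]
      rfl

end Main

end Pool.Agent.H67R2
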