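import Pool.Agent.H67R2.Refl

set_option autoImplicit false

namespace Pool.Agent.H67R2

open MeasureTheory Topology Matrix

theorem psi_discrete : ∃ U ∈ 𝓝 (1 : LG), ∀ w, psi w ∈ U → w = 1 := by
  refine ⟨{g : LG | ∀ i j, |g.1 i j - (1 : M4) i j| < 1}, ?_, ?_⟩
  · have : {g : LG | ∀ i j, |g.1 i j - (1 : M4) i j| < 1} =
        ⋂ i, ⋂ j, {g : LG | |g.1 i j - (1 : M4) i j| < 1} := by
      ext g; simp
    rw [this]
    refine (Filter.iInter_mem.2 fun i => Filter.iInter_mem.2 fun j => ?_)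
    apply IsOpen.mem_nhds
    · exact isOpen_lt ((LG.continuous_entry i j).sub continuous_const).abs continuous_const
    · simp
  · intro w hw
    apply psi_injective
    rw [map_one]
    apply LG.ext'
    obtain ⟨A, hA⟩ := psi_int w
    ext i j
    have := hw i j
    rw [hA] at this ⊢
    simp only [castM, Matrix.map_apply, LG.coe_one] at this ⊢
    have h1 : ((1 : M4) i j) = (((1 : Matrix (Fin 4) (Fin 4) ℤ) i j : ℤ) : ℝ) := by
      rw [Matrix.one_apply, Matrix.one_apply]; split_ifs <;> simp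
    rw [h1] at this ⊢
    simp only [eq_intCast] at this ⊢
    rw [← Int.cast_sub, ← Int.cast_abs] at this
    have h2 : |A i j - (1 : Matrix (Fin 4) (Fin 4) ℤ) i j| < 1 := by exact_mod_cast this
    rw [Int.abs_lt_one_iff] at h2
    have : A i j = (1 : Matrix (Fin 4) (Fin 4) ℤ) i j := by omega
    rw [this]

theorem cover_vec (x : Fin 4 → ℝ) (hx : Fut x) :
    ∃ w : W, ∀ s, B ((psi w).1 *ᵥ x) (nR s) ≤ 0 := by
  classical
  choose A hA using psi_int
  -- height function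
  set h : W → ℝ := fun w => ((psi w).1 *ᵥ x) 3 with hh
  have hrow : ∀ w, h w = ∑ j, (A w 3 j : ℝ) * x j := by
    intro w
    simp only [hh, Matrix.mulVec, dotProduct]
    refine Finset.sum_congr rfl fun j _ => ?_
    rw [hA]; rfl
  obtain ⟨hx1, hx3⟩ := hx
  -- a positive constant
  set r : ℝ := Real.sqrt (x 0 ^ 2 + x 1 ^ 2 + x 2 ^ 2) with hr
  have hr0 : 0 ≤ r := Real.sqrt_nonneg _
  have hrsq : r ^ 2 = x 0 ^ 2 + x 1 ^ 2 + x 2 ^ 2 := Real.sq_sqrt (by positivity)
  have hrx : r < x 3 := by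
    apply lt_of_pow_lt_pow_left₀ 2 hx3.le
    rw [hrsq]; unfold B at hx1; nlinarith
  have hδ : 0 < x 3 - r := by linarith
  have hbound : ∀ w, (A w 3 3 : ℝ) * (x 3 - r) ≤ h w := by
    intro w
    have h1 := LG.row (psi w).1 (psi w).2.1 3 3
    simp only [if_true] at h1
    have hg := (psi w).2.2
    rw [hA] at h1 hg
    simp only [castM, Matrix.map_apply, eq_intCast] at h1 hg
    rw [hrow, Fin.sum_univ_four]
    have cs : ((A w 3 0 : ℝ) * x 0 + (A w 3 1 : ℝ) * x 1 + (A w 3 2 : ℝ) * x 2) ^ 2 ≤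
        ((A w 3 3 : ℝ) * r) ^ 2 := by
      rw [mul_pow, hrsq]
      have : ((A w 3 0 : ℝ) * x 0 + (A w 3 1 : ℝ) * x 1 + (A w 3 2 : ℝ) * x 2) ^ 2 ≤
        ((A w 3 0 : ℝ) ^ 2 + (A w 3 1 : ℝ) ^ 2 + (A w 3 2 : ℝ) ^ 2) *
          (x 0 ^ 2 + x 1 ^ 2 + x 2 ^ 2) := by
        nlinarith [sq_nonneg ((A w 3 0 : ℝ) * x 1 - (A w 3 1 : ℝ) * x 0),
          sq_nonneg ((A w 3 0 : ℝ) * x 2 - (A w 3 2 : ℝ) * x 0),
          sq_nonneg ((A w 3 1 : ℝ) * x 2 - (A w 3 2 : ℝ) * x 1)]
      refine this.trans ?_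
      apply mul_le_mul_of_nonneg_right _ (by positivity)
      nlinarith
    have := abs_le_of_sq_le_sq cs (by positivity)
    rw [abs_le] at this
    nlinarith [this.1]
  -- finitely many rows below the initial height
  have hfin : ((fun w : W => A w 3) '' {w | h w ≤ h 1}).Finite := by
    obtain ⟨N, hN⟩ := exists_nat_gt (h 1 / (x 3 - r))
    apply (Set.finite_Icc (fun _ : Fin 4 => -(N : ℤ)) (fun _ => (N : ℤ))).subset
    rintro _ ⟨w, hw, rfl⟩
    have h33 : (A w 3 3 : ℝ) < N := by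
      have h1 := (hbound w).trans hw
      rw [div_lt_iff₀ hδ] at hN
      have h2 : (A w 3 3 : ℝ) * (x 3 - r) < N * (x 3 - r) := lt_of_le_of_lt h1 hN
      exact lt_of_mul_lt_mul_right h2 hδ.le
    have h33' : A w 3 3 < N := by exact_mod_cast h33
    have h1 := LG.row (psi w).1 (psi w).2.1 3 3
    simp only [if_true] at h1
    have hg := (psi w).2.2
    rw [hA] at h1 hg
    simp only [castM, Matrix.map_apply, eq_intCast] at h1 hg
    have h1' : A w 3 0 * A w 3 0 + A w 3 1 * A w 3 1 + A w 3 2 * A w 3 2 - A w 3 3 * A w 3 3 = -1 := by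
      exact_mod_cast h1
    have hg' : 0 < A w 3 3 := by exact_mod_cast hg
    have hj : ∀ j, |A w 3 j| ≤ (N : ℤ) := by
      intro j
      apply abs_le_of_sq_le_sq _ (by positivity)
      have : A w 3 3 ^ 2 ≤ (N : ℤ) ^ 2 := by
        apply pow_le_pow_left₀ hg'.le h33'.le
      fin_cases j <;> simp only [Fin.zero_eta, Fin.mk_one, Fin.reduceFinMk] <;>
        nlinarith [sq_nonneg (A w 3 0), sq_nonneg (A w 3 1), sq_nonneg (A w 3 2)]
    rw [Set.mem_Icc]
    constructor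
    · intro j; exact (abs_le.1 (hj j)).1
    · intro j; exact (abs_le.1 (hj j)).2
  obtain ⟨_, ⟨w0, hw0, rfl⟩, hmin⟩ := Set.exists_min_image _
    (fun v : Fin 4 → ℤ => ∑ j, (v j : ℝ) * x j) hfin
    ⟨_, ⟨1, le_refl (h 1), rfl⟩⟩
  have hmin' : ∀ w, h w0 ≤ h w := by
    intro w
    by_cases hw : h w ≤ h 1
    · have := hmin _ ⟨w, hw, rfl⟩
      rw [hrow, hrow]; exact this
    · exact le_trans hw0 (not_le.1 hw).le
  refine ⟨w0, fun s => ?_⟩
  by_contra hcon
  push Not at hcon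
  have h1 := hmin' (gen s * w0)
  have h2 : h (gen s * w0) = h w0 - B ((psi w0).1 *ᵥ x) (nR s) := by
    show ((psi (gen s * w0)).1 *ᵥ x) 3 = _
    rw [map_mul, psi_gen, LG.coe_mul, ← Matrix.mulVec_mulVec, RL_mulVec]
    have : nR s 3 = 1 := by
      obtain ⟨a, i⟩ := s
      cases a <;> fin_cases i <;> simp [nR, nZ]
    simp [this, hh]
  linarith

/-- base point of a frame, in the model where lattices act from the right -/
def pt (g : LG) : Fin 4 → ℝ := (g⁻¹).1 *ᵥ e3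

theorem Fut_pt (g : LG) : Fut (pt g) := Fut_mulVec _ _ Fut_e3

theorem pt_mul_inv (g h : LG) : pt (g * h⁻¹) = h.1 *ᵥ pt g := by
  unfold pt
  rw [_root_.mul_inv_rev, inv_inv, LG.coe_mul, ← Matrix.mulVec_mulVec]

/-- frames based in the octahedron. -/
def FP : Set LG := {g | ∀ s, B (pt g) (nR s) ≤ 0}

theorem cover_LG (g : LG) : ∃ w : W, g * (psi w)⁻¹ ∈ FP := by
  obtain ⟨w, hw⟩ := cover_vec (pt g) (Fut_pt g)
  refine ⟨w, fun s => ?_⟩
  rw [pt_mul_inv]
  exact hw s

theorem continuous_pt : Continuous pt := by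
  unfold pt
  exact (LG.continuous_coe.comp continuous_inv).matrix_mulVec continuous_const

theorem continuous_pt_apply (i : Fin 4) : Continuous (fun g => pt g i) :=
  (continuous_apply i).comp continuous_pt

theorem pt_form (g : LG) : pt g 0 ^ 2 + pt g 1 ^ 2 + pt g 2 ^ 2 - pt g 3 ^ 2 = -1 := by
  have h : B (pt g) (pt g) = -1 := by
    unfold pt
    rw [B_mulVec]; simp [B, e3]
  unfold B at h
  linarith

theorem pt_three (g : LG) : pt g 3 = g.1 3 3 := by
  unfold pt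
  rw [LG.coe_inv]
  simp [Matrix.mulVec, dotProduct, Fin.sum_univ_four, e3, Matrix.mul_apply, LG.J_apply,
    Matrix.transpose_apply]

end Pool.Agent.H67R2
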