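import Pool.Agent.H67R2.Cover

set_option autoImplicit false

namespace Pool.Agent.H67R2

open MeasureTheory Topology Matrix Set

/-- Haar measure on the Lorentz group. -/
noncomputable def mu : Measure LG := Measure.haar

instance : Measure.IsHaarMeasure mu := by unfold mu; infer_instance
instance : SigmaFinite mu := by unfold mu; infer_instance
instance : mu.Regular := by unfold mu; infer_instance
instance : mu.InnerRegular := inferInstance

/-- unimodular elements -/
def Uni (g : LG) : Prop := Measure.modularCharacter g = 1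

theorem nnreal_sq_eq_one {a : NNReal} (h : a * a = 1) : a = 1 := by
  have : (a : ℝ) * a = 1 := by exact_mod_cast h
  have h0 : (0 : ℝ) ≤ a := a.2
  have : (a : ℝ) = 1 := by nlinarith
  exact_mod_cast this

theorem Uni_of_sq {g : LG} (h : g * g = 1) : Uni g := by
  apply nnreal_sq_eq_one
  rw [← map_mul, h, map_one]

theorem Uni_of_conj {g r : LG} (h : r * g * r⁻¹ = g⁻¹) : Uni g := by
  have h1 : Measure.modularCharacter (r * g * r⁻¹) = Measure.modularCharacter g := by
    rw [map_mul, map_mul, mul_right_comm, ← map_mul, mul_inv_cancel, map_one, one_mul]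
  have h2 : Measure.modularCharacter g⁻¹ * Measure.modularCharacter g = 1 := by
    rw [← map_mul, inv_mul_cancel, map_one]
  rw [← h, h1] at h2
  exact nnreal_sq_eq_one h2

theorem Uni_psi (w : W) : Uni (psi w) := by
  induction w using W_induction with
  | h1 => simp [Uni]
  | h2 s w ih =>
    unfold Uni at ih ⊢
    rw [map_mul, map_mul, ih, mul_one, psi_gen]
    apply Uni_of_sq
    rw [← psi_gen, ← map_mul, gen_mul_self, map_one]

theorem Uni_inv {g : LG} (h : Uni g) : Uni g⁻¹ := by
  have h2 : Measure.modularCharacter g⁻¹ * Measure.modularCharacter g = 1 := by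
    rw [← map_mul, inv_mul_cancel, map_one]
  unfold Uni at h ⊢
  rw [h, mul_one] at h2
  exact h2

theorem map_mul_right {g : LG} (h : Uni g) : Measure.map (· * g) mu = mu := by
  rw [Measure.map_right_mul_eq_modularCharacterFun_smul]
  have : Measure.modularCharacterFun g = 1 := h
  rw [this, one_smul]

theorem measurePreserving_mul_right {g : LG} (h : Uni g) :
    MeasurePreserving (· * g) mu mu := ⟨(continuous_mul_const g).measurable, map_mul_right h⟩

theorem measurable_pt : Measurable pt := continuous_pt.measurable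

/-- push-forward of Haar measure to hyperbolic space. -/
noncomputable def nu : Measure (Fin 4 → ℝ) := mu.map pt

theorem nu_apply {P : Set (Fin 4 → ℝ)} (hP : MeasurableSet P) : nu P = mu (pt ⁻¹' P) :=
  Measure.map_apply measurable_pt hP

theorem nu_preimage (h : LG) (hU : Uni h) {P : Set (Fin 4 → ℝ)} (hP : MeasurableSet P) :
    nu ((fun x => h.1 *ᵥ x) ⁻¹' P) = nu P := by
  have hm : Measurable (fun x : Fin 4 → ℝ => h.1 *ᵥ x) :=
    (continuous_const.matrix_mulVec continuous_id).measurable
  rw [nu_apply (hP.preimage hm), nu_apply hP]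
  have : pt ⁻¹' ((fun x => h.1 *ᵥ x) ⁻¹' P) = (fun g => g * h⁻¹) ⁻¹' (pt ⁻¹' P) := by
    ext g
    simp only [mem_preimage, pt_mul_inv]
  rw [this]
  exact (measurePreserving_mul_right (Uni_inv hU)).measure_preimage
    (hP.preimage measurable_pt).nullMeasurableSet

/-! ### explicit isometries -/

/-- boost matrix -/
noncomputable def aM : M4 := !![5/4, 0, 0, 3/4; 0, 1, 0, 0; 0, 0, 1, 0; 3/4, 0, 0, 5/4]

noncomputable def aL : LG := ⟨aM, by
  constructor
  · ext i j
    rw [LG.form_apply, LG.J_apply]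
    fin_cases i <;> fin_cases j <;> simp [aM] <;> norm_num
  · simp [aM]⟩

/-- parabolic matrix -/
def nM : M4 := !![-1, 2, 0, 2; -2, 1, 0, 2; 0, 0, 1, 0; -2, 2, 0, 3]

def nL : LG := ⟨nM, by
  constructor
  · ext i j
    rw [LG.form_apply, LG.J_apply]
    fin_cases i <;> fin_cases j <;> simp [nM] <;> norm_num
  · simp [nM]⟩

/-- flip of the first coordinate -/
def flM : M4 := !![-1, 0, 0, 0; 0, 1, 0, 0; 0, 0, 1, 0; 0, 0, 0, 1]

def flL : LG := ⟨flM, by
  constructor
  · ext i j
    rw [LG.form_apply, LG.J_apply]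
    fin_cases i <;> fin_cases j <;> simp [flM]
  · simp [flM]⟩

/-- flip of the second coordinate -/
def fl1M : M4 := !![1, 0, 0, 0; 0, -1, 0, 0; 0, 0, 1, 0; 0, 0, 0, 1]

def fl1L : LG := ⟨fl1M, by
  constructor
  · ext i j
    rw [LG.form_apply, LG.J_apply]
    fin_cases i <;> fin_cases j <;> simp [fl1M]
  · simp [fl1M]⟩

/-- swap of coordinates 0 and 1 -/
def s1M : M4 := !![0, 1, 0, 0; 1, 0, 0, 0; 0, 0, 1, 0; 0, 0, 0, 1]

def s1L : LG := ⟨s1M, by
  constructor
  · ext i j
    rw [LG.form_apply, LG.J_apply]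
    fin_cases i <;> fin_cases j <;> simp [s1M]
  · simp [s1M]⟩

/-- swap of coordinates 0 and 2 -/
def s2M : M4 := !![0, 0, 1, 0; 0, 1, 0, 0; 1, 0, 0, 0; 0, 0, 0, 1]

def s2L : LG := ⟨s2M, by
  constructor
  · ext i j
    rw [LG.form_apply, LG.J_apply]
    fin_cases i <;> fin_cases j <;> simp [s2M]
  · simp [s2M]⟩

theorem Uni_flL : Uni flL := Uni_of_sq (LG.ext' (by
  ext i j
  fin_cases i <;> fin_cases j <;> simp [flL, flM, Matrix.mul_apply, Fin.sum_univ_four]))

theorem Uni_fl1L : Uni fl1L := Uni_of_sq (LG.ext' (by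
  ext i j
  fin_cases i <;> fin_cases j <;> simp [fl1L, fl1M, Matrix.mul_apply, Fin.sum_univ_four]))

theorem Uni_s1L : Uni s1L := Uni_of_sq (LG.ext' (by
  ext i j
  fin_cases i <;> fin_cases j <;> simp [s1L, s1M, Matrix.mul_apply, Fin.sum_univ_four]))

theorem Uni_s2L : Uni s2L := Uni_of_sq (LG.ext' (by
  ext i j
  fin_cases i <;> fin_cases j <;> simp [s2L, s2M, Matrix.mul_apply, Fin.sum_univ_four]))

theorem Uni_mul {g h : LG} (hg : Uni g) (hh : Uni h) : Uni (g * h) := by
  unfold Uni at *; rw [map_mul, hg, hh, one_mul]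

theorem Uni_of_mul_left {g h : LG} (hg : Uni g) (hgh : Uni (g * h)) : Uni h := by
  unfold Uni at *; rwa [map_mul, hg, one_mul] at hgh

theorem Uni_aL : Uni aL := by
  apply Uni_of_mul_left Uni_flL
  apply Uni_of_sq
  apply LG.ext'
  ext i j
  fin_cases i <;> fin_cases j <;>
    simp [flL, flM, aL, aM, Matrix.mul_apply, Fin.sum_univ_four] <;> norm_num

theorem Uni_nL : Uni nL := by
  apply Uni_of_mul_left Uni_fl1L
  apply Uni_of_sq
  apply LG.ext'
  ext i j
  fin_cases i <;> fin_cases j <;>
    simp [fl1L, fl1M, nL, nM, Matrix.mul_apply, Fin.sum_univ_four] <;> norm_num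

end Pool.Agent.H67R2
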