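import Pool.Agent.H67R2.Covol

set_option autoImplicit false

namespace Pool.Agent.H67R2

open MeasureTheory Topology Matrix Set

/-- depth in the cusp at `e0 + e3` -/
def tt (x : Fin 4 → ℝ) : ℝ := x 3 - x 0

theorem continuous_tt : Continuous tt := by unfold tt; fun_prop

/-- boxes in the cusp -/
def Rg (j : ℕ) (α β γ : ℝ) : Set (Fin 4 → ℝ) :=
  {x | (1/2 : ℝ)^j < tt x ∧ tt x ≤ 2 * (1/2 : ℝ)^j ∧ α * tt x ≤ x 1 ∧ x 1 < β * tt x ∧
    |x 2| ≤ γ * tt x}

theorem measurableSet_Rg (j : ℕ) (α β γ : ℝ) : MeasurableSet (Rg j α β γ) := by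
  have ht : Measurable tt := continuous_tt.measurable
  have h1 : Measurable (fun x : Fin 4 → ℝ => x 1) := measurable_pi_apply 1
  have h2 : Measurable (fun x : Fin 4 → ℝ => x 2) := measurable_pi_apply 2
  refine MeasurableSet.inter ?_ (MeasurableSet.inter ?_ (MeasurableSet.inter ?_
    (MeasurableSet.inter ?_ ?_)))
  · exact measurableSet_lt measurable_const ht
  · exact measurableSet_le ht measurable_const
  · exact measurableSet_le (ht.const_mul α) h1
  · exact measurableSet_lt h1 (ht.const_mul β)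
  · exact measurableSet_le (by fun_prop) (ht.const_mul γ)

theorem aL_apply (x : Fin 4 → ℝ) :
    aL.1 *ᵥ x = ![5/4 * x 0 + 3/4 * x 3, x 1, x 2, 3/4 * x 0 + 5/4 * x 3] := by
  ext i
  fin_cases i <;> simp [aL, aM, Matrix.mulVec, dotProduct, Fin.sum_univ_four]

theorem nL_apply (x : Fin 4 → ℝ) :
    nL.1 *ᵥ x = ![-x 0 + 2 * x 1 + 2 * x 3, -2 * x 0 + x 1 + 2 * x 3, x 2,
      -2 * x 0 + 2 * x 1 + 3 * x 3] := by
  ext i
  fin_cases i <;> simp [nL, nM, Matrix.mulVec, dotProduct, Fin.sum_univ_four]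

theorem Rg_aL (j : ℕ) (α β γ : ℝ) :
    (fun x => aL.1 *ᵥ x) ⁻¹' (Rg (j + 1) (2 * α) (2 * β) (2 * γ)) = Rg j α β γ := by
  ext x
  have h1 : tt (aL.1 *ᵥ x) = tt x / 2 := by
    rw [aL_apply]; simp [tt]; ring
  have h2 : (aL.1 *ᵥ x) 1 = x 1 := by rw [aL_apply]; simp
  have h3 : (aL.1 *ᵥ x) 2 = x 2 := by rw [aL_apply]; simp
  simp only [Rg, mem_preimage, mem_ofPred_eq, h1, h2, h3, pow_succ]
  constructor
  · rintro ⟨a, b, c, d, e⟩
    exact ⟨by linarith, by linarith, by linarith, by linarith, by linarith⟩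
  · rintro ⟨a, b, c, d, e⟩
    exact ⟨by linarith, by linarith, by linarith, by linarith, by linarith⟩

theorem Rg_nL (j : ℕ) (α β γ : ℝ) :
    (fun x => nL.1 *ᵥ x) ⁻¹' (Rg j α β γ) = Rg j (α - 2) (β - 2) γ := by
  ext x
  have h1 : tt (nL.1 *ᵥ x) = tt x := by
    rw [nL_apply]; simp [tt]; ring
  have h2 : (nL.1 *ᵥ x) 1 = x 1 + 2 * tt x := by rw [nL_apply]; simp [tt]; ring
  have h3 : (nL.1 *ᵥ x) 2 = x 2 := by rw [nL_apply]; simp
  simp only [Rg, mem_preimage, mem_ofPred_eq, h1, h2, h3]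
  constructor
  · rintro ⟨a, b, c, d, e⟩
    exact ⟨a, b, by linarith, by linarith, e⟩
  · rintro ⟨a, b, c, d, e⟩
    exact ⟨a, b, by linarith, by linarith, e⟩

theorem nu_Rg_shift (j : ℕ) (α β γ : ℝ) : nu (Rg j (α - 2) (β - 2) γ) = nu (Rg j α β γ) := by
  rw [← Rg_nL]
  exact nu_preimage nL Uni_nL (measurableSet_Rg _ _ _ _)

theorem nu_Rg_scale (j : ℕ) (α β γ : ℝ) :
    nu (Rg (j + 1) (2 * α) (2 * β) (2 * γ)) = nu (Rg j α β γ) := by
  rw [← Rg_aL j]
  exact (nu_preimage aL Uni_aL (measurableSet_Rg _ _ _ _)).symm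

theorem two_mul_nu_le (j : ℕ) : 2 * nu (Rg (j + 1) (-2) 2 2) ≤ nu (Rg j (-2) 2 2) := by
  have h1 : nu (Rg (j + 1) (-4) 0 2) = nu (Rg (j + 1) (-2) 2 2) := by
    have := nu_Rg_shift (j + 1) (-2) 2 2
    norm_num at this
    exact this
  have h2 : nu (Rg (j + 1) 0 4 2) = nu (Rg (j + 1) (-2) 2 2) := by
    have := nu_Rg_shift (j + 1) 0 4 2
    norm_num at this
    exact this.symm
  have hdisj : Disjoint (Rg (j + 1) (-4) 0 2) (Rg (j + 1) 0 4 2) := by
    rw [Set.disjoint_left]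
    rintro x ⟨_, _, _, h, _⟩ ⟨_, _, h', _, _⟩
    linarith
  have hsub : Rg (j + 1) (-4) 0 2 ∪ Rg (j + 1) 0 4 2 ⊆ Rg (j + 1) (2 * (-2)) (2 * 2) (2 * 2) := by
    rintro x (⟨a, b, c, d, e⟩ | ⟨a, b, c, d, e⟩)
    · have : 0 < tt x := lt_trans (by positivity) a
      exact ⟨a, b, by linarith, by linarith, by linarith⟩
    · have : 0 < tt x := lt_trans (by positivity) a
      exact ⟨a, b, by linarith, by linarith, by linarith⟩
  calc 2 * nu (Rg (j + 1) (-2) 2 2) = nu (Rg (j + 1) (-4) 0 2) + nu (Rg (j + 1) 0 4 2) := by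
        rw [h1, h2, two_mul]
    _ = nu (Rg (j + 1) (-4) 0 2 ∪ Rg (j + 1) 0 4 2) :=
        (measure_union hdisj (measurableSet_Rg _ _ _ _)).symm
    _ ≤ nu (Rg (j + 1) (2 * (-2)) (2 * 2) (2 * 2)) := measure_mono hsub
    _ = nu (Rg j (-2) 2 2) := nu_Rg_scale j (-2) 2 2

theorem nu_Rg_le (j : ℕ) : nu (Rg j (-2) 2 2) ≤ (2 : ENNReal)⁻¹ ^ j * nu (Rg 0 (-2) 2 2) := by
  induction j with
  | zero => simp
  | succ j ih =>
    have h := two_mul_nu_le j
    have h2 : nu (Rg (j + 1) (-2) 2 2) ≤ (2 : ENNReal)⁻¹ * nu (Rg j (-2) 2 2) := by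
      exact (ENNReal.mul_le_iff_le_inv (by simp) (by simp)).1 h
    calc nu (Rg (j + 1) (-2) 2 2) ≤ (2 : ENNReal)⁻¹ * nu (Rg j (-2) 2 2) := h2
      _ ≤ (2 : ENNReal)⁻¹ * ((2 : ENNReal)⁻¹ ^ j * nu (Rg 0 (-2) 2 2)) := by gcongr
      _ = _ := by rw [pow_succ]; ring

/-- compactness of sets of frames of bounded height -/
theorem isCompact_height (c : ℝ) : IsCompact {g : LG | g.1 3 3 ≤ c} := by
  have hcl : IsClosed {g : LG | g.1 3 3 ≤ c} := isClosed_le (LG.continuous_entry 3 3) continuous_const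
  have hK : IsCompact ((fun g : LG => g.1) ⁻¹'
      (Set.pi univ (fun _ => Set.pi univ (fun _ => Icc (-(1 + |c|)) (1 + |c|))) : Set M4)) := by
    apply LG.isClosedEmbedding_coe.isCompact_preimage
    exact isCompact_univ_pi (fun _ => isCompact_univ_pi (fun _ => isCompact_Icc))
  apply hK.of_isClosed_subset hcl
  intro g hg
  intro i _ j _
  have hg' : g.1 3 3 ≤ c := hg
  have hpos := LG.one_le_entry g
  have hc : g.1 3 3 ≤ |c| := hg'.trans (le_abs_self c)
  have hcol := LG.col g.1 g.2.1 3 3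
  simp only [if_true] at hcol
  have h33 : g.1 3 3 ^ 2 ≤ |c| ^ 2 := pow_le_pow_left₀ (by linarith) hc 2
  have hi3 : g.1 i 3 ^ 2 ≤ |c| ^ 2 := by
    fin_cases i <;> simp only [Fin.zero_eta, Fin.mk_one, Fin.reduceFinMk] <;>
      nlinarith [sq_nonneg (g.1 0 3), sq_nonneg (g.1 1 3), sq_nonneg (g.1 2 3)]
  have hrow := LG.row g.1 g.2.1 i i
  simp only [if_true] at hrow
  have hle : g.1 i 0 * g.1 i 0 + g.1 i 1 * g.1 i 1 + g.1 i 2 * g.1 i 2 - g.1 i 3 * g.1 i 3 ≤ 1 := by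
    rw [hrow]; split_ifs <;> norm_num
  have hij : g.1 i j ^ 2 ≤ (1 + |c|) ^ 2 := by
    have hc0 : 0 ≤ |c| := abs_nonneg c
    fin_cases j <;> simp only [Fin.zero_eta, Fin.mk_one, Fin.reduceFinMk] <;>
      nlinarith [sq_nonneg (g.1 i 0), sq_nonneg (g.1 i 1), sq_nonneg (g.1 i 2)]
  have := abs_le_of_sq_le_sq hij (by positivity)
  rw [abs_le] at this
  exact mem_Icc.2 this

theorem nu_Rg_zero_lt_top : nu (Rg 0 (-2) 2 2) < ⊤ := by
  rw [nu_apply (measurableSet_Rg _ _ _ _)]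
  refine lt_of_le_of_lt (measure_mono ?_) (isCompact_height 18).measure_lt_top
  rintro g ⟨a, b, c, d, e⟩
  have hform := pt_form g
  have h3 := pt_three g
  show g.1 3 3 ≤ 18
  rw [← h3]
  simp only [pow_zero] at a b
  unfold tt at a b c d e
  rw [abs_le] at e
  set x := pt g
  have e1 : x 1 ^ 2 ≤ 16 := by
    have h1 : x 1 ≤ 4 := by linarith
    have h2 : -4 ≤ x 1 := by linarith
    nlinarith
  have e2 : x 2 ^ 2 ≤ 16 := by
    have h1 : x 2 ≤ 4 := by linarith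
    have h2 : -4 ≤ x 2 := by linarith
    nlinarith
  have hpos : 0 < x 3 := (Fut_pt g).2
  have h4 : (x 3 - x 0) * (x 3 + x 0) = 1 + x 1 ^ 2 + x 2 ^ 2 := by nlinarith
  have h5 : x 3 + x 0 ≤ 33 := by nlinarith
  linarith

/-- Siegel set -/
def Sg : Set (Fin 4 → ℝ) := {x | 0 < tt x ∧ tt x ≤ 2 ∧ |x 1| ≤ tt x ∧ |x 2| ≤ tt x}

theorem Sg_subset : Sg ⊆ ⋃ j, Rg j (-2) 2 2 := by
  rintro x ⟨h1, h2, h3, h4⟩
  obtain ⟨n, hn⟩ := exists_pow_lt_of_lt_one h1 (show (1/2 : ℝ) < 1 by norm_num)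
  -- least such
  classical
  have hex : ∃ n : ℕ, (1/2 : ℝ)^n < tt x := ⟨n, hn⟩
  obtain ⟨m, hm⟩ : ∃ m, Nat.find hex = m := ⟨_, rfl⟩
  have hspec := Nat.find_spec hex
  rw [hm] at hspec
  rw [abs_le] at h3
  refine mem_iUnion.2 ⟨m, hspec, ?_, by linarith, by linarith, by linarith⟩
  cases m with
  | zero => simpa using h2
  | succ k =>
    have : ¬ ((1/2 : ℝ)^k < tt x) := Nat.find_min hex (by omega)
    rw [pow_succ]; linarith [not_lt.1 this]

theorem nu_Sg_lt_top : nu Sg < ⊤ := by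
  refine lt_of_le_of_lt (measure_mono Sg_subset) ?_
  refine lt_of_le_of_lt (measure_iUnion_le _) ?_
  refine lt_of_le_of_lt (ENNReal.tsum_le_tsum nu_Rg_le) ?_
  rw [ENNReal.tsum_mul_right]
  apply ENNReal.mul_lt_top _ nu_Rg_zero_lt_top
  rw [ENNReal.tsum_geometric]
  norm_num

theorem measurableSet_Sg : MeasurableSet Sg := by
  have ht : Measurable tt := continuous_tt.measurable
  have h1 : Measurable (fun x : Fin 4 → ℝ => x 1) := measurable_pi_apply 1
  have h2 : Measurable (fun x : Fin 4 → ℝ => x 2) := measurable_pi_apply 2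
  refine MeasurableSet.inter ?_ (MeasurableSet.inter ?_ (MeasurableSet.inter ?_ ?_))
  · exact measurableSet_lt measurable_const ht
  · exact measurableSet_le ht measurable_const
  · exact measurableSet_le (by fun_prop) ht
  · exact measurableSet_le (by fun_prop) ht

theorem flL_apply (x : Fin 4 → ℝ) : flL.1 *ᵥ x = ![- x 0, x 1, x 2, x 3] := by
  ext i
  fin_cases i <;> simp [flL, flM, Matrix.mulVec, dotProduct, Fin.sum_univ_four]

theorem s1L_apply (x : Fin 4 → ℝ) : s1L.1 *ᵥ x = ![x 1, x 0, x 2, x 3] := by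
  ext i
  fin_cases i <;> simp [s1L, s1M, Matrix.mulVec, dotProduct, Fin.sum_univ_four]

theorem s2L_apply (x : Fin 4 → ℝ) : s2L.1 *ᵥ x = ![x 2, x 1, x 0, x 3] := by
  ext i
  fin_cases i <;> simp [s2L, s2M, Matrix.mulVec, dotProduct, Fin.sum_univ_four]

theorem oct_abs (x : Fin 4 → ℝ) (h : ∀ s, B x (nR s) ≤ 0) : |x 0| + |x 1| + |x 2| ≤ x 3 := by
  have a0 := h (false, 0)
  have a1 := h (false, 1)
  have a2 := h (false, 2)
  have a3 := h (false, 3)
  have b0 := h (true, 0)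
  have b1 := h (true, 1)
  have b2 := h (true, 2)
  have b3 := h (true, 3)
  simp [B, nR, nZ] at a0 a1 a2 a3 b0 b1 b2 b3
  rcases abs_cases (x 0) with ⟨e0, _⟩ | ⟨e0, _⟩ <;>
  rcases abs_cases (x 1) with ⟨e1, _⟩ | ⟨e1, _⟩ <;>
  rcases abs_cases (x 2) with ⟨e2, _⟩ | ⟨e2, _⟩ <;>
  rw [e0, e1, e2] <;> linarith

/-- the main inequality: octahedron points whose first coordinate dominates lie in the Siegel set -/
theorem mem_Sg (x : Fin 4 → ℝ) (hform : x 0 ^ 2 + x 1 ^ 2 + x 2 ^ 2 - x 3 ^ 2 = -1)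
    (hpos : 0 < x 3) (hsum : |x 0| + |x 1| + |x 2| ≤ x 3) (h1 : |x 1| ≤ x 0) (h2 : |x 2| ≤ x 0) :
    x ∈ Sg := by
  have p1 := abs_nonneg (x 1)
  have p2 := abs_nonneg (x 2)
  have hx0 : 0 ≤ x 0 := p1.trans h1
  have e0 : |x 0| = x 0 := abs_of_nonneg hx0
  rw [e0] at hsum
  have q1 : x 1 ^ 2 = |x 1| ^ 2 := (sq_abs _).symm
  have q2 : x 2 ^ 2 = |x 2| ^ 2 := (sq_abs _).symm
  rw [q1, q2] at hform
  set a := |x 1|
  set b := |x 2|
  have ht : 0 < x 3 - x 0 := by nlinarith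
  refine ⟨ht, ?_, ?_, ?_⟩
  · unfold tt
    by_contra hcon
    push Not at hcon
    have k1 : a + b ≤ x 3 - x 0 := by linarith
    have k2 : 2 * (x 3 - x 0) * x 0 ≤ 1 := by nlinarith
    have k3 : x 0 ≤ 1 / 4 := by nlinarith
    nlinarith
  · unfold tt; linarith
  · unfold tt; linarith

theorem FP_subset : FP ⊆ pt ⁻¹' Sg ∪ pt ⁻¹' ((fun x => flL.1 *ᵥ x) ⁻¹' Sg) ∪
    pt ⁻¹' ((fun x => s1L.1 *ᵥ x) ⁻¹' Sg) ∪
    pt ⁻¹' ((fun x => (flL * s1L).1 *ᵥ x) ⁻¹' Sg) ∪
    pt ⁻¹' ((fun x => s2L.1 *ᵥ x) ⁻¹' Sg) ∪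
    pt ⁻¹' ((fun x => (flL * s2L).1 *ᵥ x) ⁻¹' Sg) := by
  intro g hg
  have hsum := oct_abs (pt g) hg
  have hform := pt_form g
  have hpos : 0 < pt g 3 := (Fut_pt g).2
  simp only [mem_union, mem_preimage]
  set x := pt g
  rw [LG.coe_mul, LG.coe_mul, ← Matrix.mulVec_mulVec, ← Matrix.mulVec_mulVec, flL_apply,
    flL_apply, flL_apply, s1L_apply, s2L_apply]
  simp only [Matrix.cons_val_zero, Matrix.cons_val_one, Matrix.cons_val]
  have case0 : ∀ y : Fin 4 → ℝ, y 0 ^ 2 + y 1 ^ 2 + y 2 ^ 2 - y 3 ^ 2 = -1 → 0 < y 3 →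
      |y 0| + |y 1| + |y 2| ≤ y 3 → |y 1| ≤ |y 0| → |y 2| ≤ |y 0| →
      y ∈ Sg ∨ ![- y 0, y 1, y 2, y 3] ∈ Sg := by
    intro y h1 h2 h3 h4 h5
    rcases abs_cases (y 0) with ⟨e, _⟩ | ⟨e, _⟩
    · left
      rw [e] at h4 h5
      exact mem_Sg y h1 h2 h3 h4 h5
    · right
      rw [e] at h4 h5
      apply mem_Sg
      · simpa using h1
      · simpa using h2
      · simpa using h3
      · simpa using h4
      · simpa using h5
  rcases le_total |x 1| |x 0| with h1 | h1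
  · rcases le_total |x 2| |x 0| with h2 | h2
    · rcases case0 x hform hpos hsum h1 h2 with h | h
      · simp [h]
      · simp [h]
    · -- x2 largest
      have := case0 ![x 2, x 1, x 0, x 3] (by simp; linarith) (by simpa using hpos)
        (by simp; linarith) (by simpa using h1.trans h2) (by simpa using h2)
      simp only [Matrix.cons_val_zero, Matrix.cons_val_one, Matrix.cons_val] at this
      rcases this with h | h <;> simp [h]
  · rcases le_total |x 2| |x 1| with h2 | h2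
    · have := case0 ![x 1, x 0, x 2, x 3] (by simp; linarith) (by simpa using hpos)
        (by simp; linarith) (by simpa using h1) (by simpa using h2)
      simp only [Matrix.cons_val_zero, Matrix.cons_val_one, Matrix.cons_val] at this
      rcases this with h | h <;> simp [h]
    · have := case0 ![x 2, x 1, x 0, x 3] (by simp; linarith) (by simpa using hpos)
        (by simp; linarith) (by simpa using h2) (by simpa using h1.trans h2)
      simp only [Matrix.cons_val_zero, Matrix.cons_val_one, Matrix.cons_val] at this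
      rcases this with h | h <;> simp [h]

theorem mu_FP_lt_top : mu FP < ⊤ := by
  have key : ∀ h : LG, Uni h → mu (pt ⁻¹' ((fun x => h.1 *ᵥ x) ⁻¹' Sg)) < ⊤ := by
    intro h hU
    have hm : Measurable (fun x : Fin 4 → ℝ => h.1 *ᵥ x) :=
      (continuous_const.matrix_mulVec continuous_id).measurable
    rw [← nu_apply (measurableSet_Sg.preimage hm), nu_preimage h hU measurableSet_Sg]
    exact nu_Sg_lt_top
  have h0 : mu (pt ⁻¹' Sg) < ⊤ := by
    rw [← nu_apply measurableSet_Sg]; exact nu_Sg_lt_top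
  refine lt_of_le_of_lt (measure_mono FP_subset) ?_
  refine measure_union_lt_top (measure_union_lt_top (measure_union_lt_top
    (measure_union_lt_top (measure_union_lt_top h0 ?_) ?_) ?_) ?_) ?_
  · exact key _ Uni_flL
  · exact key _ Uni_s1L
  · exact key _ (Uni_mul Uni_flL Uni_s1L)
  · exact key _ Uni_s2L
  · exact key _ (Uni_mul Uni_flL Uni_s2L)

theorem measurableSet_FP : MeasurableSet FP := by
  have : FP = ⋂ s, {g | B (pt g) (nR s) ≤ 0} := by
    ext g; simp [FP]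
  rw [this]
  refine MeasurableSet.iInter fun s => ?_
  apply IsClosed.measurableSet
  apply isClosed_le _ continuous_const
  unfold B
  have := continuous_pt_apply
  have h0 := this 0
  have h1 := this 1
  have h2 := this 2
  have h3 := this 3
  fun_prop

end Pool.Agent.H67R2
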