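import Mathlib

set_option autoImplicit false

namespace Pool.Agent.H67R2

/-- generators: faces of the octahedron, split in two colours. -/
abbrev Gen := Bool × Fin 4

/-- parities of the two colours. -/
abbrev Par := Bool × Bool

/-- two faces meet at a right angle. -/
def Comm (s t : Gen) : Prop := s.1 ≠ t.1 ∧ s.2 ≠ t.2

instance (s t : Gen) : Decidable (Comm s t) := by unfold Comm; infer_instance

/-- relations of the right-angled Coxeter group of the octahedron. -/
def rels : Set (FreeGroup Gen) :=
  {r | (∃ s, r = FreeGroup.of s * FreeGroup.of s) ∨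
    ∃ s t, Comm s t ∧ r = FreeGroup.of s * FreeGroup.of t * (FreeGroup.of s)⁻¹ *
      (FreeGroup.of t)⁻¹}

/-- right-angled Coxeter group of the ideal octahedron. -/
abbrev W := PresentedGroup rels

/-- the standard generators. -/
def gen (s : Gen) : W := PresentedGroup.of s

theorem gen_mul_self (s : Gen) : gen s * gen s = 1 := by
  have h : FreeGroup.of s * FreeGroup.of s ∈ rels := Or.inl ⟨s, rfl⟩
  have := PresentedGroup.one_of_mem h
  rwa [map_mul] at this

theorem gen_comm {s t : Gen} (h : Comm s t) : gen s * gen t = gen t * gen s := by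
  have h1 : FreeGroup.of s * FreeGroup.of t * (FreeGroup.of s)⁻¹ * (FreeGroup.of t)⁻¹ ∈ rels :=
    Or.inr ⟨s, t, h, rfl⟩
  have := PresentedGroup.one_of_mem h1
  rw [map_mul, map_mul, map_mul, map_inv, map_inv] at this
  have h2 : gen s * gen t * (gen s)⁻¹ * (gen t)⁻¹ = 1 := this
  rw [mul_inv_eq_one] at h2
  rw [mul_inv_eq_iff_eq_mul] at h2
  exact h2

theorem gen_inv (s : Gen) : (gen s)⁻¹ = gen s := by
  rw [inv_eq_iff_mul_eq_one]; exact gen_mul_self s

/-- universal property. -/
def liftW {H : Type*} [Group H] (f : Gen → H) (h1 : ∀ s, f s * f s = 1)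
    (h2 : ∀ s t, Comm s t → f s * f t = f t * f s) : W →* H :=
  PresentedGroup.toGroup (f := f) (by
    rintro r (⟨s, rfl⟩ | ⟨s, t, hst, rfl⟩)
    · simp [h1]
    · simp only [map_mul, map_inv, FreeGroup.lift_apply_of]
      rw [mul_inv_eq_one, mul_inv_eq_iff_eq_mul]
      exact h2 s t hst)

@[simp] theorem liftW_gen {H : Type*} [Group H] (f : Gen → H) (h1 : ∀ s, f s * f s = 1)
    (h2 : ∀ s t, Comm s t → f s * f t = f t * f s) (s : Gen) :
    liftW f h1 h2 (gen s) = f s :=
  PresentedGroup.toGroup.of _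

theorem W_closure : Subgroup.closure (Set.range gen) = ⊤ :=
  PresentedGroup.closure_range_of rels

theorem W_induction {p : W → Prop} (h1 : p 1) (h2 : ∀ s w, p w → p (gen s * w)) (w : W) : p w := by
  have hw : w ∈ Subgroup.closure (Set.range gen) := by rw [W_closure]; trivial
  induction hw using Subgroup.closure_induction_left with
  | one => exact h1
  | mul_left x hx y hy ih =>
    obtain ⟨s, rfl⟩ := hx
    exact h2 s y ih
  | inv_mul_cancel x hx y hy ih =>
    obtain ⟨s, rfl⟩ := hx
    rw [gen_inv]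
    exact h2 s y ih

instance : Countable W :=
  Function.Surjective.countable (PresentedGroup.mk_surjective rels)

/-! ### parities -/

/-- change of parity. -/
def tog (s : Gen) (e : Par) : Par := if s.1 then (e.1, !e.2) else (!e.1, e.2)

/-- the edge `s` at parity `e` goes up. -/
def isUp (s : Gen) (e : Par) : Bool :=
  if s.1 then xor (s.2 = 0 ∨ s.2 = 2) e.2 else xor (s.2 = 0 ∨ s.2 = 1) e.1

/-- flip of both parities. -/
def bar (e : Par) : Par := (!e.1, !e.2)

/-- height change. -/
def sgn (s : Gen) (e : Par) : ℤ := if isUp s e then 1 else -1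

theorem tog_tog (s : Gen) (e : Par) : tog s (tog s e) = e := by
  revert s e; decide

theorem tog_comm (s t : Gen) (e : Par) : tog s (tog t e) = tog t (tog s e) := by
  revert s t e; decide

theorem tog_bar (s : Gen) (e : Par) : tog s (bar e) = bar (tog s e) := by
  revert s e; decide

theorem bar_bar (e : Par) : bar (bar e) = e := by revert e; decide

theorem isUp_tog (s : Gen) (e : Par) : isUp s (tog s e) = !isUp s e := by
  revert s e; decide

theorem isUp_bar (s : Gen) (e : Par) : isUp s (bar e) = !isUp s e := by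
  revert s e; decide

theorem isUp_tog_of_comm (s t : Gen) (e : Par) (h : Comm s t) : isUp s (tog t e) = isUp s e := by
  revert s t e; decide

theorem tog_tog_comm (s t : Gen) (e : Par) (h : Comm s t) : tog s (tog t e) = bar e := by
  revert s t e; decide

/-- path enumeration of the up-generators: consecutive ones commute. -/
def pth (e : Par) (i : Fin 4) : Gen :=
  match e, i with
  | (false, false), 0 => (false, 0)
  | (false, false), 1 => (true, 2)
  | (false, false), 2 => (false, 1)
  | (false, false), 3 => (true, 0)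
  | (false, true), 0 => (true, 1)
  | (false, true), 1 => (false, 0)
  | (false, true), 2 => (true, 3)
  | (false, true), 3 => (false, 1)
  | (true, false), 0 => (false, 2)
  | (true, false), 1 => (true, 0)
  | (true, false), 2 => (false, 3)
  | (true, false), 3 => (true, 2)
  | (true, true), 0 => (true, 3)
  | (true, true), 1 => (false, 2)
  | (true, true), 2 => (true, 1)
  | (true, true), 3 => (false, 3)

theorem pth_up (e : Par) (i : Fin 4) : isUp (pth e i) e = true := by
  revert e i; decide

theorem exists_pth (e : Par) (s : Gen) (h : isUp s e = true) : ∃ i, pth e i = s := by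
  revert e s; decide

theorem pth_comm (e : Par) (i : Fin 3) : Comm (pth e i.castSucc) (pth e i.succ) := by
  revert e i; decide

theorem pth_consec (e : Par) (s t : Gen) (hs : isUp s e = true) (ht : isUp t e = true)
    (h : Comm s t) : ∃ i : Fin 3, (pth e i.castSucc = s ∧ pth e i.succ = t) ∨
      (pth e i.castSucc = t ∧ pth e i.succ = s) := by
  have key : ∀ e : Par, ∀ s t : Gen, (isUp s e && isUp t e && decide (Comm s t)) = true →
    ((decide (pth e 0 = s) && decide (pth e 1 = t)) ||
      (decide (pth e 1 = s) && decide (pth e 2 = t)) ||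
      (decide (pth e 2 = s) && decide (pth e 3 = t)) ||
      (decide (pth e 0 = t) && decide (pth e 1 = s)) ||
      (decide (pth e 1 = t) && decide (pth e 2 = s)) ||
      (decide (pth e 2 = t) && decide (pth e 3 = s))) = true := by decide
  have := key e s t (by simp [hs, ht, h])
  simp only [Bool.or_eq_true, Bool.and_eq_true, decide_eq_true_eq] at this
  rcases this with ((((h | h) | h) | h) | h) | h
  · exact ⟨0, Or.inl h⟩
  · exact ⟨1, Or.inl h⟩
  · exact ⟨2, Or.inl h⟩
  · exact ⟨0, Or.inr h⟩
  · exact ⟨1, Or.inr h⟩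
  · exact ⟨2, Or.inr h⟩

/-- index in the path. -/
def pidx (e : Par) (s : Gen) : ℕ :=
  if pth e 0 = s then 0 else if pth e 1 = s then 1 else if pth e 2 = s then 2 else 3

theorem pidx_pth (e : Par) (i : Fin 4) : pidx e (pth e i) = i := by
  revert e i; decide

/-- path enumeration by natural numbers. -/
def pthN (e : Par) (i : ℕ) : Gen := if h : i < 4 then pth e ⟨i, h⟩ else pth e 0

theorem pthN_val (e : Par) (i : Fin 4) : pthN e i = pth e i := by
  simp [pthN]

section Cocycle

variable {F : Type*} [Group F]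

/-- partial products along the path. -/
def ys (g : Gen → F) (p : ℕ → Gen) : ℕ → F
  | 0 => 1
  | i + 1 => ys g p i * g (p (i + 1)) * (g (p i))⁻¹

/-- labels of the up-going edges starting at height `k`. -/
def cu (x : Gen → F) : ℕ → Par → Gen → F
  | 0, _, s => x s
  | k + 1, e, s =>
    ys (cu x k (bar (tog s e))) (pthN (bar (tog s e))) (pidx (bar (tog s e)) s)

theorem cu_flat_aux (x : Gen → F) (k : ℕ) (z : Par) (i : Fin 3) :
    cu x (k + 1) (tog (pth z i.succ) z) (pth z i.castSucc) * cu x k z (pth z i.succ) =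
      cu x (k + 1) (tog (pth z i.castSucc) z) (pth z i.succ) * cu x k z (pth z i.castSucc) := by
  have hc := pth_comm z i
  have h1 : tog (pth z i.castSucc) (tog (pth z i.succ) z) = bar z := tog_tog_comm _ _ _ hc
  have h2 : tog (pth z i.succ) (tog (pth z i.castSucc) z) = bar z := by
    rw [tog_comm]; exact h1
  simp only [cu, h1, h2, bar_bar, pidx_pth]
  have h3 : ((i.succ : Fin 4) : ℕ) = ((i.castSucc : Fin 4) : ℕ) + 1 := by simp
  rw [h3, ys]
  have h4 : pthN z ((i.castSucc : Fin 4) : ℕ) = pth z i.castSucc := pthN_val z _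
  have h5 : pthN z (((i.castSucc : Fin 4) : ℕ) + 1) = pth z i.succ := by
    rw [← h3]; exact pthN_val z _
  rw [h4, h5]
  group

theorem cu_flat (x : Gen → F) (k : ℕ) (z : Par) (s t : Gen) (hs : isUp s z = true)
    (ht : isUp t z = true) (h : Comm s t) :
    cu x (k + 1) (tog s z) t * cu x k z s = cu x (k + 1) (tog t z) s * cu x k z t := by
  obtain ⟨i, ⟨rfl, rfl⟩ | ⟨rfl, rfl⟩⟩ := pth_consec z s t hs ht h
  · exact (cu_flat_aux x k z i).symm
  · exact cu_flat_aux x k z i

theorem cu_gauge (x : Gen → F) (k : ℕ) (e : Par) :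
    cu x (k + 1) (tog (pth (bar e) 0) e) (pth (bar e) 0) = 1 := by
  simp only [cu, tog_tog]
  have := pidx_pth (bar e) 0
  rw [this]
  simp [ys]

/-- labels at heights `≥ 1`. -/
def gg (x : Gen → F) (e : Par) (n : ℕ) (s : Gen) : F :=
  if isUp s e = true then cu x n e s else (cu x (n - 1) (tog s e) s)⁻¹

/-- the full cocycle. -/
def cc (x : Gen → F) (e : Par) (k : ℤ) (s : Gen) : F :=
  if 1 ≤ k then gg x e k.toNat s else gg x (bar e) (1 - k).toNat s

theorem cc_bar (x : Gen → F) (e : Par) (k : ℤ) (s : Gen) :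
    cc x (bar e) (1 - k) s = cc x e k s := by
  unfold cc
  by_cases h : 1 ≤ k
  · rw [if_neg (by omega), if_pos h, bar_bar]
    congr 1; omega
  · rw [if_pos (by omega), if_neg h]

theorem cc_up (x : Gen → F) (hx : ∀ s, x s * x s = 1) (e : Par) (k : ℕ) (s : Gen)
    (h : isUp s e = true) : cc x e k s = cu x k e s := by
  unfold cc
  by_cases hk : 1 ≤ (k : ℤ)
  · rw [if_pos hk, gg, if_pos h]; simp
  · have : k = 0 := by omega
    subst this
    rw [if_neg (by simp), gg, if_neg (by simp [isUp_bar, h])]
    simp only [cu]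
    have : (1 - ((0 : ℕ) : ℤ)).toNat - 1 = 0 := by simp
    rw [this]
    simp only [cu]
    rw [inv_eq_iff_mul_eq_one]; exact hx s

theorem cc_down (x : Gen → F) (e : Par) (k : ℕ) (s : Gen)
    (h : isUp s e = false) : cc x e (k + 1) s = (cu x k (tog s e) s)⁻¹ := by
  unfold cc
  rw [if_pos (by omega), gg, if_neg (by simp [h])]
  congr 2

theorem cc_inv_up (x : Gen → F) (hx : ∀ s, x s * x s = 1) (e : Par) (k : ℕ) (s : Gen)
    (h : isUp s e = true) : cc x (tog s e) (k + 1) s * cc x e k s = 1 := by
  rw [cc_up x hx e k s h, cc_down x (tog s e) k s (by simp [isUp_tog, h]), tog_tog]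
  simp

theorem cc_inv (x : Gen → F) (hx : ∀ s, x s * x s = 1) (e : Par) (k : ℤ) (s : Gen) :
    cc x (tog s e) (k + sgn s e) s * cc x e k s = 1 := by
  -- four cases
  by_cases h : isUp s e = true
  · simp only [sgn, h, if_true]
    by_cases hk : 0 ≤ k
    · obtain ⟨n, rfl⟩ := Int.eq_ofNat_of_zero_le hk
      exact cc_inv_up x hx e n s h
    · -- reflect
      rw [← cc_bar x e k s, ← cc_bar x (tog s e)]
      have h1 : isUp s (bar (tog s e)) = true := by
        rw [isUp_bar, isUp_tog, h]; rfl
      obtain ⟨n, hn⟩ := Int.eq_ofNat_of_zero_le (show 0 ≤ -k - 1 + 1 - 1 + 1 by omega)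
      have h2 := cc_inv_up x hx (bar (tog s e)) n s h1
      rw [tog_bar, tog_tog] at h2
      have e1 : (1 - (k + 1) : ℤ) = n := by omega
      have e2 : (1 - k : ℤ) = n + 1 := by omega
      rw [e1, e2]
      rw [mul_eq_one_iff_eq_inv] at h2 ⊢
      rw [h2, inv_inv]
  · simp only [Bool.not_eq_true] at h
    simp only [sgn, h]
    have h1 : isUp s (tog s e) = true := by simp [isUp_tog, h]
    by_cases hk : 1 ≤ k
    · obtain ⟨n, hn⟩ := Int.eq_ofNat_of_zero_le (show 0 ≤ k - 1 by omega)
      have h2 := cc_inv_up x hx (tog s e) n s h1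
      rw [tog_tog] at h2
      have e1 : k = n + 1 := by omega
      subst e1
      simp only [Bool.false_eq_true, if_false, add_neg_cancel_right]
      rw [mul_eq_one_iff_eq_inv] at h2 ⊢
      rw [h2, inv_inv]
    · rw [← cc_bar x e k s, ← cc_bar x (tog s e)]
      have h3 : isUp s (bar e) = true := by rw [isUp_bar, h]; rfl
      obtain ⟨n, hn⟩ := Int.eq_ofNat_of_zero_le (show 0 ≤ 1 - k by omega)
      have h2 := cc_inv_up x hx (bar e) n s h3
      rw [tog_bar] at h2
      have e1 : (1 - k : ℤ) = n := hn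
      have e2 : (1 - (k + -1) : ℤ) = n + 1 := by omega
      simp only [Bool.false_eq_true, if_false]
      rw [e1, e2]
      exact h2

/-- flatness around the square at `(e,k)`. -/
def Sq (x : Gen → F) (e : Par) (k : ℤ) (s t : Gen) : Prop :=
  cc x (tog s e) (k + sgn s e) t * cc x e k s = cc x (tog t e) (k + sgn t e) s * cc x e k t

theorem Sq_symm {x : Gen → F} {e : Par} {k : ℤ} {s t : Gen} (h : Sq x e k s t) :
    Sq x e k t s := Eq.symm h

theorem sgn_tog (s : Gen) (e : Par) : sgn s (tog s e) = - sgn s e := by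
  unfold sgn; rw [isUp_tog]; cases isUp s e <;> simp

theorem sgn_tog_comm (s t : Gen) (e : Par) (h : Comm s t) : sgn s (tog t e) = sgn s e := by
  unfold sgn; rw [isUp_tog_of_comm s t e h]

theorem sgn_bar (s : Gen) (e : Par) : sgn s (bar e) = - sgn s e := by
  unfold sgn; rw [isUp_bar]; cases isUp s e <;> simp

theorem Comm.symm {s t : Gen} (h : Comm s t) : Comm t s := ⟨h.1.symm, h.2.symm⟩

theorem Sq_move (x : Gen → F) (hx : ∀ s, x s * x s = 1) (e : Par) (k : ℤ) (s t : Gen)
    (h : Comm s t) (hs : Sq x (tog s e) (k + sgn s e) s t) : Sq x e k s t := by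
  unfold Sq at hs ⊢
  rw [tog_tog, sgn_tog] at hs
  rw [show k + sgn s e + - sgn s e = k by ring] at hs
  rw [sgn_tog_comm t s e h.symm] at hs
  -- hs : c e k t * c (s e) s = c (t s e) (k+s+t) s * c (s e) t
  have h1 := cc_inv x hx e k s
  have h2 := cc_inv x hx (tog t e) (k + sgn t e) s
  rw [sgn_tog_comm s t e h] at h2
  rw [tog_comm s t] at h2
  rw [show k + sgn t e + sgn s e = k + sgn s e + sgn t e by ring] at h2
  have h3 : cc x (tog s e) (k + sgn s e) s = (cc x e k s)⁻¹ := by
    rw [eq_inv_iff_mul_eq_one]; exact h1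
  have h4 : cc x (tog t (tog s e)) (k + sgn s e + sgn t e) s =
      (cc x (tog t e) (k + sgn t e) s)⁻¹ := by
    rw [eq_inv_iff_mul_eq_one]; exact h2
  rw [h3, h4] at hs
  rw [mul_inv_eq_iff_eq_mul] at hs
  rw [hs]
  group

theorem Sq_bar (x : Gen → F) (e : Par) (k : ℤ) (s t : Gen)
    (hs : Sq x (bar e) (1 - k) s t) : Sq x e k s t := by
  unfold Sq at hs ⊢
  rw [tog_bar, tog_bar, sgn_bar, sgn_bar, cc_bar, cc_bar] at hs
  rw [show 1 - k + - sgn s e = 1 - (k + sgn s e) by ring,
    show 1 - k + - sgn t e = 1 - (k + sgn t e) by ring, cc_bar, cc_bar] at hs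
  exact hs

theorem Sq_up (x : Gen → F) (hx : ∀ s, x s * x s = 1) (e : Par) (k : ℕ) (s t : Gen)
    (h : Comm s t) (hs : isUp s e = true) (ht : isUp t e = true) : Sq x e k s t := by
  unfold Sq
  have h1 : sgn s e = 1 := by simp [sgn, hs]
  have h2 : sgn t e = 1 := by simp [sgn, ht]
  have h3 : isUp t (tog s e) = true := by rw [isUp_tog_of_comm t s e h.symm]; exact ht
  have h4 : isUp s (tog t e) = true := by rw [isUp_tog_of_comm s t e h]; exact hs
  rw [h1, h2]
  have := cc_up x hx (tog s e) (k + 1) t h3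
  push_cast at this
  rw [this]
  have := cc_up x hx (tog t e) (k + 1) s h4
  push_cast at this
  rw [this, cc_up x hx e k s hs, cc_up x hx e k t ht]
  exact cu_flat x k e s t hs ht h

/-- reduction to the bottom corner. -/
theorem Sq_of_bottom (x : Gen → F) (hx : ∀ s, x s * x s = 1)
    (P : ℤ → Prop)
    (hb : ∀ e k s t, Comm s t → isUp s e = true → isUp t e = true → P k → Sq x e k s t)
    (e : Par) (k : ℤ) (s t : Gen) (h : Comm s t)
    (hP : P (k - (if isUp s e = true then 0 else 1) - (if isUp t e = true then 0 else 1))) :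
    Sq x e k s t := by
  by_cases h1 : isUp s e = true <;> by_cases h2 : isUp t e = true
  · simp only [h1, h2, if_true, sub_zero] at hP
    exact hb e k s t h h1 h2 hP
  · simp only [h1, h2, if_true, sub_zero] at hP
    simp only [Bool.not_eq_true] at h2
    apply Sq_symm
    apply Sq_move x hx _ _ _ _ h.symm
    apply Sq_symm
    apply hb _ _ _ _ h
    · rw [isUp_tog_of_comm s t e h]; exact h1
    · rw [isUp_tog, h2]; rfl
    · simp only [sgn, h2]; simpa [sub_eq_add_neg] using hP
  · simp only [h1, h2, if_true, sub_zero] at hP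
    simp only [Bool.not_eq_true] at h1
    apply Sq_move x hx _ _ _ _ h
    apply hb _ _ _ _ h
    · rw [isUp_tog, h1]; rfl
    · rw [isUp_tog_of_comm t s e h.symm]; exact h2
    · simp only [sgn, h1]; simpa [sub_eq_add_neg] using hP
  · simp only [h1, h2] at hP
    simp only [Bool.not_eq_true] at h1 h2
    apply Sq_move x hx _ _ _ _ h
    apply Sq_symm
    apply Sq_move x hx _ _ _ _ h.symm
    apply Sq_symm
    apply hb _ _ _ _ h
    · rw [isUp_tog_of_comm s t _ h, isUp_tog, h1]; rfl
    · rw [isUp_tog, isUp_tog_of_comm t s e h.symm, h2]; rfl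
    · have e1 : sgn s e = -1 := by simp [sgn, h1]
      have e2 : sgn t (tog s e) = -1 := by
        rw [sgn_tog_comm t s e h.symm]; simp [sgn, h2]
      rw [e1, e2]
      simpa [sub_eq_add_neg] using hP

theorem Sq_all (x : Gen → F) (hx : ∀ s, x s * x s = 1) (e : Par) (k : ℤ) (s t : Gen)
    (h : Comm s t) : Sq x e k s t := by
  have key1 : ∀ e k s t, Comm s t → isUp s e = true → isUp t e = true → 0 ≤ k →
      Sq x e k s t := by
    intro e k s t h hs ht hk
    obtain ⟨n, rfl⟩ := Int.eq_ofNat_of_zero_le hk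
    exact Sq_up x hx e n s t h hs ht
  refine Sq_of_bottom x hx (fun _ => True) ?_ e k s t h trivial
  intro e k s t h hs ht _
  by_cases hk : 0 ≤ k
  · exact key1 e k s t h hs ht hk
  · apply Sq_bar
    refine Sq_of_bottom x hx (fun j => 0 ≤ j) key1 _ _ s t h ?_
    simp only [isUp_bar, hs, ht]
    simp
    omega

end Cocycle

end Pool.Agent.H67R2
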