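import Mathlib

set_option autoImplicit false

namespace Pool.Agent.H67R2

open MeasureTheory Topology Set

/-- A discrete subgroup of a second countable group has a strict Borel fundamental domain. -/
theorem exists_fd {G : Type*} [Group G] [TopologicalSpace G] [IsTopologicalGroup G]
    [SecondCountableTopology G] [MeasurableSpace G] [BorelSpace G]
    {Γ : Type*} [Group Γ] [Countable Γ] (φ : Γ →* G)
    (hd : ∃ U ∈ 𝓝 (1 : G), ∀ γ, φ γ ∈ U → γ = 1) :
    ∃ D : Set G, MeasurableSet D ∧ ∀ g, ∃! γ, φ γ * g ∈ D := by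
  classical
  obtain ⟨U, hU, hd⟩ := hd
  obtain ⟨V0, hV0, hV0U⟩ := exists_nhds_split_inv hU
  obtain ⟨V, hVV0, hVo, h1V⟩ := mem_nhds_iff.1 hV0
  set c : ℕ → G := TopologicalSpace.denseSeq G with hc
  set Vi : ℕ → Set G := fun i => {g | g * (c i)⁻¹ ∈ V} with hVi
  have hVio : ∀ i, IsOpen (Vi i) := fun i => hVo.preimage (continuous_mul_const _)
  have hcov : ∀ g, ∃ i, g ∈ Vi i := by
    intro g
    have ho : IsOpen {h : G | g * h⁻¹ ∈ V} :=
      hVo.preimage (continuous_const.mul continuous_inv)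
    obtain ⟨i, hi⟩ := (TopologicalSpace.denseRange_denseSeq G).exists_mem_open ho
      ⟨g, by simpa using h1V⟩
    exact ⟨i, hi⟩
  have huniq : ∀ i g γ γ', φ γ * g ∈ Vi i → φ γ' * g ∈ Vi i → γ = γ' := by
    intro i g γ γ' h h'
    have := hV0U _ (hVV0 h) _ (hVV0 h')
    have h2 : φ γ * g * (c i)⁻¹ / (φ γ' * g * (c i)⁻¹) = φ (γ * γ'⁻¹) := by
      rw [map_mul, map_inv, div_eq_mul_inv]; group
    rw [h2] at this
    exact mul_inv_eq_one.1 (hd _ this)
  refine ⟨⋃ i, (Vi i ∩ ⋂ j, ⋂ (_ : j < i), ⋂ γ, {g | φ γ * g ∉ Vi j}), ?_, ?_⟩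
  · refine MeasurableSet.iUnion fun i => (hVio i).measurableSet.inter ?_
    refine MeasurableSet.iInter fun j => MeasurableSet.iInter fun _ => MeasurableSet.iInter fun γ => ?_
    exact ((hVio j).preimage (continuous_const_mul (φ γ))).measurableSet.compl
  · intro g
    have hex : ∃ i, ∃ γ, φ γ * g ∈ Vi i := by
      obtain ⟨i, hi⟩ := hcov g
      exact ⟨i, 1, by simpa using hi⟩
    obtain ⟨γ, hγ⟩ := Nat.find_spec hex
    refine ⟨γ, ?_, ?_⟩
    · refine mem_iUnion.2 ⟨Nat.find hex, hγ, ?_⟩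
      simp only [mem_iInter]
      intro j hj γ' hmem
      refine Nat.find_min hex hj ⟨γ' * γ, ?_⟩
      rw [map_mul, mul_assoc]; exact hmem
    · intro γ' hγ'
      obtain ⟨i, hi, hi'⟩ := mem_iUnion.1 hγ'
      simp only [mem_iInter] at hi'
      have hfi : i = Nat.find hex := by
        apply le_antisymm
        · by_contra hlt
          push Not at hlt
          apply hi' _ hlt (γ * γ'⁻¹)
          show φ (γ * γ'⁻¹) * (φ γ' * g) ∈ Vi (Nat.find hex)
          rw [← mul_assoc, ← map_mul, inv_mul_cancel_right]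
          exact hγ
        · exact Nat.find_min' hex ⟨γ', hi⟩
      rw [hfi] at hi
      exact huniq _ _ _ _ hi hγ

end Pool.Agent.H67R2
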