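import Pool.Agent.H67R2.Covol

set_option autoImplicit false

namespace Pool.Agent.H67R2

open MeasureTheory Topology Matrix Set Filter
open scoped Pointwise

/-- boosts -/
noncomputable def b0M (t : ℝ) : M4 :=
  !![Real.cosh t, 0, 0, Real.sinh t; 0, 1, 0, 0; 0, 0, 1, 0; Real.sinh t, 0, 0, Real.cosh t]
noncomputable def b1M (t : ℝ) : M4 :=
  !![1, 0, 0, 0; 0, Real.cosh t, 0, Real.sinh t; 0, 0, 1, 0; 0, Real.sinh t, 0, Real.cosh t]
noncomputable def b2M (t : ℝ) : M4 :=
  !![1, 0, 0, 0; 0, 1, 0, 0; 0, 0, Real.cosh t, Real.sinh t; 0, 0, Real.sinh t, Real.cosh t]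

noncomputable def b0L (t : ℝ) : LG := ⟨b0M t, by
  have h := Real.cosh_sq t
  constructor
  · ext i j
    rw [LG.form_apply, LG.J_apply]
    fin_cases i <;> fin_cases j <;> simp [b0M] <;> nlinarith
  · simp [b0M, Real.cosh_pos]⟩

noncomputable def b1L (t : ℝ) : LG := ⟨b1M t, by
  have h := Real.cosh_sq t
  constructor
  · ext i j
    rw [LG.form_apply, LG.J_apply]
    fin_cases i <;> fin_cases j <;> simp [b1M] <;> nlinarith
  · simp [b1M, Real.cosh_pos]⟩

noncomputable def b2L (t : ℝ) : LG := ⟨b2M t, by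
  have h := Real.cosh_sq t
  constructor
  · ext i j
    rw [LG.form_apply, LG.J_apply]
    fin_cases i <;> fin_cases j <;> simp [b2M] <;> nlinarith
  · simp [b2M, Real.cosh_pos]⟩

theorem continuous_b0L : Continuous b0L := by
  refine Continuous.subtype_mk (continuous_matrix fun i j => ?_) _
  fin_cases i <;> fin_cases j <;> simp [b0M] <;> first | exact continuous_const | exact Real.continuous_cosh | exact Real.continuous_sinh

theorem continuous_b1L : Continuous b1L := by
  refine Continuous.subtype_mk (continuous_matrix fun i j => ?_) _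
  fin_cases i <;> fin_cases j <;> simp [b1M] <;> first | exact continuous_const | exact Real.continuous_cosh | exact Real.continuous_sinh

theorem continuous_b2L : Continuous b2L := by
  refine Continuous.subtype_mk (continuous_matrix fun i j => ?_) _
  fin_cases i <;> fin_cases j <;> simp [b2M] <;> first | exact continuous_const | exact Real.continuous_cosh | exact Real.continuous_sinh

theorem b0L_zero : b0L 0 = 1 := by
  apply LG.ext'
  ext i j
  fin_cases i <;> fin_cases j <;> simp [b0L, b0M]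

theorem b1L_zero : b1L 0 = 1 := by
  apply LG.ext'
  ext i j
  fin_cases i <;> fin_cases j <;> simp [b1L, b1M]

theorem b2L_zero : b2L 0 = 1 := by
  apply LG.ext'
  ext i j
  fin_cases i <;> fin_cases j <;> simp [b2L, b2M]

theorem lin_aux {u v C S : ℝ} (hC : 1 < C) (hS : S ^ 2 = C ^ 2 - 1)
    (h1 : u * (C - 1) + v * S = 0) (h2 : u * S + v * (C - 1) = 0) : u = 0 ∧ v = 0 := by
  have e1 : u * (2 - 2 * C) = 0 := by
    have : u * (2 - 2 * C) = (C - 1) * (u * (C - 1) + v * S) - S * (u * S + v * (C - 1)) +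
        u * (S ^ 2 - (C ^ 2 - 1)) := by ring
    rw [this, h1, h2, hS]; ring
  have hu : u = 0 := by
    rcases mul_eq_zero.1 e1 with h | h
    · exact h
    · linarith
  subst hu
  refine ⟨rfl, ?_⟩
  have : v * (C - 1) = 0 := by linarith
  rcases mul_eq_zero.1 this with h | h
  · exact h
  · linarith

theorem central (c : LG) (t : ℝ) (ht : t ≠ 0) (h0 : c * b0L t = b0L t * c)
    (h1 : c * b1L t = b1L t * c) (h2 : c * b2L t = b2L t * c) : c = 1 := by
  have hC : 1 < Real.cosh t := Real.one_lt_cosh.2 ht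
  have hS : Real.sinh t ^ 2 = Real.cosh t ^ 2 - 1 := by rw [Real.cosh_sq]; ring
  have hS0 : Real.sinh t ≠ 0 := by rwa [Ne, Real.sinh_eq_zero]
  have q0 : ∀ i j, (c.1 * b0M t) i j = (b0M t * c.1) i j := fun i j =>
    congrFun (congrFun (congrArg Subtype.val h0) i) j
  have q1 : ∀ i j, (c.1 * b1M t) i j = (b1M t * c.1) i j := fun i j =>
    congrFun (congrFun (congrArg Subtype.val h1) i) j
  have q2 : ∀ i j, (c.1 * b2M t) i j = (b2M t * c.1) i j := fun i j =>
    congrFun (congrFun (congrArg Subtype.val h2) i) j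
  set A := c.1 with hA
  set C := Real.cosh t
  set S := Real.sinh t
  simp only [Matrix.mul_apply, Fin.sum_univ_four] at q0 q1 q2
  -- from the first boost
  have a1 : A 1 0 = 0 ∧ A 1 3 = 0 := by
    have e1 := q0 1 0
    have e2 := q0 1 3
    simp [b0M] at e1 e2
    exact lin_aux hC hS (by linarith) (by linarith)
  have a2 : A 2 0 = 0 ∧ A 2 3 = 0 := by
    have e1 := q0 2 0
    have e2 := q0 2 3
    simp [b0M] at e1 e2
    exact lin_aux hC hS (by linarith) (by linarith)
  have a3 : A 0 1 = 0 ∧ A 3 1 = 0 := by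
    have e1 := q0 0 1
    have e2 := q0 3 1
    simp [b0M] at e1 e2
    exact lin_aux hC hS (by linarith) (by linarith)
  have a4 : A 0 2 = 0 ∧ A 3 2 = 0 := by
    have e1 := q0 0 2
    have e2 := q0 3 2
    simp [b0M] at e1 e2
    exact lin_aux hC hS (by linarith) (by linarith)
  have a5 : A 0 3 = 0 := by
    have e1 := q1 0 1
    have e2 := q1 0 3
    simp [b1M] at e1 e2
    exact (lin_aux (u := A 0 1) (v := A 0 3) hC hS (by linarith) (by linarith)).2
  have a6 : A 3 0 = 0 := by
    have e1 := q1 1 0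
    have e2 := q1 3 0
    simp [b1M] at e1 e2
    exact (lin_aux (u := A 1 0) (v := A 3 0) hC hS (by linarith) (by linarith)).2
  have a7 : A 2 1 = 0 := by
    have e1 := q1 2 1
    have e2 := q1 2 3
    simp [b1M] at e1 e2
    exact (lin_aux (u := A 2 1) (v := A 2 3) hC hS (by linarith) (by linarith)).1
  have a8 : A 1 2 = 0 := by
    have e1 := q1 1 2
    have e2 := q1 3 2
    simp [b1M] at e1 e2
    exact (lin_aux (u := A 1 2) (v := A 3 2) hC hS (by linarith) (by linarith)).1
  have d0 : A 0 0 = A 3 3 := by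
    have e1 := q0 0 3
    simp [b0M] at e1
    rw [a5] at e1
    have : (A 0 0 - A 3 3) * S = 0 := by linarith
    rcases mul_eq_zero.1 this with h | h
    · linarith
    · exact absurd h hS0
  have d1 : A 1 1 = A 3 3 := by
    have e1 := q1 1 3
    simp [b1M] at e1
    rw [a1.2] at e1
    have : (A 1 1 - A 3 3) * S = 0 := by linarith
    rcases mul_eq_zero.1 this with h | h
    · linarith
    · exact absurd h hS0
  have d2 : A 2 2 = A 3 3 := by
    have e1 := q2 2 3
    simp [b2M] at e1
    rw [a2.2] at e1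
    have : (A 2 2 - A 3 3) * S = 0 := by linarith
    rcases mul_eq_zero.1 this with h | h
    · linarith
    · exact absurd h hS0
  have d3 : A 3 3 = 1 := by
    have hr := LG.row c.1 c.2.1 3 3
    have hp := c.2.2
    simp only [if_true, ← hA] at hr hp
    rw [a6, a3.2, a4.2] at hr
    nlinarith
  rw [d3] at d0 d1 d2
  apply LG.ext'
  show A = 1
  ext i j
  fin_cases i <;> fin_cases j <;> simp [a1.1, a1.2, a2.1, a2.2, a3.1, a3.2, a4.1, a4.2, a5, a6, a7, a8, d0, d1, d2, d3]

theorem null_coset (c n : LG) (hc : c ≠ 1) : mu {g : LG | c * g = g * n} = 0 := by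
  by_contra hpos
  have hE : MeasurableSet {g : LG | c * g = g * n} :=
    (isClosed_eq (continuous_const_mul c) (continuous_mul_const n)).measurableSet
  have hnb := Measure.div_mem_nhds_one_of_haar_pos mu _ hE (pos_iff_ne_zero.2 hpos)
  have hcomm : ∀ x ∈ ({g : LG | c * g = g * n} / {g : LG | c * g = g * n} : Set LG),
      c * x = x * c := by
    rintro _ ⟨g, hg, h, hh, rfl⟩
    have hg' : c * g = g * n := hg
    have hh' : c * h = h * n := hh
    show c * (g / h) = (g / h) * c
    rw [div_eq_mul_inv, ← mul_assoc, hg', mul_assoc, mul_assoc]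
    congr 1
    rw [eq_inv_mul_iff_mul_eq, ← mul_assoc, ← hh', mul_assoc, mul_inv_cancel, mul_one]
  apply hc
  have t0 : Tendsto b0L (𝓝 0) (𝓝 1) := by
    have := continuous_b0L.tendsto 0; rwa [b0L_zero] at this
  have t1 : Tendsto b1L (𝓝 0) (𝓝 1) := by
    have := continuous_b1L.tendsto 0; rwa [b1L_zero] at this
  have t2 : Tendsto b2L (𝓝 0) (𝓝 1) := by
    have := continuous_b2L.tendsto 0; rwa [b2L_zero] at this
  have ev := ((t0.eventually hnb).and ((t1.eventually hnb).and (t2.eventually hnb)))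
  have ev' := (ev.filter_mono (nhdsWithin_le_nhds (s := {0}ᶜ))).and
    (self_mem_nhdsWithin (a := (0 : ℝ)) (s := {0}ᶜ))
  obtain ⟨t, ⟨h0, h1, h2⟩, ht⟩ := ev'.exists
  exact central c t ht (hcomm _ h0) (hcomm _ h1) (hcomm _ h2)

theorem ae_free {Γ : Type*} [Group Γ] [Countable Γ] (φ : Γ →* LG)
    (hφ : Function.Injective φ) :
    ∀ᵐ g ∂mu, ∀ (γ : Γ) (w : W), φ γ * g = g * psi w → γ = 1 ∧ w = 1 := by
  rw [ae_all_iff]
  intro γ
  rw [ae_all_iff]
  intro w
  by_cases hγ : γ = 1
  · subst hγ
    refine Eventually.of_forall fun g hg => ⟨rfl, ?_⟩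
    rw [map_one, one_mul] at hg
    apply psi_injective
    rw [map_one]
    exact (mul_eq_left.1 hg.symm)
  · have hc : φ γ ≠ 1 := by
      intro h; exact hγ (hφ (by rw [h, map_one]))
    have := null_coset (φ γ) (psi w) hc
    rw [← compl_mem_ae_iff] at this
    filter_upwards [this] with g hg hg'
    exact absurd hg' hg

end Pool.Agent.H67R2
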