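import Pool.Agent.H67R2.Assemble
import Pool.Agent.H67R2.Covol2
import Pool.Agent.H67R2.FD
import Pool.Agent.H67R2.Free

set_option autoImplicit false

namespace Pool.Agent.H67R2

open MeasureTheory Topology Set Filter

/-- the ambient space -/
abbrev V0 := LG × (Par × Od)

section

variable {Γ : Type} [Group Γ] (φ : Γ →* LG)

/-- good points -/
def Good (v : V0) : Prop :=
  (∀ (γ : Γ) (w : W), φ γ * v.1 = v.1 * psi w → γ = 1 ∧ w = 1) ∧ ∀ j : ℤ, v.2.2 ≠ (j : Od)

/-- action of `Γ` on the ambient space -/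
def aG (γ : Γ) (v : V0) : V0 := (φ γ * v.1, v.2)

/-- action of `W` on the ambient space -/
noncomputable def aW (w : W) (v : V0) : V0 := (v.1 * (psi w)⁻¹, actP Od w v.2)

theorem good_aG_imp (γ : Γ) (v : V0) (h : Good φ v) : Good φ (aG φ γ v) := by
  refine ⟨fun γ' w h' => ?_, h.2⟩
  have h1 : φ γ' * (φ γ * v.1) = φ γ * v.1 * psi w := h'
  have h2 : φ (γ⁻¹ * γ' * γ) * v.1 = v.1 * psi w := by
    rw [map_mul, map_mul, map_inv, mul_assoc, mul_assoc, h1, mul_assoc, inv_mul_cancel_left]
  obtain ⟨h3, h4⟩ := h.1 _ _ h2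
  refine ⟨?_, h4⟩
  have : γ' = γ * (γ⁻¹ * γ' * γ) * γ⁻¹ := by group
  rw [this, h3]; group

theorem aG_inv (γ : Γ) (v : V0) : aG φ γ⁻¹ (aG φ γ v) = v := by
  refine Prod.ext ?_ rfl
  show φ γ⁻¹ * (φ γ * v.1) = v.1
  rw [map_inv, inv_mul_cancel_left]

theorem good_aG (γ : Γ) (v : V0) : Good φ (aG φ γ v) ↔ Good φ v := by
  constructor
  · intro h
    have := good_aG_imp φ γ⁻¹ _ h
    rwa [aG_inv] at this
  · exact good_aG_imp φ γ v

theorem aW_mul (w w' : W) (v : V0) : aW (w * w') v = aW w (aW w' v) := by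
  refine Prod.ext ?_ ?_
  · show v.1 * (psi (w * w'))⁻¹ = v.1 * (psi w')⁻¹ * (psi w)⁻¹
    rw [map_mul, mul_inv_rev, mul_assoc]
  · show actP Od (w * w') v.2 = actP Od w (actP Od w' v.2)
    rw [map_mul]; rfl

theorem aW_one (v : V0) : aW 1 v = v := by
  refine Prod.ext ?_ ?_
  · show v.1 * (psi 1)⁻¹ = v.1
    simp
  · show actP Od 1 v.2 = v.2
    simp

theorem good_aW_imp (w : W) (v : V0) (h : Good φ v) : Good φ (aW w v) := by
  refine ⟨fun γ w' h' => ?_, fun j hj => ?_⟩
  · have h1 : φ γ * (v.1 * (psi w)⁻¹) = v.1 * (psi w)⁻¹ * psi w' := h'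
    have h2 : φ γ * v.1 = v.1 * psi (w⁻¹ * w' * w) := by
      rw [map_mul, map_mul, map_inv]
      have : φ γ * v.1 = φ γ * (v.1 * (psi w)⁻¹) * psi w := by group
      rw [this, h1]; group
    obtain ⟨h3, h4⟩ := h.1 _ _ h2
    refine ⟨h3, ?_⟩
    have : w' = w * (w⁻¹ * w' * w) * w⁻¹ := by group
    rw [this, h4]; group
  · have h1 := actP_compare (A := Od) w v.2.1 0 v.2.2
    simp only [Int.cast_zero, add_zero] at h1
    have h2 : (aW w v).2.2 = v.2.2 + (((actP ℤ w (v.2.1, 0)).2 : ℤ) : Od) := congrArg Prod.snd h1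
    rw [h2] at hj
    apply h.2 (j - (actP ℤ w (v.2.1, 0)).2)
    push_cast
    rw [← hj]; ring

theorem good_aW (w : W) (v : V0) : Good φ (aW w v) ↔ Good φ v := by
  constructor
  · intro h
    have := good_aW_imp φ w⁻¹ _ h
    rwa [← aW_mul, inv_mul_cancel, aW_one] at this
  · exact good_aW_imp φ w v

/-- the space of good points -/
abbrev VV := {v : V0 // Good φ v}

instance actG : MulAction Γ (VV φ) where
  smul γ v := ⟨aG φ γ v.1, (good_aG φ γ v.1).2 v.2⟩
  one_smul v := Subtype.ext (by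
    show aG φ 1 v.1 = v.1
    refine Prod.ext ?_ rfl
    show φ 1 * v.1.1 = v.1.1
    simp)
  mul_smul γ γ' v := Subtype.ext (by
    show aG φ (γ * γ') v.1 = aG φ γ (aG φ γ' v.1)
    refine Prod.ext ?_ rfl
    show φ (γ * γ') * v.1.1 = φ γ * (φ γ' * v.1.1)
    rw [map_mul, mul_assoc])

noncomputable instance actWV : MulAction W (VV φ) where
  smul w v := ⟨aW w v.1, (good_aW φ w v.1).2 v.2⟩
  one_smul v := Subtype.ext (aW_one v.1)
  mul_smul w w' v := Subtype.ext (aW_mul w w' v.1)

theorem coe_smulG (γ : Γ) (v : VV φ) : (γ • v).1 = aG φ γ v.1 := rfl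
theorem coe_smulW (w : W) (v : VV φ) : (w • v).1 = aW w v.1 := rfl

/-- base measure on the level space -/
noncomputable def mP : Measure (Par × Od) := (Measure.count : Measure Par).prod muO

instance : IsFiniteMeasure mP := by unfold mP; infer_instance

/-- ambient measure -/
noncomputable def m0 : Measure V0 := mu.prod mP

theorem mp_tog (s : Gen) : MeasurePreserving (tog s) (Measure.count : Measure Par)
    (Measure.count : Measure Par) := by
  refine ⟨measurable_of_countable _, ?_⟩
  apply Measure.ext_of_singleton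
  intro e
  rw [Measure.map_apply (measurable_of_countable _) (measurableSet_singleton _)]
  have : tog s ⁻¹' {e} = {tog s e} := by
    ext x
    simp only [mem_preimage, mem_singleton_iff]
    constructor
    · rintro rfl; rw [tog_tog]
    · rintro rfl; rw [tog_tog]
  rw [this, Measure.count_singleton, Measure.count_singleton]

theorem measurable_intCast_Od : Measurable (fun k : ℤ => (k : Od)) := measurable_of_countable _

theorem mp_pS (s : Gen) : MeasurePreserving (pS s : Par × Od → Par × Od) mP mP := by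
  unfold mP
  have hg : Measurable (Function.uncurry (fun (e : Par) (o : Od) => o + ((sgn s e : ℤ) : Od))) := by
    have h1 : Measurable (fun p : Par × Od => ((sgn s p.1 : ℤ) : Od)) := by
      have h2 : Measurable (fun e : Par => ((sgn s e : ℤ) : Od)) := measurable_of_countable _
      exact h2.comp measurable_fst
    exact measurable_snd.add h1
  exact (mp_tog s).skew_product hg (Eventually.of_forall fun e => (muO_add _).map_eq)

theorem mp_actP (w : W) : MeasurePreserving (actP Od w) mP mP := by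
  induction w using W_induction with
  | h1 => rw [map_one]; exact MeasurePreserving.id _
  | h2 s w ih =>
    have : (actP Od (gen s * w) : Par × Od → Par × Od) = pS s ∘ actP Od w := by
      ext1 q; exact actP_gen_mul s w q
    rw [this]
    exact (mp_pS s).comp ih

theorem mp_aG (γ : Γ) : MeasurePreserving (aG φ γ) m0 m0 := by
  unfold m0
  exact (measurePreserving_mul_left mu (φ γ)).prod (MeasurePreserving.id mP)

theorem mp_aW (w : W) : MeasurePreserving (aW w) m0 m0 := by
  unfold m0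
  exact (measurePreserving_mul_right (Uni_inv (Uni_psi w))).prod (mp_actP w)

theorem measurableSet_good [Countable Γ] : MeasurableSet {v : V0 | Good φ v} := by
  have : {v : V0 | Good φ v} =
      (⋂ γ : Γ, ⋂ w : W, {v : V0 | φ γ * v.1 = v.1 * psi w → γ = 1 ∧ w = 1}) ∩
      (⋂ j : ℤ, {v : V0 | v.2.2 ≠ (j : Od)}) := by
    ext v; simp [Good]
  rw [this]
  refine (MeasurableSet.iInter fun γ => MeasurableSet.iInter fun w => ?_).inter
    (MeasurableSet.iInter fun j => ?_)
  · by_cases h : γ = 1 ∧ w = 1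
    · have : {v : V0 | φ γ * v.1 = v.1 * psi w → γ = 1 ∧ w = 1} = univ := by
        ext v; simp [h]
      rw [this]; exact MeasurableSet.univ
    · have : {v : V0 | φ γ * v.1 = v.1 * psi w → γ = 1 ∧ w = 1} =
          (Prod.fst ⁻¹' {g : LG | φ γ * g = g * psi w})ᶜ := by
        ext v
        simp only [mem_ofPred_eq, mem_compl_iff, mem_preimage]
        tauto
      rw [this]
      refine (measurable_fst ?_).compl
      exact (isClosed_eq (continuous_const_mul _) (continuous_mul_const _)).measurableSet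
  · have h1 : Measurable (fun v : V0 => v.2.2) := measurable_snd.comp measurable_snd
    exact (h1 (measurableSet_singleton (j : Od))).compl

theorem ae_good [Countable Γ] (hφ : Function.Injective φ) : ∀ᵐ v ∂m0, Good φ v := by
  unfold m0
  have h1 : ∀ᵐ v ∂(mu.prod mP), ∀ (γ : Γ) (w : W), φ γ * v.1 = v.1 * psi w → γ = 1 ∧ w = 1 :=
    Measure.quasiMeasurePreserving_fst.ae (ae_free φ hφ)
  have h2 : ∀ᵐ o ∂muO, ∀ j : ℤ, o ≠ (j : Od) := by
    have := muO_int
    rw [← compl_mem_ae_iff] at this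
    filter_upwards [this] with o ho j hj
    exact ho ⟨j, hj.symm⟩
  have h3 : ∀ᵐ p ∂mP, ∀ j : ℤ, p.2 ≠ (j : Od) := by
    unfold mP
    exact Measure.quasiMeasurePreserving_snd.ae h2
  have h4 : ∀ᵐ v ∂(mu.prod mP), ∀ j : ℤ, v.2.2 ≠ (j : Od) :=
    Measure.quasiMeasurePreserving_snd.ae h3
  filter_upwards [h1, h4] with v hv1 hv2
  exact ⟨hv1, hv2⟩

/-- restriction of a measure preserving map to an invariant subset -/
theorem mp_restrict {α : Type*} [MeasurableSpace α] (m : Measure α) (P : α → Prop)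
    (hP : MeasurableSet {a | P a}) (f : α → α) (hf : MeasurePreserving f m m)
    (F : {a // P a} → {a // P a}) (hF : ∀ a, (F a).1 = f a.1) (hPf : ∀ a, P (f a) ↔ P a) :
    MeasurePreserving F (m.comap Subtype.val) (m.comap Subtype.val) := by
  have hFm : Measurable F := by
    have h1 : Measurable (fun a => (F a).1) := by
      have : (fun a => (F a).1) = fun a : {a // P a} => f a.1 := funext hF
      rw [this]
      exact hf.measurable.comp measurable_subtype_coe
    exact h1.subtype_mk (h := fun a => (F a).2)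
  refine ⟨hFm, ?_⟩
  have hemb : MeasurableEmbedding (Subtype.val : {a // P a} → α) :=
    MeasurableEmbedding.subtype_coe hP
  ext E hE
  rw [Measure.map_apply hFm hE, hemb.comap_apply, hemb.comap_apply]
  have h1 : (Subtype.val '' (F ⁻¹' E) : Set α) = f ⁻¹' (Subtype.val '' E) := by
    ext a
    constructor
    · rintro ⟨x, hx, rfl⟩
      exact ⟨F x, hx, hF x⟩
    · rintro ⟨y, hy, hya⟩
      have hPa : P a := by
        rw [← hPf, ← hya]; exact y.2
      refine ⟨⟨a, hPa⟩, ?_, rfl⟩
      show F ⟨a, hPa⟩ ∈ E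
      have : F ⟨a, hPa⟩ = y := Subtype.ext (by rw [hF, hya])
      rw [this]; exact hy
  rw [h1]
  exact hf.measure_preimage (hemb.measurableSet_image.2 hE).nullMeasurableSet

/-- measure on good points -/
noncomputable def mV : Measure (VV φ) := m0.comap Subtype.val

theorem mp_G [Countable Γ] (γ : Γ) : MeasurePreserving (fun v : VV φ => γ • v) (mV φ) (mV φ) :=
  mp_restrict m0 (Good φ) (measurableSet_good φ) (aG φ γ) (mp_aG φ γ) _ (fun _ => rfl)
    (good_aG φ γ)

theorem mp_W [Countable Γ] (w : W) : MeasurePreserving (fun v : VV φ => w • v) (mV φ) (mV φ) :=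
  mp_restrict m0 (Good φ) (measurableSet_good φ) (aW w) (mp_aW w) _ (fun _ => rfl)
    (good_aW φ w)

/-- A fundamental domain of `W` has finite Haar measure. -/
theorem mu_fd_lt_top (E : Set LG) (hE : MeasurableSet E)
    (hfd : ∀ g : LG, ∃! w : W, g * (psi w)⁻¹ ∈ E) : mu E < ⊤ := by
  have hsub : E ⊆ ⋃ w : W, (E ∩ {g | g * (psi w)⁻¹ ∈ FP}) := by
    intro g hg
    obtain ⟨w, hw⟩ := cover_LG g
    exact mem_iUnion.2 ⟨w, hg, hw⟩
  have heq : ∀ w : W, mu (E ∩ {g | g * (psi w)⁻¹ ∈ FP}) =
      mu (FP ∩ {h | h * (psi w⁻¹)⁻¹ ∈ E}) := by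
    intro w
    have h1 : MeasurePreserving (· * (psi w)⁻¹) mu mu :=
      measurePreserving_mul_right (Uni_inv (Uni_psi w))
    have hm : MeasurableSet (FP ∩ {h | h * (psi w⁻¹)⁻¹ ∈ E}) :=
      measurableSet_FP.inter ((continuous_mul_const _).measurable hE)
    rw [← h1.measure_preimage hm.nullMeasurableSet]
    congr 1
    ext g
    simp only [mem_inter_iff, mem_ofPred_eq, mem_preimage, map_inv, inv_inv,
      inv_mul_cancel_right]
    tauto
  have hdisj : Pairwise (Function.onFun Disjoint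
      (fun w : W => FP ∩ {h | h * (psi w⁻¹)⁻¹ ∈ E})) := by
    intro w w' hww'
    rw [Function.onFun, Set.disjoint_left]
    rintro h ⟨_, h1⟩ ⟨_, h2⟩
    have := (hfd h).unique h1 h2
    exact hww' (inv_injective this)
  calc mu E ≤ mu (⋃ w : W, (E ∩ {g | g * (psi w)⁻¹ ∈ FP})) := measure_mono hsub
    _ ≤ ∑' w : W, mu (E ∩ {g | g * (psi w)⁻¹ ∈ FP}) := measure_iUnion_le _
    _ = ∑' w : W, mu (FP ∩ {h | h * (psi w⁻¹)⁻¹ ∈ E}) := by simp_rw [heq]
    _ = mu (⋃ w : W, (FP ∩ {h | h * (psi w⁻¹)⁻¹ ∈ E})) := by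
        rw [measure_iUnion hdisj]
        intro w
        exact measurableSet_FP.inter ((continuous_mul_const _).measurable hE)
    _ ≤ mu FP := measure_mono (iUnion_subset fun w => inter_subset_left)
    _ < ⊤ := mu_FP_lt_top

theorem main [Countable Γ] (hφ : Function.Injective φ)
    (hd : ∃ U ∈ 𝓝 (1 : LG), ∀ γ, φ γ ∈ U → γ = 1) : Concl Γ := by
  obtain ⟨U', hU'm, hU'⟩ := exists_fd φ hd
  obtain ⟨D', hD'm, hD'⟩ := exists_fd psi psi_discrete
  let c : Cpl Γ (VV φ) :=
    { comm := by
        intro γ w v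
        apply Subtype.ext
        refine Prod.ext ?_ rfl
        show φ γ * (v.1.1 * (psi w)⁻¹) = φ γ * v.1.1 * (psi w)⁻¹
        rw [mul_assoc]
      free := by
        intro γ w v h
        have h1 : φ γ * (v.1.1 * (psi w)⁻¹) = v.1.1 :=
          congrArg (fun x : VV φ => x.1.1) h
        apply v.2.1 γ w
        rw [← mul_assoc, mul_inv_eq_iff_eq_mul] at h1
        exact h1
      lv := fun v => v.1.2
      lv_W := fun w v => rfl
      lv_G := fun γ v => rfl
      U := {v | v.1.1 ∈ U'}
      hU := fun v => hU' v.1.1 }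
  set D : Set (VV φ) := {v | (v.1.1)⁻¹ ∈ D'} with hD
  have hfst : Measurable (fun v : VV φ => v.1.1) := measurable_fst.comp measurable_subtype_coe
  have hDm : MeasurableSet D := (measurable_inv.comp hfst) hD'm
  have hDfd : ∀ v : VV φ, ∃! w : W, w • v ∈ D := by
    intro v
    obtain ⟨w, hw, hw'⟩ := hD' (v.1.1)⁻¹
    refine ⟨w, ?_, ?_⟩
    · show (v.1.1 * (psi w)⁻¹)⁻¹ ∈ D'
      rw [mul_inv_rev, inv_inv]; exact hw
    · intro w' h
      apply hw'
      have h1 : (v.1.1 * (psi w')⁻¹)⁻¹ ∈ D' := h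
      rwa [mul_inv_rev, inv_inv] at h1
  haveI : StandardBorelSpace (VV φ) := (measurableSet_good φ).standardBorel
  have hemb : MeasurableEmbedding (Subtype.val : VV φ → V0) :=
    MeasurableEmbedding.subtype_coe (measurableSet_good φ)
  have hDtop : mV φ D ≠ ⊤ := by
    apply ne_of_lt
    unfold mV
    rw [hemb.comap_apply]
    have hsub : (Subtype.val '' D : Set V0) ⊆ {g : LG | g⁻¹ ∈ D'} ×ˢ univ := by
      rintro _ ⟨v, hv, rfl⟩
      exact ⟨hv, mem_univ _⟩
    refine lt_of_le_of_lt (measure_mono hsub) ?_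
    unfold m0
    rw [Measure.prod_prod]
    refine ENNReal.mul_lt_top ?_ (measure_lt_top _ _)
    refine mu_fd_lt_top _ (measurable_inv hD'm) ?_
    intro g
    obtain ⟨w, hw, hw'⟩ := hD' g⁻¹
    refine ⟨w, ?_, ?_⟩
    · show (g * (psi w)⁻¹)⁻¹ ∈ D'
      rw [mul_inv_rev, inv_inv]; exact hw
    · intro w' h
      apply hw'
      have h1 : (g * (psi w')⁻¹)⁻¹ ∈ D' := h
      rwa [mul_inv_rev, inv_inv] at h1
  have hD0 : mV φ D ≠ 0 := by
    intro h0
    have hU : mV φ univ = 0 := by
      have hsub : (univ : Set (VV φ)) ⊆ ⋃ w : W, (fun v : VV φ => w • v) ⁻¹' D := by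
        intro v _
        obtain ⟨w, hw, _⟩ := hDfd v
        exact mem_iUnion.2 ⟨w, hw⟩
      refine measure_mono_null hsub (measure_iUnion_null fun w => ?_)
      rw [(mp_W φ w).measure_preimage hDm.nullMeasurableSet, h0]
    unfold mV at hU
    rw [hemb.comap_apply, image_univ, Subtype.range_coe] at hU
    have h1 : m0 {v | Good φ v}ᶜ = 0 := by
      have := ae_good φ hφ
      rwa [ae_iff] at this
    have h2 : m0 univ = 0 := by
      rw [← Set.union_compl_self {v | Good φ v}]
      exact measure_union_null hU h1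
    unfold m0 mP at h2
    rw [← univ_prod_univ, Measure.prod_prod, ← univ_prod_univ, Measure.prod_prod] at h2
    have p1 : mu univ ≠ 0 := (isOpen_univ.measure_pos mu univ_nonempty).ne'
    have p2 : muO univ ≠ 0 := (isOpen_univ.measure_pos muO univ_nonempty).ne'
    have p3 : (Measure.count : Measure Par) univ ≠ 0 := by simp
    simp [p1, p2] at h2
  exact concl c (mV φ) (mp_G φ) (mp_W φ) (measurable_snd.comp measurable_subtype_coe)
    (hfst hU'm) D hDm hDfd hD0 hDtop (fun v j => v.2.2 j)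

end

end Pool.Agent.H67R2
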