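import Mathlib

set_option autoImplicit false

namespace Pool.Agent.H67R2

open SimpleGraph

/-- Acyclicity through a local rank: in each vertex's closed piece there is a rank such that
adjacent vertices have different ranks and every vertex has at most one neighbour of lower rank. -/
theorem isAcyclic_of_rank {V : Type*} (G : SimpleGraph V)
    (h : ∀ v0 : V, ∃ (K : Set V) (rk : V → ℕ), v0 ∈ K ∧
      (∀ v ∈ K, ∀ w, G.Adj v w → w ∈ K) ∧
      (∀ v ∈ K, ∀ w, G.Adj v w → rk w ≠ rk v) ∧
      (∀ v ∈ K, ∀ w w', G.Adj v w → G.Adj v w' → rk w < rk v → rk w' < rk v → w = w')) :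
    G.IsAcyclic := by
  classical
  intro v0 c hc
  obtain ⟨K, rk, hv0, hcl, hne, huniq⟩ := h v0
  have hsupp : ∀ v ∈ c.support, v ∈ K := by
    intro v hv
    have : ∀ (a b : V) (p : G.Walk a b), a ∈ K → ∀ x ∈ p.support, x ∈ K := by
      intro a b p
      induction p with
      | nil => intro ha x hx; simp at hx; exact hx ▸ ha
      | cons hadj p ih =>
        intro ha x hx
        rw [Walk.support_cons, List.mem_cons] at hx
        rcases hx with rfl | hx
        · exact ha
        · exact ih (hcl _ ha _ hadj) x hx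
    exact this _ _ c hv0 v hv
  -- vertex of maximal rank
  obtain ⟨m, hm, hmax⟩ := c.support.toFinset.exists_max_image rk
    ⟨v0, by simp⟩
  rw [List.mem_toFinset] at hm
  have hc' := hc.rotate hm
  set d := c.rotate m hm with hd
  have hdsupp : ∀ x ∈ d.support, x ∈ c.support := by
    intro x hx
    exact (Walk.mem_support_rotate_iff c m hm).1 hx
  have hnn : ¬ d.Nil := hc'.not_nil
  have h1 : G.Adj m d.snd := d.adj_snd hnn
  have h2 : G.Adj m d.penultimate := (d.adj_penultimate hnn).symm
  have hne' := hc'.snd_ne_penultimate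
  apply hne'
  have hmK := hsupp m hm
  have hs : d.snd ∈ c.support := hdsupp _ (d.getVert_mem_support 1)
  have hp : d.penultimate ∈ c.support := hdsupp _ (d.getVert_mem_support _)
  apply huniq m hmK _ _ h1 h2
  · exact lt_of_le_of_ne (hmax _ (by simpa using hs)) (hne m hmK _ h1)
  · exact lt_of_le_of_ne (hmax _ (by simpa using hp)) (hne m hmK _ h2)

section Contraction

open MeasureTheory Set Function

variable {V : Type*} [MeasurableSpace V]

/-- vertices at distance at most `k` from `X`. -/
def layer (T : SimpleGraph V) (f : ℕ → V → V) (X : Set V) : ℕ → Set V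
  | 0 => X
  | k + 1 => layer T f X k ∪ ⋃ i, {v | T.Adj v (f i v) ∧ f i v ∈ layer T f X k}

theorem layer_measurable (T : SimpleGraph V) (f : ℕ → V → V) (X : Set V)
    (hf : ∀ i, Measurable (f i)) (hTm : MeasurableSet {p : V × V | T.Adj p.1 p.2})
    (hX : MeasurableSet X) (k : ℕ) : MeasurableSet (layer T f X k) := by
  induction k with
  | zero => exact hX
  | succ k ih =>
    refine ih.union (MeasurableSet.iUnion fun i => ?_)
    have h1 : MeasurableSet {v | T.Adj v (f i v)} :=
      hTm.preimage (measurable_id.prodMk (hf i))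
    exact h1.inter (ih.preimage (hf i))

theorem contraction [MeasurableEq V]
    (f : ℕ → V → V) (hf : ∀ i, Measurable (f i))
    (T : SimpleGraph V) (hTm : MeasurableSet {p : V × V | T.Adj p.1 p.2})
    (hT : ∀ v w, T.Reachable v w → ∃ i, f i v = w)
    (hac : T.IsAcyclic) (X : Set V) (hX : MeasurableSet X) :
    ∃ G : SimpleGraph V, MeasurableSet {p : V × V | G.Adj p.1 p.2} ∧
      (∀ x y, G.Adj x y → x ∈ X ∧ y ∈ X) ∧
      (∀ x y, G.Adj x y → T.Reachable x y) ∧
      (∀ x ∈ X, ∀ y ∈ X, T.Reachable x y → G.Reachable x y) ∧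
      G.IsAcyclic := by
  classical
  set A : ℕ → Set V := layer T f X with hA
  have hAm : ∀ k, MeasurableSet (A k) := layer_measurable T f X hf hTm hX
  have hA0 : A 0 = X := rfl
  have hAs : ∀ k, A (k + 1) = A k ∪ ⋃ i, {v | T.Adj v (f i v) ∧ f i v ∈ A k} := fun k => rfl
  have hex : ∀ v : V, ∃ k, v ∈ A k ∨ v ∉ ⋃ j, A j := by
    intro v
    by_cases h : v ∈ ⋃ j, A j
    · obtain ⟨k, hk⟩ := mem_iUnion.1 h
      exact ⟨k, Or.inl hk⟩
    · exact ⟨0, Or.inr h⟩
  set B : Set V := ⋃ j, A j with hB
  have hBm : MeasurableSet B := MeasurableSet.iUnion hAm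
  set ℓ : V → ℕ := fun v => Nat.find (hex v) with hℓ
  have hℓm : Measurable ℓ :=
    measurable_find hex (fun k => (hAm k).union hBm.compl)
  have hℓA : ∀ v ∈ B, v ∈ A (ℓ v) := by
    intro v hv
    have := Nat.find_spec (hex v)
    rcases this with h | h
    · exact h
    · exact absurd hv h
  have hℓle : ∀ v k, v ∈ A k → ℓ v ≤ k := fun v k hk => Nat.find_min' (hex v) (Or.inl hk)
  have hℓX : ∀ v ∈ X, ℓ v = 0 := fun v hv => Nat.le_zero.1 (hℓle v 0 hv)
  have hXB : X ⊆ B := fun v hv => mem_iUnion.2 ⟨0, hv⟩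
  have hex2 : ∀ v : V, ∃ i, (v ∉ B ∨ v ∈ X) ∨
      (T.Adj v (f i v) ∧ f i v ∈ B ∧ ℓ (f i v) < ℓ v) := by
    intro v
    by_cases h : v ∉ B ∨ v ∈ X
    · exact ⟨0, Or.inl h⟩
    · push Not at h
      obtain ⟨hvB, hvX⟩ := h
      have h1 := hℓA v hvB
      obtain ⟨n, hn⟩ : ∃ n, ℓ v = n := ⟨_, rfl⟩
      cases n with
      | zero => rw [hn, hA0] at h1; exact absurd h1 hvX
      | succ n =>
        rw [hn, hAs] at h1
        rcases h1 with h1 | h1
        · have := hℓle v n h1; omega
        · obtain ⟨i, hi1, hi2⟩ := mem_iUnion.1 h1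
          refine ⟨i, Or.inr ⟨hi1, mem_iUnion.2 ⟨n, hi2⟩, ?_⟩⟩
          have := hℓle _ n hi2
          omega
  set idx : V → ℕ := fun v => Nat.find (hex2 v) with hidx
  have hidxm : Measurable idx := by
    refine measurable_find hex2 (fun i => ?_)
    refine (hBm.compl.union hX).union ?_
    refine MeasurableSet.inter ?_ (MeasurableSet.inter ?_ ?_)
    · exact hTm.preimage (measurable_id.prodMk (hf i))
    · exact hBm.preimage (hf i)
    · exact measurableSet_lt (hℓm.comp (hf i)) hℓm
  set step : V → V := fun v => if v ∈ B \ X then f (idx v) v else v with hstep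
  have hstepm : Measurable step := by
    refine Measurable.ite (hBm.diff hX) ?_ measurable_id
    have h1 : Measurable (fun p : ℕ × V => f p.1 p.2) :=
      measurable_from_prod_countable_right fun n => hf n
    exact h1.comp (hidxm.prodMk measurable_id)
  have hstep1 : ∀ v ∈ B, v ∉ X → T.Adj v (step v) ∧ step v ∈ B ∧ ℓ (step v) < ℓ v := by
    intro v hvB hvX
    have h1 : step v = f (idx v) v := by simp [hstep, hvB, hvX]
    rw [h1]
    rcases Nat.find_spec (hex2 v) with h | h
    · rcases h with h | h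
      · exact absurd hvB h
      · exact absurd h hvX
    · exact h
  have hstepX : ∀ v ∈ X, step v = v := by
    intro v hv; simp [hstep, hv]
  have hstepB : ∀ v, v ∉ B → step v = v := by
    intro v hv; simp [hstep, hv]
  set c : V → V := fun v => step^[ℓ v] v with hc
  have hcm : Measurable c := by
    have h1 : Measurable (fun p : ℕ × V => step^[p.1] p.2) :=
      measurable_from_prod_countable_right fun n => hstepm.iterate n
    exact h1.comp (hℓm.prodMk measurable_id)
  -- iterating further changes nothing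
  have hit : ∀ n v, v ∈ B → ℓ v ≤ n → step^[n] v = c v ∧ c v ∈ X := by
    intro n
    induction n using Nat.strong_induction_on with
    | _ n ih =>
      intro v hvB hn
      by_cases hvX : v ∈ X
      · have h0 : ∀ m, step^[m] v = v := fun m => Function.iterate_fixed (hstepX v hvX) m
        simp only [hc, h0]
        exact ⟨trivial, hvX⟩
      · obtain ⟨-, h2, h3⟩ := hstep1 v hvB hvX
        obtain ⟨m, rfl⟩ : ∃ m, n = m + 1 := ⟨n - 1, by omega⟩
        obtain ⟨l, hl⟩ : ∃ l, ℓ v = l + 1 := ⟨ℓ v - 1, by omega⟩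
        have h4 := ih m (by omega) (step v) h2 (by omega)
        rw [Function.iterate_succ_apply, h4.1]
        have h5 : c v = c (step v) := by
          show step^[ℓ v] v = _
          rw [hl, Function.iterate_succ_apply]
          exact (ih l (by omega) (step v) h2 (by omega)).1
        exact ⟨h5.symm, h5 ▸ h4.2⟩
  have hcX : ∀ v ∈ B, c v ∈ X := fun v hv => (hit _ v hv le_rfl).2
  have hcfix : ∀ v ∈ X, c v = v := by
    intro v hv
    simp only [hc, hℓX v hv, Function.iterate_zero, id]
  have hcstep : ∀ v ∈ B, c (step v) = c v := by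
    intro v hv
    by_cases hvX : v ∈ X
    · rw [hstepX v hvX]
    · obtain ⟨-, h2, h3⟩ := hstep1 v hv hvX
      obtain ⟨l, hl⟩ : ∃ l, ℓ v = l + 1 := ⟨ℓ v - 1, by omega⟩
      have := (hit l (step v) h2 (by omega)).1
      rw [← this]
      show _ = step^[ℓ v] v
      rw [hl, Function.iterate_succ_apply]
  have hcB : ∀ v, v ∉ B → c v = v := by
    intro v hv
    exact Function.iterate_fixed (hstepB v hv) _
  have hcXB : ∀ v, c v ∈ X → v ∈ B := by
    intro v hv
    by_contra h
    rw [hcB v h] at hv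
    exact h (hXB hv)
  -- adjacency preserves B
  have hadjB : ∀ v w, T.Adj v w → v ∈ B → w ∈ B := by
    intro v w h hv
    obtain ⟨k, hk⟩ := mem_iUnion.1 hv
    obtain ⟨i, hi⟩ := hT w v h.symm.reachable
    refine mem_iUnion.2 ⟨k + 1, ?_⟩
    rw [hAs]
    right
    refine mem_iUnion.2 ⟨i, ?_⟩
    rw [mem_ofPred_eq, hi]
    exact ⟨h.symm, hk⟩
  -- the path from v to c v avoids any edge that is not contracted
  have hpath : ∀ (T' : SimpleGraph V), (∀ v w, T.Adj v w → c v = c w → T'.Adj v w) →
      ∀ n v, v ∈ B → ℓ v ≤ n → T'.Reachable v (c v) := by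
    intro T' hT' n
    induction n with
    | zero =>
      intro v hv hn
      have : v ∈ X := by
        have := hℓA v hv
        rwa [Nat.le_zero.1 hn] at this
      rw [hcfix v this]
    | succ n ih =>
      intro v hv hn
      by_cases hvX : v ∈ X
      · rw [hcfix v hvX]
      · obtain ⟨h1, h2, h3⟩ := hstep1 v hv hvX
        have h4 := ih (step v) h2 (by omega)
        rw [hcstep v hv] at h4
        exact (hT' _ _ h1 (hcstep v hv).symm).reachable.trans h4
  have hpathT : ∀ v ∈ B, T.Reachable v (c v) := fun v hv =>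
    hpath T (fun _ _ h _ => h) _ v hv le_rfl
  let G : SimpleGraph V :=
    { Adj := fun x y => x ≠ y ∧ x ∈ X ∧ y ∈ X ∧ ∃ v w, T.Adj v w ∧ c v = x ∧ c w = y
      symm := ⟨by
        rintro x y ⟨h1, h2, h3, v, w, h4, h5, h6⟩
        exact ⟨h1.symm, h3, h2, w, v, h4.symm, h6, h5⟩⟩
      loopless := ⟨fun x h => h.1 rfl⟩ }
  have hGadj : ∀ x y, G.Adj x y ↔ x ≠ y ∧ x ∈ X ∧ y ∈ X ∧
      ∃ v w, T.Adj v w ∧ c v = x ∧ c w = y := fun x y => Iff.rfl
  refine ⟨G, ?_, ?_, ?_, ?_, ?_⟩
  · have : {p : V × V | G.Adj p.1 p.2} = {p : V × V | p.1 ≠ p.2 ∧ p.1 ∈ X ∧ p.2 ∈ X} ∩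
        ⋃ i, ⋃ j, {p : V × V | T.Adj (f i p.1) (f j p.1) ∧ c (f i p.1) = p.1 ∧
          c (f j p.1) = p.2} := by
      ext ⟨x, y⟩
      simp only [mem_ofPred_eq, mem_inter_iff, mem_iUnion, hGadj]
      constructor
      · rintro ⟨h1, h2, h3, v, w, h4, h5, h6⟩
        refine ⟨⟨h1, h2, h3⟩, ?_⟩
        have hvB : v ∈ B := hcXB v (h5 ▸ h2)
        have hr1 : T.Reachable x v := h5 ▸ (hpathT v hvB).symm
        have hr2 : T.Reachable x w := hr1.trans h4.reachable
        obtain ⟨i, hi⟩ := hT _ _ hr1
        obtain ⟨j, hj⟩ := hT _ _ hr2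
        exact ⟨i, j, by rw [hi, hj]; exact ⟨h4, h5, h6⟩⟩
      · rintro ⟨⟨h1, h2, h3⟩, i, j, h4, h5, h6⟩
        exact ⟨h1, h2, h3, _, _, h4, h5, h6⟩
    rw [this]
    refine MeasurableSet.inter ?_ (MeasurableSet.iUnion fun i => MeasurableSet.iUnion fun j => ?_)
    · refine MeasurableSet.inter ?_ (MeasurableSet.inter ?_ ?_)
      · exact (measurableSet_eq_fun measurable_fst measurable_snd).compl
      · exact hX.preimage measurable_fst
      · exact hX.preimage measurable_snd
    · refine MeasurableSet.inter ?_ (MeasurableSet.inter ?_ ?_)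
      · exact hTm.preimage (((hf i).comp measurable_fst).prodMk ((hf j).comp measurable_fst))
      · exact measurableSet_eq_fun (hcm.comp ((hf i).comp measurable_fst)) measurable_fst
      · exact measurableSet_eq_fun (hcm.comp ((hf j).comp measurable_fst)) measurable_snd
  · rintro x y ⟨-, h2, h3, -⟩
    exact ⟨h2, h3⟩
  · rintro x y ⟨-, h2, h3, v, w, h4, h5, h6⟩
    have hvB : v ∈ B := hcXB v (h5 ▸ h2)
    have hwB : w ∈ B := hcXB w (h6 ▸ h3)
    have := ((hpathT v hvB).symm.trans h4.reachable).trans (hpathT w hwB)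
    rwa [h5, h6] at this
  · -- reachability
    have key : ∀ a b, T.Walk a b → a ∈ B → G.Reachable (c a) (c b) := by
      intro a b p
      induction p with
      | nil => intro _; exact Reachable.refl _
      | @cons a' b' c' hadj p ih =>
        intro ha
        have hb : b' ∈ B := hadjB _ _ hadj ha
        refine Reachable.trans ?_ (ih hb)
        by_cases he : c a' = c b'
        · rw [he]
        · exact (show G.Adj (c a') (c b') from
            ⟨he, hcX _ ha, hcX _ hb, a', b', hadj, rfl, rfl⟩).reachable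
    intro x hx y hy h
    obtain ⟨p⟩ := h
    have := key x y p (hXB hx)
    rwa [hcfix x hx, hcfix y hy] at this
  · -- acyclic
    rw [isAcyclic_iff_forall_adj_isBridge] at hac ⊢
    rintro x y ⟨hxy, hx, hy, v, w, hvw, hv, hw⟩
    rw [isBridge_iff]
    intro hre
    have hbr := hac hvw
    rw [isBridge_iff] at hbr
    apply hbr
    set T' := T.deleteEdges {s(v, w)} with hT'
    have hcon : ∀ a b, T.Adj a b → c a = c b → T'.Adj a b := by
      intro a b hab hcab
      rw [hT', deleteEdges_adj]
      refine ⟨hab, ?_⟩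
      intro hmem
      rw [mem_singleton_iff, Sym2.eq_iff] at hmem
      rcases hmem with ⟨rfl, rfl⟩ | ⟨rfl, rfl⟩
      · exact hxy (by rw [← hv, ← hw, hcab])
      · exact hxy (by rw [← hv, ← hw, hcab])
    have hp' : ∀ a ∈ B, T'.Reachable a (c a) := fun a ha => hpath T' hcon _ a ha le_rfl
    have hwalk : ∀ a b, (G.deleteEdges {s(x, y)}).Walk a b → a ∈ X → T'.Reachable a b := by
      intro a b p
      induction p with
      | nil => intro _; exact Reachable.refl _
      | @cons a' b' c' hadj p ih =>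
        intro ha
        rw [deleteEdges_adj] at hadj
        obtain ⟨⟨h1, h2, h3, r, t, h4, h5, h6⟩, hne⟩ := hadj
        refine Reachable.trans ?_ (ih h3)
        have hrB : r ∈ B := hcXB r (h5 ▸ h2)
        have htB : t ∈ B := hcXB t (h6 ▸ h3)
        have hrt : T'.Adj r t := by
          rw [hT', deleteEdges_adj]
          refine ⟨h4, ?_⟩
          intro hmem
          apply hne
          rw [mem_singleton_iff, Sym2.eq_iff] at hmem ⊢
          rcases hmem with ⟨rfl, rfl⟩ | ⟨rfl, rfl⟩
          · left; exact ⟨by rw [← h5, hv], by rw [← h6, hw]⟩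
          · right; exact ⟨by rw [← h5, hw], by rw [← h6, hv]⟩
        have := ((hp' r hrB).symm.trans hrt.reachable).trans (hp' t htB)
        rwa [h5, h6] at this
    obtain ⟨p⟩ := hre
    have h1 := hwalk x y p hx
    have hvB : v ∈ B := hcXB v (hv ▸ hx)
    have hwB : w ∈ B := hcXB w (hw ▸ hy)
    have h2 := hp' v hvB
    have h3 := hp' w hwB
    rw [hv] at h2
    rw [hw] at h3
    exact (h2.trans h1).trans h3.symm

end Contraction

end Pool.Agent.H67R2
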