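import Mathlib

set_option autoImplicit false

namespace Pool.Agent.H67R2

open MeasureTheory Topology Matrix

/-- 4x4 real matrices. -/
abbrev M4 := Matrix (Fin 4) (Fin 4) ℝ

/-- The Lorentz form. -/
def J : M4 := Matrix.diagonal ![1, 1, 1, -1]

theorem J_mul_J : J * J = 1 := by
  unfold J
  rw [Matrix.diagonal_mul_diagonal]
  ext i j
  fin_cases i <;> fin_cases j <;> simp [Matrix.diagonal]

theorem J_transpose : Jᵀ = J := by simp [J]

/-- The orthochronous Lorentz group. -/
def LG : Type := {g : M4 // gᵀ * J * g = J ∧ 0 < g 3 3}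

namespace LG

instance : CoeOut LG M4 := ⟨Subtype.val⟩

theorem ext' {g h : LG} (hh : g.1 = h.1) : g = h := Subtype.ext hh

theorem J_apply (i j : Fin 4) : J i j = if i = j then (if i = 3 then -1 else 1) else 0 := by
  fin_cases i <;> fin_cases j <;> simp [J]

theorem left_inv_mat {g : M4} (h : gᵀ * J * g = J) : (J * gᵀ * J) * g = 1 := by
  rw [Matrix.mul_assoc, Matrix.mul_assoc, ← Matrix.mul_assoc gᵀ, h, J_mul_J]

theorem right_inv_mat {g : M4} (h : gᵀ * J * g = J) : g * (J * gᵀ * J) = 1 :=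
  mul_eq_one_comm.1 (left_inv_mat h)

theorem transp_mat {g : M4} (h : gᵀ * J * g = J) : g * J * gᵀ = J := by
  have h1 := right_inv_mat h
  have h2 : g * J * gᵀ = (g * (J * gᵀ * J)) * J := by
    have : (g * (J * gᵀ * J)) * J = g * J * gᵀ * (J * J) := by simp only [Matrix.mul_assoc]
    rw [this, J_mul_J, Matrix.mul_one]
  rw [h2, h1, Matrix.one_mul]

theorem form_apply (g : M4) (i j : Fin 4) :
    (gᵀ * J * g) i j = g 0 i * g 0 j + g 1 i * g 1 j + g 2 i * g 2 j - g 3 i * g 3 j := by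
  simp [Matrix.mul_apply, Fin.sum_univ_four, Matrix.transpose_apply, J_apply]
  ring

theorem form_apply' (g : M4) (i j : Fin 4) :
    (g * J * gᵀ) i j = g i 0 * g j 0 + g i 1 * g j 1 + g i 2 * g j 2 - g i 3 * g j 3 := by
  simp [Matrix.mul_apply, Fin.sum_univ_four, Matrix.transpose_apply, J_apply]
  ring

theorem col (g : M4) (h : gᵀ * J * g = J) (i j : Fin 4) :
    g 0 i * g 0 j + g 1 i * g 1 j + g 2 i * g 2 j - g 3 i * g 3 j =
      if i = j then (if i = 3 then -1 else 1) else 0 := by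
  rw [← form_apply, h, J_apply]

theorem row (g : M4) (h : gᵀ * J * g = J) (i j : Fin 4) :
    g i 0 * g j 0 + g i 1 * g j 1 + g i 2 * g j 2 - g i 3 * g j 3 =
      if i = j then (if i = 3 then -1 else 1) else 0 := by
  rw [← form_apply', transp_mat h, J_apply]

theorem mul_pos_aux (g h : M4) (hg : gᵀ * J * g = J ∧ 0 < g 3 3) (hh : hᵀ * J * h = J ∧ 0 < h 3 3) :
    0 < (g * h) 3 3 := by
  have h1 := row g hg.1 3 3
  have h2 := col h hh.1 3 3
  simp only [if_true] at h1 h2
  rw [Matrix.mul_apply, Fin.sum_univ_four]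
  have hg3 := hg.2
  have hh3 := hh.2
  have key : (g 3 0 * h 0 3 + g 3 1 * h 1 3 + g 3 2 * h 2 3) ^ 2 < (g 3 3 * h 3 3) ^ 2 := by
    have cs : (g 3 0 * h 0 3 + g 3 1 * h 1 3 + g 3 2 * h 2 3) ^ 2 ≤
        (g 3 0 ^ 2 + g 3 1 ^ 2 + g 3 2 ^ 2) * (h 0 3 ^ 2 + h 1 3 ^ 2 + h 2 3 ^ 2) := by
      nlinarith [sq_nonneg (g 3 0 * h 1 3 - g 3 1 * h 0 3),
        sq_nonneg (g 3 0 * h 2 3 - g 3 2 * h 0 3), sq_nonneg (g 3 1 * h 2 3 - g 3 2 * h 1 3)]
    have e1 : g 3 0 ^ 2 + g 3 1 ^ 2 + g 3 2 ^ 2 = g 3 3 ^ 2 - 1 := by nlinarith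
    have e2 : h 0 3 ^ 2 + h 1 3 ^ 2 + h 2 3 ^ 2 = h 3 3 ^ 2 - 1 := by nlinarith
    rw [e1, e2] at cs
    have p1 : 1 ≤ g 3 3 ^ 2 := by nlinarith [sq_nonneg (g 3 0), sq_nonneg (g 3 1), sq_nonneg (g 3 2)]
    have p2 : 1 ≤ h 3 3 ^ 2 := by nlinarith [sq_nonneg (h 0 3), sq_nonneg (h 1 3), sq_nonneg (h 2 3)]
    nlinarith
  have := abs_lt_of_sq_lt_sq key (by positivity)
  rw [abs_lt] at this
  linarith [this.1]

instance : Mul LG := ⟨fun g h => ⟨g.1 * h.1, by
  refine ⟨?_, mul_pos_aux _ _ g.2 h.2⟩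
  rw [Matrix.transpose_mul]
  calc (h.1)ᵀ * (g.1)ᵀ * J * (g.1 * h.1) = (h.1)ᵀ * ((g.1)ᵀ * J * g.1) * h.1 := by
        simp only [Matrix.mul_assoc]
    _ = J := by rw [g.2.1, h.2.1]⟩⟩

instance : One LG := ⟨⟨1, by simp⟩⟩

theorem inv_aux (g : M4) (hg : gᵀ * J * g = J ∧ 0 < g 3 3) :
    (J * gᵀ * J)ᵀ * J * (J * gᵀ * J) = J ∧ 0 < (J * gᵀ * J) 3 3 := by
  constructor
  · rw [Matrix.transpose_mul, Matrix.transpose_mul, Matrix.transpose_transpose, J_transpose]
    calc J * (g * J) * J * (J * gᵀ * J) = J * (g * J * (J * J) * gᵀ) * J := by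
          simp only [Matrix.mul_assoc]
      _ = J := by rw [J_mul_J, Matrix.mul_one, transp_mat hg.1, J_mul_J, Matrix.one_mul]
  · have : (J * gᵀ * J) 3 3 = g 3 3 := by
      simp [Matrix.mul_apply, J_apply, Matrix.transpose_apply]
    rw [this]; exact hg.2

instance : Inv LG := ⟨fun g => ⟨J * (g.1)ᵀ * J, inv_aux g.1 g.2⟩⟩

@[simp] theorem coe_mul (g h : LG) : (g * h).1 = g.1 * h.1 := rfl
@[simp] theorem coe_one : (1 : LG).1 = 1 := rfl
theorem coe_inv (g : LG) : (g⁻¹).1 = J * (g.1)ᵀ * J := rfl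

instance : Group LG :=
  Group.ofLeftAxioms
    (fun _ _ _ => ext' (Matrix.mul_assoc _ _ _))
    (fun _ => ext' (Matrix.one_mul _))
    (fun a => ext' (left_inv_mat a.2.1))

/-! ### topology -/

instance : TopologicalSpace LG := instTopologicalSpaceSubtype

theorem continuous_coe : Continuous (fun g : LG => g.1) := continuous_subtype_val

theorem isEmbedding_coe : IsEmbedding (fun g : LG => g.1) := IsEmbedding.subtypeVal

theorem continuous_entry (i j : Fin 4) : Continuous (fun g : LG => g.1 i j) :=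
  (continuous_coe.matrix_elem i j)

instance : IsTopologicalGroup LG where
  continuous_mul := by
    refine Continuous.subtype_mk ?_ _
    exact (continuous_coe.comp continuous_fst).matrix_mul (continuous_coe.comp continuous_snd)
  continuous_inv := by
    refine Continuous.subtype_mk ?_ _
    exact (continuous_const.matrix_mul continuous_coe.matrix_transpose).matrix_mul continuous_const

theorem one_le_entry (g : LG) : 1 ≤ g.1 3 3 := by
  have h1 := row g.1 g.2.1 3 3
  simp only [if_true] at h1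
  have := g.2.2
  nlinarith [sq_nonneg (g.1 3 0), sq_nonneg (g.1 3 1), sq_nonneg (g.1 3 2)]

theorem isClosed_range : IsClosed {g : M4 | gᵀ * J * g = J ∧ 0 < g 3 3} := by
  have : {g : M4 | gᵀ * J * g = J ∧ 0 < g 3 3} = {g : M4 | gᵀ * J * g = J} ∩ {g : M4 | 1 ≤ g 3 3} := by
    ext g
    constructor
    · intro h
      exact ⟨h.1, one_le_entry ⟨g, h⟩⟩
    · intro h
      exact ⟨h.1, lt_of_lt_of_le one_pos h.2⟩
  rw [this]
  apply IsClosed.inter
  · apply isClosed_eq
    · exact (continuous_id.matrix_transpose.matrix_mul continuous_const).matrix_mul continuous_id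
    · exact continuous_const
  · exact isClosed_le continuous_const (continuous_id.matrix_elem 3 3)

theorem isClosedEmbedding_coe : IsClosedEmbedding (fun g : LG => g.1) :=
  isClosed_range.isClosedEmbedding_subtypeVal

instance : LocallyCompactSpace M4 := inferInstanceAs (LocallyCompactSpace (Fin 4 → Fin 4 → ℝ))
instance : PolishSpace M4 := inferInstanceAs (PolishSpace (Fin 4 → Fin 4 → ℝ))
instance : T2Space M4 := inferInstanceAs (T2Space (Fin 4 → Fin 4 → ℝ))

instance : LocallyCompactSpace LG := isClosedEmbedding_coe.locallyCompactSpace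
instance : PolishSpace LG := isClosedEmbedding_coe.polishSpace
instance : SecondCountableTopology LG := inferInstance
instance : T2Space LG := inferInstance

instance : MeasurableSpace LG := borel LG
instance : BorelSpace LG := ⟨rfl⟩
instance : StandardBorelSpace LG := inferInstance

end LG

end Pool.Agent.H67R2
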