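import Mathlib

set_option autoImplicit false

namespace Pool.Agent.H67R2

open MeasureTheory Topology Set

/-- the 2-adic integers -/
abbrev Od := ℤ_[2]

noncomputable instance : MeasurableSpace Od := borel Od
instance : BorelSpace Od := ⟨rfl⟩
instance : PolishSpace Od := inferInstance
instance : StandardBorelSpace Od := inferInstance

/-- residue modulo `2^n` in `[0,2^n)` -/
noncomputable def rr (n : ℕ) (o : Od) : ℤ := ((PadicInt.toZModPow n o).val : ℤ)

theorem rr_nonneg (n : ℕ) (o : Od) : 0 ≤ rr n o := by unfold rr; positivity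

theorem rr_lt (n : ℕ) (o : Od) : rr n o < 2 ^ n := by
  unfold rr
  have : NeZero (2 ^ n) := ⟨by positivity⟩
  have := ZMod.val_lt (PadicInt.toZModPow n o)
  exact_mod_cast this

theorem rr_cast (n : ℕ) (o : Od) : ((rr n o : ℤ) : ZMod (2 ^ n)) = PadicInt.toZModPow n o := by
  unfold rr
  have : NeZero (2 ^ n) := ⟨by positivity⟩
  push_cast
  exact ZMod.natCast_zmod_val _

theorem rr_unique (n : ℕ) (o : Od) (k : ℤ) (h0 : 0 ≤ k) (h1 : k < 2 ^ n)
    (h : ((k : ℤ) : ZMod (2 ^ n)) = PadicInt.toZModPow n o) : rr n o = k := by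
  rw [← rr_cast, ZMod.intCast_eq_intCast_iff] at h
  have h2 : (2 ^ n : ℕ) = (2 : ℤ) ^ n := by push_cast; rfl
  have := Int.ModEq.symm h
  unfold Int.ModEq at this
  rw [h2, Int.emod_eq_of_lt (rr_nonneg n o) (rr_lt n o), Int.emod_eq_of_lt h0 h1] at this
  exact this

theorem rr_add (n : ℕ) (o : Od) (k : ℤ) (h0 : 0 ≤ rr n o + k) (h1 : rr n o + k < 2 ^ n) :
    rr n (o + (k : ℤ)) = rr n o + k := by
  apply rr_unique n _ _ h0 h1
  push_cast
  rw [rr_cast, map_add, map_intCast]

theorem rr_succ (n : ℕ) (o : Od) : rr (n + 1) o = rr n o ∨ rr (n + 1) o = rr n o + 2 ^ n := by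
  have h1 : ((rr (n + 1) o : ℤ) : ZMod (2 ^ n)) = PadicInt.toZModPow n o := by
    have := PadicInt.cast_toZModPow n (n + 1) (Nat.le_succ n) o
    rw [← this, ← rr_cast (n + 1) o]
    have : NeZero (2 ^ (n + 1)) := ⟨by positivity⟩
    rw [ZMod.cast_intCast (pow_dvd_pow 2 (Nat.le_succ n))]
  have h2 := rr_nonneg (n + 1) o
  have h3 := rr_lt (n + 1) o
  by_cases h4 : rr (n + 1) o < 2 ^ n
  · left; exact (rr_unique n o _ h2 h4 h1).symm
  · right
    have := rr_unique n o (rr (n + 1) o - 2 ^ n) (by omega) (by rw [pow_succ] at h3; omega) (by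
      push_cast
      rw [h1]
      have : ((2 : ZMod (2 ^ n)) ^ n) = 0 := by
        have := ZMod.natCast_self (2 ^ n)
        push_cast at this
        exact this
      rw [this, sub_zero])
    omega

/-- same block of size `2^n` -/
def blk (n : ℕ) (o o' : Od) : Prop := o' = o + ((rr n o' - rr n o : ℤ) : Od)

theorem blk_refl (n : ℕ) (o : Od) : blk n o o := by simp [blk]

theorem blk_symm {n : ℕ} {o o' : Od} (h : blk n o o') : blk n o' o := by
  unfold blk at *
  push_cast at *
  rw [eq_comm]
  linear_combination h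

theorem blk_trans {n : ℕ} {o o' o'' : Od} (h : blk n o o') (h' : blk n o' o'') : blk n o o'' := by
  unfold blk at *
  push_cast at *
  linear_combination h + h'

theorem blk_add {n : ℕ} {o : Od} {k : ℤ} :
    blk n o (o + (k : ℤ)) ↔ 0 ≤ rr n o + k ∧ rr n o + k < 2 ^ n := by
  constructor
  · intro h
    unfold blk at h
    have h1 := add_left_cancel h
    have h2 : k = rr n (o + (k : ℤ)) - rr n o := by exact_mod_cast h1
    have h3 := rr_nonneg n (o + (k : ℤ))
    have h4 := rr_lt n (o + (k : ℤ))
    constructor <;> omega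
  · rintro ⟨h0, h1⟩
    unfold blk
    rw [rr_add n o k h0 h1]
    simp

theorem blk_succ {n : ℕ} {o o' : Od} (h : blk n o o') : blk (n + 1) o o' := by
  have ho : o' = o + ((rr n o' - rr n o : ℤ) : Od) := h
  rw [ho]
  rw [blk_add]
  have h1 := rr_succ n o
  have h2 := rr_nonneg n o'
  have h3 := rr_lt n o'
  have h4 : (0 : ℤ) < 2 ^ n := by positivity
  rw [pow_succ]
  rcases h1 with h1 | h1 <;> constructor <;> omega

theorem exists_blk (o : Od) (ho : ∀ j : ℤ, o ≠ (j : Od)) (k : ℤ) :
    ∃ n, blk (n + 1) o (o + (k : ℤ)) := by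
  -- separate o from finitely many integers
  have hsep : ∀ j : ℤ, ∃ n : ℕ, ∀ m, n ≤ m →
      PadicInt.toZModPow m o ≠ PadicInt.toZModPow m (j : Od) := by
    intro j
    by_contra hcon
    push Not at hcon
    apply ho j
    rw [← PadicInt.ext_of_toZModPow]
    intro n
    obtain ⟨m, hm, hmeq⟩ := hcon n
    have e1 := PadicInt.cast_toZModPow n m hm o
    have e2 := PadicInt.cast_toZModPow n m hm (j : Od)
    rw [← e1, ← e2, hmeq]
  choose N hN using hsep
  set M := (Finset.Icc (-|k|) |k|).sup N + 1 with hM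
  have hMj : ∀ j : ℤ, |j| ≤ |k| → PadicInt.toZModPow M o ≠ PadicInt.toZModPow M (j : Od) := by
    intro j hj
    apply hN j
    have : j ∈ Finset.Icc (-|k|) |k| := by
      rw [Finset.mem_Icc]; exact abs_le.1 hj
    have := Finset.le_sup (f := N) this
    omega
  refine ⟨(Finset.Icc (-|k|) |k|).sup N, ?_⟩
  rw [← hM, blk_add]
  have hr0 := rr_nonneg M o
  have hr1 := rr_lt M o
  constructor
  · by_contra hneg
    push Not at hneg
    apply hMj (rr M o) (by rw [abs_of_nonneg hr0, abs_of_neg (by omega : k < 0)]; omega)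
    rw [map_intCast, rr_cast]
  · by_contra hge
    push Not at hge
    apply hMj (rr M o - 2 ^ M) (by
      rw [abs_of_neg (by omega), abs_of_pos (by omega : 0 < k)]; omega)
    rw [map_intCast]
    push_cast
    have : ((2 : ZMod (2 ^ M)) ^ M) = 0 := by
      have := ZMod.natCast_self (2 ^ M)
      push_cast at this
      exact this
    rw [this, sub_zero, rr_cast]

theorem measurable_rr (n : ℕ) : Measurable (rr n) := by
  have h1 : ∀ k : ℤ, MeasurableSet (rr n ⁻¹' {k}) := by
    intro k
    by_cases hk : 0 ≤ k ∧ k < 2 ^ n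
    · have : rr n ⁻¹' {k} = Metric.closedBall (k : Od) ((2 : ℝ) ^ (-n : ℤ)) := by
        ext o
        rw [mem_preimage, mem_singleton_iff, Metric.mem_closedBall, dist_eq_norm]
        have e1 := PadicInt.norm_le_pow_iff_mem_span_pow (p := 2) (o - (k : Od)) n
        rw [← PadicInt.ker_toZModPow, RingHom.mem_ker, map_sub, map_intCast, sub_eq_zero] at e1
        push_cast at e1
        rw [e1]
        constructor
        · intro h; rw [← h, rr_cast]
        · intro h; exact rr_unique n o k hk.1 hk.2 h.symm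
      rw [this]
      exact Metric.isClosed_closedBall.measurableSet
    · have : rr n ⁻¹' {k} = ∅ := by
        ext o
        simp only [mem_preimage, mem_singleton_iff, mem_empty_iff_false, iff_false]
        rintro rfl
        exact hk ⟨rr_nonneg n o, rr_lt n o⟩
      rw [this]; exact MeasurableSet.empty
  exact measurable_to_countable' h1

/-- Haar measure on the odometer -/
noncomputable def muO : Measure Od := Measure.addHaar

instance : Measure.IsAddHaarMeasure muO := by unfold muO; infer_instance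

instance : IsFiniteMeasure muO := ⟨isCompact_univ.measure_lt_top⟩

instance : (𝓝[≠] (0 : Od)).NeBot := by
  rw [← mem_closure_iff_nhdsWithin_neBot]
  rw [Metric.mem_closure_iff]
  intro ε hε
  obtain ⟨n, hn⟩ := exists_pow_lt_of_lt_one hε (show (1/2 : ℝ) < 1 by norm_num)
  refine ⟨(2 : Od) ^ n, ?_, ?_⟩
  · simp
  · rw [dist_comm, dist_zero_right]
    have := PadicInt.norm_p_pow (p := 2) n
    push_cast at this
    rw [this]
    simpa using hn

theorem muO_int : muO (range (fun j : ℤ => (j : Od))) = 0 :=
  (countable_range _).measure_zero _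

theorem muO_add (k : Od) : MeasurePreserving (fun o => o + k) muO muO :=
  measurePreserving_add_right muO k

end Pool.Agent.H67R2
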