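import Pool.Agent.H67R2.Cox

set_option autoImplicit false

namespace Pool.Agent.H67R2

/-- reduced words in the generators (the vertices of the 8-regular tree). -/
abbrev RW := {l : List Gen // l.IsChain (· ≠ ·)}

/-- left multiplication by a generator. -/
def mulS (s : Gen) : RW → RW
  | ⟨[], _⟩ => ⟨[s], List.isChain_singleton s⟩
  | ⟨t :: l, h⟩ =>
    if hts : t = s then ⟨l, h.tail⟩
    else ⟨s :: t :: l, List.isChain_cons_cons.2 ⟨fun h' => hts h'.symm, h⟩⟩

theorem mulS_mulS (s : Gen) (r : RW) : mulS s (mulS s r) = r := by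
  obtain ⟨l, h⟩ := r
  cases l with
  | nil => simp [mulS]
  | cons t l =>
    by_cases hts : t = s
    · subst hts
      simp only [mulS, dif_pos]
      cases l with
      | nil => rfl
      | cons u l =>
        have : u ≠ t := (List.isChain_cons_cons.1 h).1.symm
        simp [mulS, this]
    · simp [mulS, hts]

/-- permutation of reduced words. -/
def xS (s : Gen) : Equiv.Perm RW := ⟨mulS s, mulS s, mulS_mulS s, mulS_mulS s⟩

theorem xS_sq (s : Gen) : xS s * xS s = 1 := by
  ext1 r; exact mulS_mulS s r

theorem xS_apply (s : Gen) (r : RW) : xS s r = mulS s r := rfl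

theorem length_mulS_ne (s : Gen) (r : RW) : (mulS s r).1.length ≠ r.1.length := by
  obtain ⟨l, h⟩ := r
  cases l with
  | nil => simp [mulS]
  | cons t l =>
    by_cases hts : t = s
    · simp [mulS, hts]
    · simp [mulS, hts]

theorem length_mulS_lt {s : Gen} {r : RW} (h : (mulS s r).1.length < r.1.length) :
    r.1.head? = some s := by
  obtain ⟨l, hl⟩ := r
  cases l with
  | nil => simp at h
  | cons t l =>
    by_cases hts : t = s
    · simp [hts]
    · simp [mulS, hts] at h

/-- the action on parity, height and reduced words -/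
abbrev Q := Par × ℤ × RW

/-- generators acting on `Q`. -/
def qS (s : Gen) (q : Q) : Q :=
  (tog s q.1, q.2.1 + sgn s q.1, cc xS q.1 q.2.1 s q.2.2)

theorem qS_qS (s : Gen) (q : Q) : qS s (qS s q) = q := by
  obtain ⟨e, k, r⟩ := q
  simp only [qS, tog_tog, sgn_tog]
  refine Prod.ext rfl (Prod.ext ?_ ?_)
  · simp
  · show (cc xS (tog s e) (k + sgn s e) s * cc xS e k s) r = r
    rw [cc_inv xS xS_sq]; rfl

theorem qS_comm (s t : Gen) (h : Comm s t) (q : Q) : qS s (qS t q) = qS t (qS s q) := by
  obtain ⟨e, k, r⟩ := q
  simp only [qS]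
  refine Prod.ext (tog_comm s t e) (Prod.ext ?_ ?_)
  · simp only [sgn_tog_comm s t e h, sgn_tog_comm t s e h.symm]; ring
  · show (cc xS (tog t e) (k + sgn t e) s * cc xS e k t) r =
      (cc xS (tog s e) (k + sgn s e) t * cc xS e k s) r
    have := Sq_all xS xS_sq e k s t h
    unfold Sq at this
    rw [this]

/-- `W` acts on `Q`. -/
def actQ : W →* Equiv.Perm Q :=
  liftW (fun s => ⟨qS s, qS s, qS_qS s, qS_qS s⟩)
    (fun s => by ext1 q; exact qS_qS s q)
    (fun s t h => by ext1 q; exact qS_comm s t h q)

theorem actQ_gen (s : Gen) (q : Q) : actQ (gen s) q = qS s q := by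
  simp [actQ]

theorem actQ_gen_mul (s : Gen) (w : W) (q : Q) : actQ (gen s * w) q = qS s (actQ w q) := by
  rw [map_mul, Equiv.Perm.mul_apply, actQ_gen]

/-! ### action on parities and an additive group with one -/

section Lev

variable {A : Type*} [AddCommGroupWithOne A]

/-- generators acting on `Par × A`. -/
def pS (s : Gen) (q : Par × A) : Par × A := (tog s q.1, q.2 + (sgn s q.1 : ℤ))

theorem pS_pS (s : Gen) (q : Par × A) : pS s (pS s q) = q := by
  obtain ⟨e, k⟩ := q
  simp only [pS, tog_tog, sgn_tog]
  refine Prod.ext rfl ?_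
  simp

theorem pS_comm (s t : Gen) (h : Comm s t) (q : Par × A) : pS s (pS t q) = pS t (pS s q) := by
  obtain ⟨e, k⟩ := q
  simp only [pS]
  refine Prod.ext (tog_comm s t e) ?_
  simp only [sgn_tog_comm s t e h, sgn_tog_comm t s e h.symm, add_assoc]
  rw [add_comm (sgn t e : A)]

variable (A) in
/-- `W` acts on `Par × A`. -/
def actP : W →* Equiv.Perm (Par × A) :=
  liftW (fun s => ⟨pS s, pS s, pS_pS s, pS_pS s⟩)
    (fun s => by ext1 q; exact pS_pS s q)
    (fun s t h => by ext1 q; exact pS_comm s t h q)

theorem actP_gen (s : Gen) (q : Par × A) : actP A (gen s) q = pS s q := by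
  simp [actP]

theorem actP_gen_mul (s : Gen) (w : W) (q : Par × A) :
    actP A (gen s * w) q = pS s (actP A w q) := by
  rw [map_mul, Equiv.Perm.mul_apply, actP_gen]

/-- comparison of the integral and the `A`-valued action. -/
theorem actP_compare (w : W) (e : Par) (k : ℤ) (a : A) :
    actP A w (e, a + k) = ((actP ℤ w (e, k)).1, a + ((actP ℤ w (e, k)).2 : ℤ)) := by
  induction w using W_induction with
  | h1 => simp
  | h2 s w ih =>
    rw [actP_gen_mul, actP_gen_mul, ih]
    simp only [pS]
    refine Prod.ext rfl ?_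
    simp only [Int.cast_add, Int.cast_id, add_assoc]

end Lev

theorem actQ_proj (w : W) (e : Par) (k : ℤ) (r : RW) :
    actP ℤ w (e, k) = ((actQ w (e, k, r)).1, (actQ w (e, k, r)).2.1) := by
  induction w using W_induction with
  | h1 => simp
  | h2 s w ih =>
    rw [actQ_gen_mul, actP_gen_mul, ih]
    simp only [pS, qS]
    simp

/-- label on the edges between heights 0 and 1 -/
theorem cc_zero (e : Par) (s : Gen) (h : isUp s e = true) : cc xS e 0 s = xS s := by
  have := cc_up xS xS_sq e 0 s h
  simpa [cu] using this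

theorem cc_one (e : Par) (s : Gen) (h : isUp s e = false) : cc xS e 1 s = xS s := by
  have := cc_down xS e 0 s h
  simp only [Nat.cast_zero, zero_add] at this
  rw [this]
  simp only [cu]
  rw [inv_eq_iff_mul_eq_one]; exact xS_sq s

/-- the chosen down generator -/
def dS (e : Par) : Gen := pth (bar e) 0

/-- the chosen up generator -/
def uS (e : Par) : Gen := pth e 0

theorem dS_down (e : Par) : isUp (dS e) e = false := by
  revert e; decide

theorem uS_up (e : Par) : isUp (uS e) e = true := by
  revert e; decide

theorem cc_gauge (e : Par) (k : ℤ) (hk : 2 ≤ k) : cc xS e k (dS e) = 1 := by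
  obtain ⟨n, hn⟩ := Int.eq_ofNat_of_zero_le (show 0 ≤ k - 2 by omega)
  have e1 : k = ((n + 1 : ℕ) : ℤ) + 1 := by push_cast; omega
  rw [e1, cc_down xS e (n + 1) (dS e) (dS_down e)]
  unfold dS
  rw [cu_gauge]; simp

/-! ### connectivity -/

/-- A function on `W` which is constant along the edges between heights 0 and 1 and along
the chosen flow edges is constant. -/
theorem conn_lemma {C : Type*} (κ : W → C) (q0 : Par × ℤ)
    (ha : ∀ w s, (actP ℤ w q0).2 = 1 → isUp s (actP ℤ w q0).1 = false →
      κ w = κ (gen s * w))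
    (hb : ∀ w, 2 ≤ (actP ℤ w q0).2 → κ w = κ (gen (dS (actP ℤ w q0).1) * w))
    (hc : ∀ w, (actP ℤ w q0).2 ≤ -1 → κ w = κ (gen (uS (actP ℤ w q0).1) * w)) :
    ∀ w, κ w = κ 1 := by
  -- upward part
  have up : ∀ n : ℕ, ∀ w s, (actP ℤ w q0).2 = n + 1 → isUp s (actP ℤ w q0).1 = false →
      κ w = κ (gen s * w) := by
    intro n
    induction n with
    | zero => intro w s h1 h2; exact ha w s (by simpa using h1) h2
    | succ n ih =>
      intro w s h1 h2
      obtain ⟨e, k, hek⟩ : ∃ e k, actP ℤ w q0 = (e, k) := ⟨_, _, rfl⟩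
      have hbw := hb w (by rw [h1]; push_cast; omega)
      rw [hek] at h1 h2 hbw
      simp only at h1 h2 hbw
      -- all down neighbours have the same value
      have step : ∀ i : Fin 3, κ (gen (pth (bar e) i.castSucc) * w) =
          κ (gen (pth (bar e) i.succ) * w) := by
        intro i
        set a := pth (bar e) i.castSucc with haa
        set b := pth (bar e) i.succ with hbb
        have hab : Comm a b := pth_comm (bar e) i
        have hda : isUp a e = false := by
          have := pth_up (bar e) i.castSucc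
          rw [isUp_bar] at this; simpa using this
        have hdb : isUp b e = false := by
          have := pth_up (bar e) i.succ
          rw [isUp_bar] at this; simpa using this
        have h3 : actP ℤ (gen a * w) q0 = (tog a e, k - 1) := by
          rw [actP_gen_mul, hek]; simp [pS, sgn, hda, sub_eq_add_neg]
        have h4 : actP ℤ (gen b * w) q0 = (tog b e, k - 1) := by
          rw [actP_gen_mul, hek]; simp [pS, sgn, hdb, sub_eq_add_neg]
        have h5 := ih (gen a * w) b (by rw [h3]; simp only; rw [h1]; push_cast; ring)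
          (by rw [h3]; simp only; rw [isUp_tog_of_comm b a e hab.symm]; exact hdb)
        have h6 := ih (gen b * w) a (by rw [h4]; simp only; rw [h1]; push_cast; ring)
          (by rw [h4]; simp only; rw [isUp_tog_of_comm a b e hab]; exact hda)
        rw [h5, h6, ← mul_assoc, ← mul_assoc, gen_comm hab]
      have hs' : isUp s (bar e) = true := by rw [isUp_bar, h2]; rfl
      obtain ⟨i, hi⟩ := exists_pth (bar e) s hs'
      rw [hbw, ← hi]
      have s0 := step 0
      have s1 := step 1
      have s2 := step 2
      simp only [Fin.castSucc_zero, Fin.succ_zero_eq_one] at s0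
      have e1 : (Fin.castSucc (1 : Fin 3)) = (1 : Fin 4) := rfl
      have e2 : (Fin.succ (1 : Fin 3)) = (2 : Fin 4) := rfl
      have e3 : (Fin.castSucc (2 : Fin 3)) = (2 : Fin 4) := rfl
      have e4 : (Fin.succ (2 : Fin 3)) = (3 : Fin 4) := rfl
      rw [e1, e2] at s1
      rw [e3, e4] at s2
      unfold dS
      fin_cases i
      · rfl
      · exact s0
      · exact s0.trans s1
      · exact s0.trans (s1.trans s2)
  -- downward part
  have down : ∀ n : ℕ, ∀ w s, (actP ℤ w q0).2 = - (n : ℤ) → isUp s (actP ℤ w q0).1 = true →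
      κ w = κ (gen s * w) := by
    intro n
    induction n with
    | zero =>
      intro w s h1 h2
      obtain ⟨e, k, hek⟩ : ∃ e k, actP ℤ w q0 = (e, k) := ⟨_, _, rfl⟩
      rw [hek] at h1 h2
      simp only at h1 h2
      have h3 : actP ℤ (gen s * w) q0 = (tog s e, k + 1) := by
        rw [actP_gen_mul, hek]; simp [pS, sgn, h2]
      have := ha (gen s * w) s (by rw [h3]; simp only; rw [h1]; simp)
        (by rw [h3]; simp only; rw [isUp_tog, h2]; rfl)
      rw [this, ← mul_assoc, gen_mul_self, one_mul]
    | succ n ih =>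
      intro w s h1 h2
      obtain ⟨e, k, hek⟩ : ∃ e k, actP ℤ w q0 = (e, k) := ⟨_, _, rfl⟩
      have hbw := hc w (by rw [h1]; push_cast; omega)
      rw [hek] at h1 h2 hbw
      simp only at h1 h2 hbw
      have step : ∀ i : Fin 3, κ (gen (pth e i.castSucc) * w) =
          κ (gen (pth e i.succ) * w) := by
        intro i
        set a := pth e i.castSucc with haa
        set b := pth e i.succ with hbb
        have hab : Comm a b := pth_comm e i
        have hda : isUp a e = true := pth_up e i.castSucc
        have hdb : isUp b e = true := pth_up e i.succ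
        have h3 : actP ℤ (gen a * w) q0 = (tog a e, k + 1) := by
          rw [actP_gen_mul, hek]; simp [pS, sgn, hda]
        have h4 : actP ℤ (gen b * w) q0 = (tog b e, k + 1) := by
          rw [actP_gen_mul, hek]; simp [pS, sgn, hdb]
        have h5 := ih (gen a * w) b (by rw [h3]; simp only; rw [h1]; push_cast; ring)
          (by rw [h3]; simp only; rw [isUp_tog_of_comm b a e hab.symm]; exact hdb)
        have h6 := ih (gen b * w) a (by rw [h4]; simp only; rw [h1]; push_cast; ring)
          (by rw [h4]; simp only; rw [isUp_tog_of_comm a b e hab]; exact hda)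
        rw [h5, h6, ← mul_assoc, ← mul_assoc, gen_comm hab]
      obtain ⟨i, hi⟩ := exists_pth e s h2
      rw [hbw, ← hi]
      have s0 := step 0
      have s1 := step 1
      have s2 := step 2
      simp only [Fin.castSucc_zero, Fin.succ_zero_eq_one] at s0
      have e1 : (Fin.castSucc (1 : Fin 3)) = (1 : Fin 4) := rfl
      have e2 : (Fin.succ (1 : Fin 3)) = (2 : Fin 4) := rfl
      have e3 : (Fin.castSucc (2 : Fin 3)) = (2 : Fin 4) := rfl
      have e4 : (Fin.succ (2 : Fin 3)) = (3 : Fin 4) := rfl
      rw [e1, e2] at s1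
      rw [e3, e4] at s2
      unfold uS
      fin_cases i
      · rfl
      · exact s0
      · exact s0.trans s1
      · exact s0.trans (s1.trans s2)
  -- every edge
  have edge_up : ∀ w s, isUp s (actP ℤ w q0).1 = true → κ w = κ (gen s * w) := by
    intro w s h
    by_cases hk : (actP ℤ w q0).2 ≤ 0
    · obtain ⟨n, hn⟩ := Int.eq_ofNat_of_zero_le (show 0 ≤ -(actP ℤ w q0).2 by omega)
      exact down n w s (by omega) h
    · obtain ⟨n, hn⟩ := Int.eq_ofNat_of_zero_le (show 0 ≤ (actP ℤ w q0).2 by omega)
      have h3 : actP ℤ (gen s * w) q0 = (tog s (actP ℤ w q0).1, (actP ℤ w q0).2 + 1) := by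
        rw [actP_gen_mul]; simp [pS, sgn, h]
      have := up n (gen s * w) s (by rw [h3]; simp only; omega)
        (by rw [h3]; simp only; rw [isUp_tog, h]; rfl)
      rw [this, ← mul_assoc, gen_mul_self, one_mul]
  intro w
  induction w using W_induction with
  | h1 => rfl
  | h2 s w ih =>
    rw [← ih]
    by_cases h : isUp s (actP ℤ w q0).1 = true
    · exact (edge_up w s h).symm
    · simp only [Bool.not_eq_true] at h
      have h3 : (actP ℤ (gen s * w) q0).1 = tog s (actP ℤ w q0).1 := by
        rw [actP_gen_mul]; simp [pS]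
      have := edge_up (gen s * w) s (by rw [h3, isUp_tog, h]; rfl)
      rw [this, ← mul_assoc, gen_mul_self, one_mul]

end Pool.Agent.H67R2
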