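import Pool.Agent.H67R2.Lorentz
import Pool.Agent.H67R2.Rank

set_option autoImplicit false

namespace Pool.Agent.H67R2

open MeasureTheory Topology Matrix

/-- outward normals of the ideal octahedron. -/
def nZ (s : Gen) : Fin 4 → ℤ :=
  let e : ℤ := if s.1 then -1 else 1
  match s.2 with
  | 0 => ![e, e, e, 1]
  | 1 => ![e, -e, -e, 1]
  | 2 => ![-e, e, -e, 1]
  | 3 => ![-e, -e, e, 1]

/-- integral reflections -/
def RZ (s : Gen) : Matrix (Fin 4) (Fin 4) ℤ :=
  Matrix.of fun i j => (if i = j then 1 else 0) - nZ s i * (if j = 3 then - nZ s j else nZ s j)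

/-- integral form -/
def JZ : Matrix (Fin 4) (Fin 4) ℤ := Matrix.of fun i j => if i = j then (if i = 3 then -1 else 1) else 0

theorem RZ_sq (s : Gen) : RZ s * RZ s = 1 := by
  revert s; decide

theorem RZ_comm (s t : Gen) (h : Comm s t) : RZ s * RZ t = RZ t * RZ s := by
  revert s t; decide

theorem RZ_form (s : Gen) : (RZ s)ᵀ * JZ * RZ s = JZ := by
  revert s; decide

theorem RZ_pos (s : Gen) : 0 < RZ s 3 3 := by
  revert s; decide

/-- cast of integral matrices. -/
def castM (A : Matrix (Fin 4) (Fin 4) ℤ) : M4 := A.map (Int.castRingHom ℝ)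

theorem castM_mul (A B : Matrix (Fin 4) (Fin 4) ℤ) : castM (A * B) = castM A * castM B :=
  Matrix.map_mul

theorem castM_one : castM 1 = 1 := by
  simp [castM]

theorem castM_transpose (A : Matrix (Fin 4) (Fin 4) ℤ) : castM Aᵀ = (castM A)ᵀ := rfl

theorem castM_JZ : castM JZ = J := by
  ext i j
  rw [LG.J_apply]
  simp only [castM, JZ, Matrix.map_apply, Matrix.of_apply]
  split_ifs <;> simp

/-- the reflections in the faces of the octahedron as Lorentz transformations. -/
def RL (s : Gen) : LG := ⟨castM (RZ s), by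
  constructor
  · rw [← castM_transpose, ← castM_JZ, ← castM_mul, ← castM_mul, RZ_form]
  · have := RZ_pos s
    simpa [castM] using this⟩

/-- The reflection representation. -/
def psi : W →* LG :=
  liftW RL (fun s => LG.ext' (by
    show castM (RZ s) * castM (RZ s) = 1
    rw [← castM_mul, RZ_sq, castM_one]))
    (fun s t h => LG.ext' (by
      show castM (RZ s) * castM (RZ t) = castM (RZ t) * castM (RZ s)
      rw [← castM_mul, ← castM_mul, RZ_comm s t h]))

theorem psi_gen (s : Gen) : psi (gen s) = RL s := by simp [psi]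

theorem psi_int (w : W) : ∃ A : Matrix (Fin 4) (Fin 4) ℤ, (psi w).1 = castM A := by
  induction w using W_induction with
  | h1 => exact ⟨1, by rw [castM_one]; simp⟩
  | h2 s w ih =>
    obtain ⟨A, hA⟩ := ih
    refine ⟨RZ s * A, ?_⟩
    rw [map_mul, psi_gen, LG.coe_mul, hA, castM_mul]; rfl

/-- the Lorentz form on vectors. -/
def B (x y : Fin 4 → ℝ) : ℝ := x 0 * y 0 + x 1 * y 1 + x 2 * y 2 - x 3 * y 3

/-- real normals -/
def nR (s : Gen) : Fin 4 → ℝ := fun i => (nZ s i : ℝ)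

/-- future timelike vectors -/
def Fut (x : Fin 4 → ℝ) : Prop := B x x < 0 ∧ 0 < x 3

theorem B_eq (x y : Fin 4 → ℝ) : B x y = x ⬝ᵥ (J *ᵥ y) := by
  simp [B, dotProduct, Fin.sum_univ_four, J, Matrix.mulVec_diagonal]
  ring

theorem B_mulVec (g : LG) (x y : Fin 4 → ℝ) : B (g.1 *ᵥ x) (g.1 *ᵥ y) = B x y := by
  rw [B_eq, B_eq]
  have h := g.2.1
  calc (g.1 *ᵥ x) ⬝ᵥ (J *ᵥ (g.1 *ᵥ y)) = x ⬝ᵥ (((g.1)ᵀ * J * g.1) *ᵥ y) := by
        rw [← Matrix.mulVec_mulVec, ← Matrix.mulVec_mulVec, Matrix.dotProduct_mulVec x,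
          Matrix.vecMul_transpose]
    _ = _ := by rw [h]

theorem mulVec_time (g : LG) (x : Fin 4 → ℝ) (hx : Fut x) : 0 < (g.1 *ᵥ x) 3 := by
  have h1 := LG.row g.1 g.2.1 3 3
  simp only [if_true] at h1
  have hg := g.2.2
  obtain ⟨h2, h3⟩ := hx
  unfold B at h2
  simp only [Matrix.mulVec, dotProduct, Fin.sum_univ_four]
  have key : (g.1 3 0 * x 0 + g.1 3 1 * x 1 + g.1 3 2 * x 2) ^ 2 < (g.1 3 3 * x 3) ^ 2 := by
    have cs : (g.1 3 0 * x 0 + g.1 3 1 * x 1 + g.1 3 2 * x 2) ^ 2 ≤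
        (g.1 3 0 ^ 2 + g.1 3 1 ^ 2 + g.1 3 2 ^ 2) * (x 0 ^ 2 + x 1 ^ 2 + x 2 ^ 2) := by
      nlinarith [sq_nonneg (g.1 3 0 * x 1 - g.1 3 1 * x 0),
        sq_nonneg (g.1 3 0 * x 2 - g.1 3 2 * x 0), sq_nonneg (g.1 3 1 * x 2 - g.1 3 2 * x 1)]
    have e1 : g.1 3 0 ^ 2 + g.1 3 1 ^ 2 + g.1 3 2 ^ 2 = g.1 3 3 ^ 2 - 1 := by nlinarith
    have e2 : x 0 ^ 2 + x 1 ^ 2 + x 2 ^ 2 < x 3 ^ 2 := by nlinarith
    have p1 : 1 ≤ g.1 3 3 ^ 2 := by
      nlinarith [sq_nonneg (g.1 3 0), sq_nonneg (g.1 3 1), sq_nonneg (g.1 3 2)]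
    rw [e1] at cs
    have p3 : 0 < x 3 ^ 2 := by positivity
    nlinarith
  have := abs_lt_of_sq_lt_sq key (by positivity)
  rw [abs_lt] at this
  linarith [this.1]

theorem Fut_mulVec (g : LG) (x : Fin 4 → ℝ) (hx : Fut x) : Fut (g.1 *ᵥ x) :=
  ⟨by rw [B_mulVec]; exact hx.1, mulVec_time g x hx⟩

theorem Fut_abs (x : Fin 4 → ℝ) (hx : Fut x) : |x 0| < x 3 ∧ |x 1| < x 3 ∧ |x 2| < x 3 := by
  obtain ⟨h2, h3⟩ := hx
  unfold B at h2
  refine ⟨?_, ?_, ?_⟩ <;> apply abs_lt_of_sq_lt_sq _ h3.le <;>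
    nlinarith [sq_nonneg (x 0), sq_nonneg (x 1), sq_nonneg (x 2)]

theorem RL_mulVec (s : Gen) (x : Fin 4 → ℝ) : (RL s).1 *ᵥ x = x - B x (nR s) • nR s := by
  ext i
  simp only [RL, castM, RZ, Matrix.mulVec, dotProduct, Fin.sum_univ_four, Matrix.map_apply,
    Matrix.of_apply, B, Pi.sub_apply, Pi.smul_apply, smul_eq_mul, nR]
  fin_cases i <;> simp <;> ring

/-- the Gram matrix of normals -/
def gram (s t : Gen) : ℤ := nZ s 0 * nZ t 0 + nZ s 1 * nZ t 1 + nZ s 2 * nZ t 2 - nZ s 3 * nZ t 3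

theorem B_nR (s t : Gen) : B (nR s) (nR t) = (gram s t : ℝ) := by
  simp [B, nR, gram]

theorem gram_self (s : Gen) : gram s s = 2 := by revert s; decide
theorem gram_comm (s t : Gen) (h : Comm s t) : gram s t = 0 := by revert s t; decide

theorem B_sub_smul (x y z : Fin 4 → ℝ) (c : ℝ) : B (x - c • y) z = B x z - c * B y z := by
  simp [B]; ring

theorem B_RL_self (s : Gen) (x : Fin 4 → ℝ) : B ((RL s).1 *ᵥ x) (nR s) = - B x (nR s) := by
  rw [RL_mulVec, B_sub_smul, B_nR, gram_self]; push_cast; ring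

theorem B_RL_comm (s t : Gen) (h : Comm t s) (x : Fin 4 → ℝ) :
    B ((RL t).1 *ᵥ x) (nR s) = B x (nR s) := by
  rw [RL_mulVec, B_sub_smul, B_nR, gram_comm t s h]; push_cast; ring

theorem B_disjoint (s t : Gen) (hst : s ≠ t) (h : ¬ Comm t s) (x : Fin 4 → ℝ) (hx : Fut x)
    (hpos : 0 < B x (nR t)) : B x (nR s) < 0 := by
  obtain ⟨h0, h1, h2⟩ := Fut_abs x hx
  rw [abs_lt] at h0 h1 h2
  obtain ⟨a, i⟩ := s
  obtain ⟨b, j⟩ := t
  cases a <;> cases b <;> fin_cases i <;> fin_cases j <;>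
    first
      | exact absurd rfl hst
      | exact absurd (by decide) h
      | (simp [B, nR, nZ] at hpos ⊢; linarith)

/-- time axis -/
def e3 : Fin 4 → ℝ := ![0, 0, 0, 1]

theorem Fut_e3 : Fut e3 := by simp [Fut, B, e3]

theorem B_e3 (s : Gen) : B e3 (nR s) = -1 := by
  obtain ⟨a, i⟩ := s
  cases a <;> fin_cases i <;> simp [B, e3, nR, nZ]

/-- product of a word. -/
def wp (L : List Gen) : W := (L.map gen).prod

theorem wp_nil : wp [] = 1 := rfl
theorem wp_cons (s : Gen) (L : List Gen) : wp (s :: L) = gen s * wp L := by simp [wp]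

theorem exists_wp (w : W) : ∃ L, wp L = w := by
  induction w using W_induction with
  | h1 => exact ⟨[], rfl⟩
  | h2 s w ih =>
    obtain ⟨L, rfl⟩ := ih
    exact ⟨s :: L, wp_cons s L⟩

/-- Tits' lemma. -/
theorem tits (n : ℕ) : ∀ L : List Gen, L.length = n → (∀ L', wp L' = wp L → n ≤ L'.length) →
    ∀ s, B ((psi (wp L)).1 *ᵥ e3) (nR s) < 0 ∨
      (0 < B ((psi (wp L)).1 *ᵥ e3) (nR s) ∧ ∃ L', L'.length < n ∧ wp L = gen s * wp L') := by
  induction n with
  | zero =>
    intro L hL _ s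
    rw [List.length_eq_zero_iff] at hL
    subst hL
    left
    rw [wp_nil, map_one, LG.coe_one, Matrix.one_mulVec, B_e3]
    norm_num
  | succ n ih =>
    intro L hL hmin s
    cases L with
    | nil => simp at hL
    | cons t L =>
      have hL' : L.length = n := by simpa using hL
      have hmin' : ∀ L', wp L' = wp L → n ≤ L'.length := by
        intro L' h
        have := hmin (t :: L') (by rw [wp_cons, wp_cons, h])
        simpa using this
      have hx : (psi (wp (t :: L))).1 *ᵥ e3 = (RL t).1 *ᵥ ((psi (wp L)).1 *ᵥ e3) := by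
        rw [wp_cons, map_mul, psi_gen, LG.coe_mul, Matrix.mulVec_mulVec]
      have ht : B ((psi (wp L)).1 *ᵥ e3) (nR t) < 0 := by
        rcases ih L hL' hmin' t with h | ⟨-, L', h1, h2⟩
        · exact h
        · exfalso
          have := hmin L' (by rw [wp_cons, h2, ← mul_assoc, gen_mul_self, one_mul])
          omega
      have htpos : 0 < B ((psi (wp (t :: L))).1 *ᵥ e3) (nR t) := by
        rw [hx, B_RL_self]; linarith
      by_cases hst : s = t
      · subst hst
        right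
        exact ⟨htpos, L, by omega, wp_cons _ _⟩
      · by_cases hc : Comm t s
        · rw [hx, B_RL_comm s t hc]
          rcases ih L hL' hmin' s with h | ⟨h0, L', h1, h2⟩
          · left; exact h
          · right
            refine ⟨h0, t :: L', by simpa using h1, ?_⟩
            rw [wp_cons, wp_cons, h2, ← mul_assoc, ← mul_assoc, gen_comm hc]
        · left
          exact B_disjoint s t hst hc _ (Fut_mulVec _ _ Fut_e3) htpos

theorem psi_injective : Function.Injective psi := by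
  rw [injective_iff_map_eq_one]
  intro w hw
  classical
  by_contra hne
  obtain ⟨L0, hL0⟩ := exists_wp w
  have hex : ∃ n, ∃ L : List Gen, L.length = n ∧ wp L = w := ⟨_, L0, rfl, hL0⟩
  obtain ⟨L, hL, hLw⟩ := Nat.find_spec hex
  have hmin : ∀ L', wp L' = wp L → Nat.find hex ≤ L'.length := by
    intro L' h
    exact Nat.find_min' hex ⟨L', rfl, h.trans hLw⟩
  cases L with
  | nil => exact hne (by rw [← hLw, wp_nil])
  | cons t L =>
    have h1 := tits _ _ hL hmin t
    rw [hLw, hw, LG.coe_one, Matrix.one_mulVec, B_e3] at h1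
    rcases h1 with h1 | ⟨h1, -⟩
    · -- use the shorter word
      have hL' : L.length = Nat.find hex - 1 := by
        rw [← hL]; simp
      have hmin' : ∀ L', wp L' = wp L → Nat.find hex - 1 ≤ L'.length := by
        intro L' h
        have := hmin (t :: L') (by rw [wp_cons, wp_cons, h])
        simp at this ⊢
        omega
      have hpos : 0 < Nat.find hex := by rw [← hL]; simp
      rcases tits _ _ hL' hmin' t with h | ⟨-, L', h2, h3⟩
      · have hx : (psi w).1 *ᵥ e3 = (RL t).1 *ᵥ ((psi (wp L)).1 *ᵥ e3) := by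
          rw [← hLw, wp_cons, map_mul, psi_gen, LG.coe_mul, Matrix.mulVec_mulVec]
        have h4 : 0 < B ((psi w).1 *ᵥ e3) (nR t) := by
          rw [hx, B_RL_self]; linarith
        rw [hw, LG.coe_one, Matrix.one_mulVec, B_e3] at h4
        linarith
      · have := hmin L' (by rw [wp_cons, h3, ← mul_assoc, gen_mul_self, one_mul])
        omega
    · linarith

end Pool.Agent.H67R2
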