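import Pool.Agent.H67R2.Graph
import Pool.Agent.H67R2.Rank
import Pool.Agent.H67R2.Odo

set_option autoImplicit false

namespace Pool.Agent.H67R2

open MeasureTheory Topology Set SimpleGraph

/-- Data of a free coupling of `Γ` and `W` with a level function and a strict fundamental
domain `U` for `Γ`. -/
structure Cpl (Γ V : Type*) [Group Γ] [MulAction Γ V] [MulAction W V] where
  comm : ∀ (γ : Γ) (w : W) (v : V), γ • w • v = w • γ • v
  free : ∀ (γ : Γ) (w : W) (v : V), γ • w • v = v → γ = 1 ∧ w = 1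
  lv : V → Par × Od
  lv_W : ∀ (w : W) v, lv (w • v) = actP Od w (lv v)
  lv_G : ∀ (γ : Γ) v, lv (γ • v) = lv v
  U : Set V
  hU : ∀ v, ∃! γ : Γ, γ • v ∈ U

namespace Cpl

variable {Γ V : Type*} [Group Γ] [MulAction Γ V] [MulAction W V] (c : Cpl Γ V)

/-- representative in `U` -/
noncomputable def q (v : V) : V := (c.hU v).choose • v

theorem q_mem (v : V) : c.q v ∈ c.U := (c.hU v).choose_spec.1

theorem q_eq {v : V} {γ : Γ} (h : γ • v ∈ c.U) : c.q v = γ • v := by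
  unfold q; rw [(c.hU v).choose_spec.2 γ h]

theorem exists_q (v : V) : ∃ γ : Γ, c.q v = γ • v := ⟨_, rfl⟩

theorem q_of_mem {v : V} (h : v ∈ c.U) : c.q v = v := by
  have : (1 : Γ) • v ∈ c.U := by rwa [one_smul]
  rw [c.q_eq this, one_smul]

theorem q_smul (γ : Γ) (v : V) : c.q (γ • v) = c.q v := by
  obtain ⟨δ, hδ⟩ := c.exists_q (γ • v)
  have h := c.q_mem (γ • v)
  rw [hδ, smul_smul] at h
  rw [c.q_eq h, hδ, smul_smul]

theorem lv_q (v : V) : c.lv (c.q v) = c.lv v := by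
  obtain ⟨δ, hδ⟩ := c.exists_q v
  rw [hδ, c.lv_G]

/-- moving by a generator inside `U` -/
theorem q_gen_q (s : Gen) (v : V) : c.q (gen s • c.q v) = c.q (gen s • v) := by
  obtain ⟨δ, hδ⟩ := c.exists_q v
  rw [hδ, ← c.comm, c.q_smul]

/-- level inside the block of size `2^(n+1)` -/
noncomputable def L (n : ℕ) (v : V) : ℤ := rr (n + 1) (c.lv v).2

/-- directed edges -/
def dn (n : ℕ) (v v' : V) : Prop :=
  (v ∉ c.U ∧ v' = c.q v) ∨
  (v ∈ c.U ∧ ∃ s, isUp s (c.lv v).1 = false ∧ v' = c.q (gen s • v) ∧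
    (c.L n v = 1 ∨ (2 ≤ c.L n v ∧ s = dS (c.lv v).1)))

theorem lv_gen (s : Gen) (v : V) :
    c.lv (c.q (gen s • v)) = (tog s (c.lv v).1, (c.lv v).2 + ((sgn s (c.lv v).1 : ℤ) : Od)) := by
  rw [c.lv_q, c.lv_W, actP_gen]; rfl

theorem tog_ne (s : Gen) (e : Par) : tog s e ≠ e := by
  revert s e; decide

theorem dn_irrefl (n : ℕ) (v : V) : ¬ c.dn n v v := by
  rintro (⟨h1, h2⟩ | ⟨h1, s, h2, h3, -⟩)
  · exact h1 (h2 ▸ c.q_mem v)
  · have := c.lv_gen s v
    rw [← h3] at this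
    exact tog_ne s (c.lv v).1 (congrArg Prod.fst this).symm

/-- the undirected graph -/
def T (n : ℕ) : SimpleGraph V where
  Adj v v' := c.dn n v v' ∨ c.dn n v' v
  symm := ⟨fun _ _ h => h.symm⟩
  loopless := ⟨fun v h => by
    rcases h with h | h
    · exact c.dn_irrefl n v h
    · exact c.dn_irrefl n v h⟩

theorem T_adj (n : ℕ) (v v' : V) : (c.T n).Adj v v' ↔ c.dn n v v' ∨ c.dn n v' v := Iff.rfl

/-- edge condition seen from one endpoint -/
def EC (e : Par) (k : ℤ) (s : Gen) : Prop :=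
  (k = 1 ∧ isUp s e = false) ∨ (2 ≤ k ∧ s = dS e) ∨ (k = 0 ∧ isUp s e = true) ∨
  (1 ≤ k ∧ isUp s e = true ∧ s = dS (tog s e))

theorem adj_cases {n : ℕ} {v v' : V} (h : (c.T n).Adj v v') :
    (v ∉ c.U ∧ v' = c.q v) ∨ (v ∈ c.U ∧ v' ∉ c.U ∧ v = c.q v') ∨
    (v ∈ c.U ∧ ∃ s, v' = c.q (gen s • v) ∧ EC (c.lv v).1 (c.L n v) s ∧
      blk (n + 1) (c.lv v).2 (c.lv v').2) := by
  rcases h with (⟨h1, h2⟩ | ⟨h1, s, h2, h3, h4⟩) | (⟨h1, h2⟩ | ⟨h1, s, h2, h3, h4⟩)
  · left; exact ⟨h1, h2⟩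
  · right; right
    refine ⟨h1, s, h3, ?_, ?_⟩
    · rcases h4 with h4 | ⟨h4, h5⟩
      · left; exact ⟨h4, h2⟩
      · right; left; exact ⟨h4, h5⟩
    · rw [h3, c.lv_gen, blk_add]
      have hs : sgn s (c.lv v).1 = -1 := by simp [sgn, h2]
      have h6 := rr_lt (n + 1) (c.lv v).2
      have h7 : 1 ≤ c.L n v := by rcases h4 with h4 | ⟨h4, -⟩ <;> omega
      unfold L at h7
      rw [hs]
      constructor <;> omega
  · by_cases hv : v ∈ c.U
    · right; left; exact ⟨hv, h1, h2⟩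
    · exact absurd (h2 ▸ c.q_mem v') hv
  · right; right
    have hv : v ∈ c.U := h3 ▸ c.q_mem _
    have hback : v' = c.q (gen s • v) := by
      rw [h3, c.q_gen_q, smul_smul, gen_mul_self, one_smul, c.q_of_mem h1]
    have hlv := c.lv_gen s v'
    rw [← h3] at hlv
    have hs : sgn s (c.lv v').1 = -1 := by simp [sgn, h2]
    rw [hs] at hlv
    have h7 : 1 ≤ c.L n v' := by rcases h4 with h4 | ⟨h4, -⟩ <;> omega
    have h8 := rr_lt (n + 1) (c.lv v').2
    unfold L at h7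
    have hL : c.L n v = c.L n v' - 1 := by
      unfold L
      rw [hlv]
      have := rr_add (n + 1) (c.lv v').2 (-1) (by omega) (by omega)
      simp only at this ⊢
      rw [this]; ring
    have hup : isUp s (c.lv v).1 = true := by
      rw [hlv]; simp only; rw [isUp_tog, h2]; rfl
    refine ⟨hv, s, hback, ?_, ?_⟩
    · rcases h4 with h4 | ⟨h4, h5⟩
      · right; right; left
        exact ⟨by omega, hup⟩
      · right; right; right
        refine ⟨by omega, hup, ?_⟩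
        rw [hlv]; simp only
        rw [tog_tog]; exact h5
    · apply blk_symm
      rw [hlv]
      have : ((-1 : ℤ) : Od) = ((-1 : ℤ) : Od) := rfl
      rw [blk_add]
      constructor <;> omega

section RankSec

variable (n : ℕ) (v0 : V)

/-- the coordinates relative to the base point `v0` -/
noncomputable def crd (w : W) : Q := actQ w ((c.lv v0).1, c.L n v0, ⟨[], List.isChain_nil⟩)

theorem crd_gen (s : Gen) (w : W) : c.crd n v0 (gen s * w) = qS s (c.crd n v0 w) := by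
  unfold crd; rw [actQ_gen_mul]

theorem crd_lv (γ : Γ) (w : W) : c.lv (γ • w • v0) =
    ((c.crd n v0 w).1, (c.lv v0).2 + (((c.crd n v0 w).2.1 - c.L n v0 : ℤ) : Od)) := by
  rw [c.lv_G, c.lv_W]
  have h1 := actP_compare (A := Od) w (c.lv v0).1 (c.L n v0) ((c.lv v0).2 - ((c.L n v0 : ℤ) : Od))
  rw [sub_add_cancel] at h1
  have h2 : (c.lv v0) = ((c.lv v0).1, (c.lv v0).2) := rfl
  have h3 := actQ_proj w (c.lv v0).1 (c.L n v0) ⟨[], List.isChain_nil⟩
  rw [h3] at h1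
  rw [← h2] at h1
  rw [h1]
  unfold crd
  refine Prod.ext rfl ?_
  push_cast
  ring

theorem crd_blk (γ : Γ) (w : W) : blk (n + 1) (c.lv v0).2 (c.lv (γ • w • v0)).2 ↔
    0 ≤ (c.crd n v0 w).2.1 ∧ (c.crd n v0 w).2.1 < 2 ^ (n + 1) := by
  rw [c.crd_lv n v0, blk_add]
  have : rr (n + 1) (c.lv v0).2 = c.L n v0 := rfl
  rw [this]
  constructor
  · rintro ⟨h1, h2⟩; constructor <;> omega
  · rintro ⟨h1, h2⟩; constructor <;> omega

theorem crd_L (γ : Γ) (w : W) (h : 0 ≤ (c.crd n v0 w).2.1 ∧ (c.crd n v0 w).2.1 < 2 ^ (n + 1)) :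
    c.L n (γ • w • v0) = (c.crd n v0 w).2.1 := by
  have hh : c.L n (γ • w • v0) = rr (n + 1) (c.lv (γ • w • v0)).2 := rfl
  rw [hh, c.crd_lv n v0]
  have : rr (n + 1) (c.lv v0).2 = c.L n v0 := rfl
  have h1 := rr_add (n + 1) (c.lv v0).2 ((c.crd n v0 w).2.1 - c.L n v0) (by omega) (by omega)
  simp only at h1 ⊢
  rw [h1, this]; ring

include c in
theorem w_unique {γ γ' : Γ} {w w' : W} (h : γ • w • v0 = γ' • w' • v0) : w = w' := by
  have h1 : (γ'⁻¹ * γ) • (w'⁻¹ * w) • v0 = v0 := by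
    rw [mul_smul, mul_smul, c.comm γ w'⁻¹, h, ← c.comm γ' w'⁻¹, smul_smul, smul_smul]
    simp
  have := (c.free _ _ _ h1).2
  rw [inv_mul_eq_one] at this
  exact this.symm

open Classical in
/-- rank of a vertex in the orbit of `v0`. -/
noncomputable def rk (v : V) : ℕ :=
  if h : ∃ w : W, ∃ γ : Γ, v = γ • w • v0 then
    (c.crd n v0 h.choose).2.2.1.length + ((c.crd n v0 h.choose).2.1 - 1).toNat +
      (if v ∈ c.U then 0 else 1)
  else 0

open Classical in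
theorem rk_eq (γ : Γ) (w : W) : c.rk n v0 (γ • w • v0) =
    (c.crd n v0 w).2.2.1.length + ((c.crd n v0 w).2.1 - 1).toNat +
      (if γ • w • v0 ∈ c.U then 0 else 1) := by
  have h : ∃ w' : W, ∃ γ' : Γ, γ • w • v0 = γ' • w' • v0 := ⟨w, γ, rfl⟩
  unfold rk
  rw [dif_pos h]
  have : h.choose = w := by
    obtain ⟨γ', h'⟩ := h.choose_spec
    exact (c.w_unique v0 h').symm
  rw [this]

/-- the class of `v0` -/
def K : Set V := {v | (∃ w : W, ∃ γ : Γ, v = γ • w • v0) ∧ blk (n + 1) (c.lv v0).2 (c.lv v).2}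

theorem K_closed (v : V) (hv : v ∈ c.K n v0) (v' : V) (h : (c.T n).Adj v v') :
    v' ∈ c.K n v0 := by
  obtain ⟨⟨w, γ, rfl⟩, hb⟩ := hv
  rcases c.adj_cases h with ⟨h1, h2⟩ | ⟨h1, h1', h2⟩ | ⟨h1, s, h2, h3, h4⟩
  · obtain ⟨δ, hδ⟩ := c.exists_q (γ • w • v0)
    refine ⟨⟨w, δ * γ, by rw [h2, hδ, mul_smul]⟩, ?_⟩
    rw [h2, c.lv_q]; exact hb
  · obtain ⟨δ, hδ⟩ := c.exists_q v'
    rw [← h2] at hδ
    refine ⟨⟨w, δ⁻¹ * γ, ?_⟩, ?_⟩
    · rw [mul_smul, hδ, inv_smul_smul]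
    · rw [h2, c.lv_q] at hb; exact hb
  · obtain ⟨δ, hδ⟩ := c.exists_q (gen s • γ • w • v0)
    refine ⟨⟨gen s * w, δ * γ, ?_⟩, blk_trans hb h4⟩
    rw [h2, hδ, mul_smul, mul_smul, c.comm γ (gen s)]

/-- Rank change along an edge inside `U`. -/
theorem rk_edge (γ : Γ) (w : W) (hU : γ • w • v0 ∈ c.U)
    (hb : blk (n + 1) (c.lv v0).2 (c.lv (γ • w • v0)).2) (s : Gen)
    (hE : EC (c.lv (γ • w • v0)).1 (c.L n (γ • w • v0)) s) :
    c.rk n v0 (c.q (gen s • γ • w • v0)) ≠ c.rk n v0 (γ • w • v0) ∧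
    (c.rk n v0 (c.q (gen s • γ • w • v0)) < c.rk n v0 (γ • w • v0) →
      (c.L n (γ • w • v0) ≤ 1 → (c.crd n v0 w).2.2.1.head? = some s) ∧
      (2 ≤ c.L n (γ • w • v0) → s = dS (c.lv (γ • w • v0)).1)) := by
  classical
  have hk := (c.crd_blk n v0 γ w).1 hb
  have hL := c.crd_L n v0 γ w hk
  have he : (c.lv (γ • w • v0)).1 = (c.crd n v0 w).1 := by rw [c.crd_lv n v0]
  obtain ⟨δ, hδ⟩ := c.exists_q (gen s • γ • w • v0)
  have hq : c.q (gen s • γ • w • v0) = (δ * γ) • (gen s * w) • v0 := by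
    rw [hδ, mul_smul, mul_smul, c.comm γ (gen s)]
  have hqU : (δ * γ) • (gen s * w) • v0 ∈ c.U := hq ▸ c.q_mem _
  have r1 := c.rk_eq n v0 γ w
  have r2 := c.rk_eq n v0 (δ * γ) (gen s * w)
  rw [if_pos hU] at r1
  rw [if_pos hqU] at r2
  rw [c.crd_gen] at r2
  rw [hq, r1, r2, hL, he]
  rw [hL, he] at hE
  clear r1 r2 hq hqU hL he
  generalize c.crd n v0 w = Z at hE hk ⊢
  obtain ⟨e, k, r⟩ := Z
  simp only [qS] at hE hk ⊢
  rcases hE with ⟨h1, h2⟩ | ⟨h1, h2⟩ | ⟨h1, h2⟩ | ⟨h1, h2, h3⟩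
  · subst h1
    have hs : sgn s e = -1 := by simp [sgn, h2]
    rw [cc_one e s h2, hs, xS_apply]
    have hne := length_mulS_ne s r
    refine ⟨by simp; exact hne, fun h => ⟨fun _ => ?_, fun h' => by omega⟩⟩
    apply length_mulS_lt
    simpa using h
  · subst h2
    have hs : sgn (dS e) e = -1 := by simp [sgn, dS_down]
    rw [cc_gauge e k h1, hs]
    simp only [Equiv.Perm.coe_one, id]
    refine ⟨by omega, fun h => ⟨fun h' => by omega, fun _ => trivial⟩⟩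
  · subst h1
    have hs : sgn s e = 1 := by simp [sgn, h2]
    rw [cc_zero e s h2, hs, xS_apply]
    have hne := length_mulS_ne s r
    refine ⟨by simp; exact hne, fun h => ⟨fun _ => ?_, fun h' => by omega⟩⟩
    apply length_mulS_lt
    simpa using h
  · have hs : sgn s e = 1 := by simp [sgn, h2]
    have hcc : cc xS e k s = 1 := by
      have h4 := cc_gauge (tog s e) (k + 1) (by omega)
      rw [← h3] at h4
      have h5 := cc_inv xS xS_sq e k s
      rw [hs, h4, one_mul] at h5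
      exact h5
    rw [hcc, hs]
    simp only [Equiv.Perm.coe_one, id]
    refine ⟨by omega, fun h => by omega⟩

theorem T_acyclic : (c.T n).IsAcyclic := by
  classical
  apply isAcyclic_of_rank
  intro v0
  refine ⟨c.K n v0, c.rk n v0, ?_, c.K_closed n v0, ?_, ?_⟩
  · exact ⟨⟨1, 1, by simp⟩, blk_refl _ _⟩
  · rintro v ⟨⟨w, γ, rfl⟩, hb⟩ v' h
    rcases c.adj_cases h with ⟨h1, h2⟩ | ⟨h1, h1', h2⟩ | ⟨h1, s, h2, h3, h4⟩
    · obtain ⟨δ, hδ⟩ := c.exists_q (γ • w • v0)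
      have hq : v' = (δ * γ) • w • v0 := by rw [h2, hδ, mul_smul]
      have hqU : (δ * γ) • w • v0 ∈ c.U := hq ▸ h2 ▸ c.q_mem _
      rw [hq, c.rk_eq, c.rk_eq, if_pos hqU, if_neg h1]
      omega
    · obtain ⟨δ, hδ⟩ := c.exists_q v'
      rw [← h2] at hδ
      have hq : v' = (δ⁻¹ * γ) • w • v0 := by rw [mul_smul, hδ, inv_smul_smul]
      rw [hq] at h1'
      rw [hq, c.rk_eq, c.rk_eq, if_pos h1, if_neg h1']
      omega
    · rw [h2]
      exact (c.rk_edge n v0 γ w h1 hb s h3).1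
  · rintro v ⟨⟨w, γ, rfl⟩, hb⟩ v1 v2 ha1 ha2 hr1 hr2
    have key : ∀ v', (c.T n).Adj (γ • w • v0) v' → c.rk n v0 v' < c.rk n v0 (γ • w • v0) →
        (γ • w • v0 ∉ c.U ∧ v' = c.q (γ • w • v0)) ∨
        (γ • w • v0 ∈ c.U ∧ ∃ s, v' = c.q (gen s • γ • w • v0) ∧
          (c.L n (γ • w • v0) ≤ 1 → (c.crd n v0 w).2.2.1.head? = some s) ∧
          (2 ≤ c.L n (γ • w • v0) → s = dS (c.lv (γ • w • v0)).1)) := by
      intro v' h hr
      rcases c.adj_cases h with ⟨h1, h2⟩ | ⟨h1, h1', h2⟩ | ⟨h1, s, h2, h3, h4⟩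
      · left; exact ⟨h1, h2⟩
      · exfalso
        obtain ⟨δ, hδ⟩ := c.exists_q v'
        rw [← h2] at hδ
        have hq : v' = (δ⁻¹ * γ) • w • v0 := by rw [mul_smul, hδ, inv_smul_smul]
        rw [hq] at h1'
        rw [hq, c.rk_eq, c.rk_eq, if_pos h1, if_neg h1'] at hr
        omega
      · right
        refine ⟨h1, s, h2, ?_⟩
        rw [h2] at hr
        exact (c.rk_edge n v0 γ w h1 hb s h3).2 hr
    rcases key v1 ha1 hr1 with ⟨h1, h2⟩ | ⟨h1, s, h2, h3, h4⟩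
    · rcases key v2 ha2 hr2 with ⟨h1', h2'⟩ | ⟨h1', s', h2', h3', h4'⟩
      · rw [h2, h2']
      · exact absurd h1' h1
    · rcases key v2 ha2 hr2 with ⟨h1', h2'⟩ | ⟨h1', s', h2', h3', h4'⟩
      · exact absurd h1 h1'
      · have : s = s' := by
          by_cases hL : c.L n (γ • w • v0) ≤ 1
          · have := (h3 hL).symm.trans (h3' hL)
            exact Option.some_injective _ this
          · rw [h4 (by omega), h4' (by omega)]
        rw [h2, h2', this]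

theorem reach_orbit {v v' : V} (h : (c.T n).Reachable v v') :
    (∃ w : W, ∃ γ : Γ, v' = γ • w • v) ∧ blk (n + 1) (c.lv v).2 (c.lv v').2 := by
  obtain ⟨p⟩ := h
  have : ∀ (a b : V) (_ : (c.T n).Walk a b), a ∈ c.K n v → b ∈ c.K n v := by
    intro a b p
    induction p with
    | nil => exact id
    | cons hadj p ih => intro ha; exact ih (c.K_closed n v _ ha _ hadj)
  exact this v v' p ⟨⟨1, 1, by simp⟩, blk_refl _ _⟩

end RankSec

/-! ### connectivity -/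

section Conn

variable (n : ℕ) (v0 : V)

/-- parity and height relative to `v0` -/
noncomputable def pk (w : W) : Par × ℤ := actP ℤ w ((c.lv v0).1, c.L n v0)

theorem pk_eq (w : W) : c.pk n v0 w = ((c.crd n v0 w).1, (c.crd n v0 w).2.1) :=
  actQ_proj w _ _ _

theorem pk_gen (s : Gen) (w : W) : c.pk n v0 (gen s * w) = pS s (c.pk n v0 w) := by
  unfold pk; rw [actP_gen_mul]

/-- one step of the flow to heights `{0,1}` -/
noncomputable def fl (w : W) : W :=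
  if 2 ≤ (c.pk n v0 w).2 then gen (dS (c.pk n v0 w).1) * w
  else if (c.pk n v0 w).2 ≤ -1 then gen (uS (c.pk n v0 w).1) * w
  else w

/-- end of the flow -/
noncomputable def Fl (w : W) : W := (c.fl n v0)^[(c.pk n v0 w).2.natAbs] w

theorem Fl_of_two_le (w : W) (h : 2 ≤ (c.pk n v0 w).2) :
    c.Fl n v0 w = c.Fl n v0 (gen (dS (c.pk n v0 w).1) * w) := by
  have h1 : (c.pk n v0 (gen (dS (c.pk n v0 w).1) * w)).2 = (c.pk n v0 w).2 - 1 := by
    rw [c.pk_gen]; simp [pS, sgn, dS_down]; ring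
  unfold Fl
  obtain ⟨m, hm⟩ : ∃ m, (c.pk n v0 w).2.natAbs = m + 1 := ⟨(c.pk n v0 w).2.natAbs - 1, by omega⟩
  rw [hm, Function.iterate_succ_apply]
  have h2 : c.fl n v0 w = gen (dS (c.pk n v0 w).1) * w := by unfold fl; rw [if_pos h]
  rw [h2]
  have h3 : (c.pk n v0 (gen (dS (c.pk n v0 w).1) * w)).2.natAbs = m := by rw [h1]; omega
  rw [h3]

theorem Fl_of_neg (w : W) (h : (c.pk n v0 w).2 ≤ -1) :
    c.Fl n v0 w = c.Fl n v0 (gen (uS (c.pk n v0 w).1) * w) := by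
  have h1 : (c.pk n v0 (gen (uS (c.pk n v0 w).1) * w)).2 = (c.pk n v0 w).2 + 1 := by
    rw [c.pk_gen]; simp [pS, sgn, uS_up]
  unfold Fl
  obtain ⟨m, hm⟩ : ∃ m, (c.pk n v0 w).2.natAbs = m + 1 := ⟨(c.pk n v0 w).2.natAbs - 1, by omega⟩
  rw [hm, Function.iterate_succ_apply]
  have h2 : c.fl n v0 w = gen (uS (c.pk n v0 w).1) * w := by
    unfold fl; rw [if_neg (by omega), if_pos h]
  rw [h2]
  have h3 : (c.pk n v0 (gen (uS (c.pk n v0 w).1) * w)).2.natAbs = m := by rw [h1]; omega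
  rw [h3]

theorem Fl_of_01 (w : W) (h0 : 0 ≤ (c.pk n v0 w).2) (h1 : (c.pk n v0 w).2 ≤ 1) :
    c.Fl n v0 w = w := by
  unfold Fl
  apply Function.iterate_fixed
  unfold fl
  rw [if_neg (by omega), if_neg (by omega)]

/-- component of the flow end -/
noncomputable def κ (w : W) : (c.T n).ConnectedComponent :=
  (c.T n).connectedComponentMk (c.q (c.Fl n v0 w • v0))

theorem L_q (v : V) : c.L n (c.q v) = c.L n v := by unfold L; rw [c.lv_q]

theorem L_of_pk (w : W) (h0 : 0 ≤ (c.pk n v0 w).2) (h1 : (c.pk n v0 w).2 < 2 ^ (n + 1)) :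
    c.L n (w • v0) = (c.pk n v0 w).2 := by
  have := c.crd_L n v0 1 w (by rw [c.pk_eq] at h0 h1; exact ⟨h0, h1⟩)
  rw [one_smul] at this
  rw [this, c.pk_eq]

theorem lv_of_pk (w : W) : (c.lv (w • v0)).1 = (c.pk n v0 w).1 := by
  have := c.crd_lv n v0 1 w
  rw [one_smul] at this
  rw [this, c.pk_eq]

theorem adj_down (w : W) (s : Gen) (h0 : 0 ≤ (c.pk n v0 w).2)
    (h1 : (c.pk n v0 w).2 < 2 ^ (n + 1)) (hs : isUp s (c.pk n v0 w).1 = false)
    (h : (c.pk n v0 w).2 = 1 ∨ (2 ≤ (c.pk n v0 w).2 ∧ s = dS (c.pk n v0 w).1)) :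
    (c.T n).Adj (c.q (w • v0)) (c.q ((gen s * w) • v0)) := by
  left
  right
  refine ⟨c.q_mem _, s, ?_, ?_, ?_⟩
  · rw [c.lv_q, c.lv_of_pk n v0]; exact hs
  · rw [c.q_gen_q, mul_smul]
  · rw [c.L_q, c.L_of_pk n v0 w h0 h1, c.lv_q, c.lv_of_pk n v0]; exact h

theorem κ_const (w : W) : c.κ n v0 w = c.κ n v0 1 := by
  refine conn_lemma (c.κ n v0) ((c.lv v0).1, c.L n v0) ?_ ?_ ?_ w
  · intro w s h1 h2
    have h1' : (c.pk n v0 w).2 = 1 := h1
    have h2' : isUp s (c.pk n v0 w).1 = false := h2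
    have h3 : (c.pk n v0 (gen s * w)).2 = 0 := by
      rw [c.pk_gen]; simp [pS, sgn, h2', h1']
    unfold κ
    rw [c.Fl_of_01 n v0 w (by omega) (by omega), c.Fl_of_01 n v0 (gen s * w) (by omega) (by omega)]
    apply ConnectedComponent.sound
    apply Adj.reachable
    apply c.adj_down n v0 w s (by omega) _ h2' (Or.inl h1')
    rw [h1']
    have : (0 : ℤ) < 2 ^ n := by positivity
    rw [pow_succ]; omega
  · intro w h
    have h' : 2 ≤ (c.pk n v0 w).2 := h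
    unfold κ
    rw [c.Fl_of_two_le n v0 w h']; rfl
  · intro w h
    have h' : (c.pk n v0 w).2 ≤ -1 := h
    unfold κ
    rw [c.Fl_of_neg n v0 w h']; rfl

theorem κ_block (m : ℕ) : ∀ w : W, (c.pk n v0 w).2 = m → (m : ℤ) < 2 ^ (n + 1) →
    c.κ n v0 w = (c.T n).connectedComponentMk (c.q (w • v0)) := by
  induction m with
  | zero =>
    intro w h _
    unfold κ
    rw [c.Fl_of_01 n v0 w (by rw [h]; simp) (by rw [h]; simp)]
  | succ m ih =>
    intro w h hlt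
    by_cases hm : m = 0
    · subst hm
      unfold κ
      rw [c.Fl_of_01 n v0 w (by rw [h]; simp) (by rw [h]; simp)]
    · have h2 : 2 ≤ (c.pk n v0 w).2 := by rw [h]; push_cast; omega
      have h3 : (c.pk n v0 (gen (dS (c.pk n v0 w).1) * w)).2 = m := by
        rw [c.pk_gen]; simp [pS, sgn, dS_down, h]
      have h4 := ih _ h3 (by push_cast at hlt; omega)
      have h5 : c.κ n v0 w = c.κ n v0 (gen (dS (c.pk n v0 w).1) * w) := by
        unfold κ; rw [c.Fl_of_two_le n v0 w h2]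
      rw [h5, h4]
      apply ConnectedComponent.sound
      apply Reachable.symm
      apply Adj.reachable
      apply c.adj_down n v0 w _ (by omega) (by rw [h]; exact hlt) (dS_down _)
      right; exact ⟨h2, rfl⟩

theorem reach_of_orbit {γ : Γ} {w : W} (hb : blk (n + 1) (c.lv v0).2 (c.lv (γ • w • v0)).2) :
    (c.T n).Reachable v0 (γ • w • v0) := by
  have hk := (c.crd_blk n v0 γ w).1 hb
  have hpk := c.pk_eq n v0 w
  have hk0 : 0 ≤ (c.pk n v0 w).2 := by rw [hpk]; exact hk.1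
  have hk1 : (c.pk n v0 w).2 < 2 ^ (n + 1) := by rw [hpk]; exact hk.2
  obtain ⟨m, hm⟩ := Int.eq_ofNat_of_zero_le hk0
  have h1 := c.κ_block n v0 m w hm (by rw [← hm]; exact hk1)
  have hone : (c.pk n v0 1).2 = c.L n v0 := by unfold pk; simp
  obtain ⟨m', hm'⟩ := Int.eq_ofNat_of_zero_le (rr_nonneg (n + 1) (c.lv v0).2)
  have hL : c.L n v0 = m' := hm'
  have h2 := c.κ_block n v0 m' 1 (by rw [hone, hL]) (by rw [← hL]; exact rr_lt _ _)
  rw [c.κ_const n v0 w, h2, one_smul] at h1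
  have h3 : (c.T n).Reachable (c.q v0) (c.q (w • v0)) := ConnectedComponent.exact h1
  have hq : ∀ v, (c.T n).Reachable v (c.q v) := by
    intro v
    by_cases hv : v ∈ c.U
    · rw [c.q_of_mem hv]
    · exact Adj.reachable (Or.inl (Or.inl ⟨hv, rfl⟩))
  have h4 : c.q (γ • w • v0) = c.q (w • v0) := c.q_smul γ _
  have h5 := hq (γ • w • v0)
  rw [h4] at h5
  exact ((hq v0).trans h3).trans h5.symm

end Conn

theorem reach_iff (n : ℕ) (v v' : V) : (c.T n).Reachable v v' ↔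
    (∃ w : W, ∃ γ : Γ, v' = γ • w • v) ∧ blk (n + 1) (c.lv v).2 (c.lv v').2 := by
  constructor
  · exact c.reach_orbit n
  · rintro ⟨⟨w, γ, rfl⟩, hb⟩
    exact c.reach_of_orbit n v hb

end Cpl

end Pool.Agent.H67R2
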